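import Pool.Agent.H973R2.Ident

/-!
The exact identities for connection probabilities in Young diagrams at `p = 1/2`.
-/

namespace H973

open H974 Finset Matrix

theorem Ex_half {T : Finset Edg} (f : Finset Edg → ℝ) :
    Ex (fun _ => (1 / 2 : ℝ)) T f = (1 / 2) ^ T.card * ∑ F ∈ T.powerset, f F := by
  unfold Ex
  rw [Finset.mul_sum]
  apply Finset.sum_congr rfl
  intro F hF
  rw [Finset.mem_powerset] at hF
  rw [Finset.prod_const, Finset.prod_const, show (1 - 1 / 2 : ℝ) = 1 / 2 by norm_num, ← pow_add]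
  congr 2
  rw [Finset.card_sdiff_of_subset hF]
  have := Finset.card_le_card hF
  omega

/-- Probability that the origin is connected to `x` inside `S` in critical bond percolation. -/
noncomputable def PS (S : Finset Vtx) (x : Vtx) : ℝ :=
  Pr (fun _ => (1 / 2 : ℝ)) (ES S) (fun F => Reach (F : Set Edg) (0, 0) x)

theorem flux_eval {n C : ℕ} {S : Finset Vtx} {used : Finset ℕ} {ep : ℕ → Vtx} {a : ℕ → ℂ}
    (h : Legs n S used ep a) (hz : ((0, 0) : Vtx) ∈ S) {F : Finset Edg} {ν : Vtx → ℕ}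
    (hB : Rep S F ν C) :
    Fl used a (psi (4 * n + 1) C used (fun p => ν (ep p))) XX =
      (1 - q) * ((2 - q) - ∑ r ∈ used, a r * (ind (Reach (F : Set Edg) (0, 0) (ep r)) : ℂ)) := by
  obtain ⟨z1, z2, z3⟩ := h.l1 _ hz rfl
  have hL : pL (0, 0) = 0 := by unfold pL; simp
  rw [hL] at z1 z2 z3
  have hn : 0 < n := by
    have := (h.bd _ hz).2.2.1
    simp only at this
    omega
  have hused : ∀ r ∈ used, r < 4 * n + 1 := by
    intro r hr
    rcases h.l5 r hr with ⟨x, hx, h1, h2⟩ | ⟨x, hx, h1, h2⟩ | ⟨x, hx, h1, h2⟩ | ⟨x, hx, h1, h2⟩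
    · have := h.bd x hx; unfold pL at h2; omega
    · have := h.bd x hx; unfold pU at h2; omega
    · have := h.bd x hx; unfold pR at h2; omega
    · have := h.bd x hx; unfold pD at h2; omega
  have hC : ν (ep 0) < C := by rw [z2]; exact hB.1 _ hz
  have hterm : ∀ r ∈ used.erase 0, a r * psi (4 * n + 1) C used (fun p => ν (ep p)) (tw r XX) =
      a r * (-(1 - q) * (ind (Reach (F : Set Edg) (0, 0) (ep r)) : ℂ)) := by
    intro r hr
    rw [Finset.mem_erase] at hr
    rw [psi_pos_eval z1 hr.1 hr.2 (hused r hr.2) hC]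
    congr 1
    have hiff := hB.2 _ hz _ (h.epS r hr.2)
    by_cases hc : ν (ep r) = ν (ep 0)
    · rw [if_pos hc, ind_of (hiff.mp (by rw [hc, z2]))]
      simp
    · rw [if_neg hc, ind_not_of (fun hh => hc (by rw [z2]; exact (hiff.mpr hh).symm))]
      simp
  unfold Fl
  rw [← Finset.add_sum_erase used _ z1, Finset.sum_congr rfl hterm, psi_zero_eval z1 (by omega) hC,
    z3, ← Finset.add_sum_erase used (fun r => a r * (ind (Reach (F : Set Edg) (0, 0) (ep r)) : ℂ)) z1,
    z2, z3, ind_of (Reach.refl _ _)]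
  have : ∑ r ∈ used.erase 0, a r * (-(1 - q) * (ind (Reach (F : Set Edg) (0, 0) (ep r)) : ℂ)) =
      -(1 - q) * ∑ r ∈ used.erase 0, a r * (ind (Reach (F : Set Edg) (0, 0) (ep r)) : ℂ) := by
    rw [Finset.mul_sum]
    apply Finset.sum_congr rfl
    intros; ring
  rw [this]
  push_cast
  linear_combination (-2 : ℂ) * q_sq

theorem young_sum {S : Finset Vtx} (hY : Young S) :
    (-q) * ∑ x ∈ S.filter (fun x => x.1 = 0), (PS S x : ℂ) +
      (1 - q) * ∑ x ∈ S.filter (fun x => (x.1, x.2 + 1) ∉ S), (PS S x : ℂ) +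
      ∑ x ∈ S.filter (fun x => (x.1 + 1, x.2) ∉ S), (PS S x : ℂ) +
      q * ∑ x ∈ S.filter (fun x => x.2 = 0), (PS S x : ℂ) = 2 - q := by
  obtain ⟨n, hn⟩ : ∃ n : ℕ, ∀ x ∈ S, x.1 < n ∧ x.2 < n := by
    obtain ⟨m, hm⟩ := Finset.exists_max_image S (fun x => x.1 + x.2) ⟨_, hY.zero⟩
    refine ⟨(m.1 + m.2 + 1).toNat, fun x hx => ?_⟩
    have h1 := hm.2 x hx
    have h2 := hY.nn x hx
    omega
  obtain ⟨used, ep, a, hL, C, ν, hB, hC⟩ := young_flux S.card S rfl hY hn
  rw [← sum_legs hL]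
  have h1 := hC XX
  have h2 : ∀ F ∈ (ES S).powerset,
      Fl used a (psi (4 * n + 1) C used (fun p => ν F (ep p))) XX =
      (1 - q) * ((2 - q) - ∑ r ∈ used, a r * (ind (Reach (F : Set Edg) (0, 0) (ep r)) : ℂ)) := by
    intro F hF
    exact flux_eval hL hY.zero (hB F (Finset.mem_powerset.mp hF)).1
  rw [Finset.sum_congr rfl h2, ← Finset.mul_sum, mul_eq_zero] at h1
  have h3 := h1.resolve_left (fun h => one_ne_q (by linear_combination h))
  rw [Finset.sum_sub_distrib, Finset.sum_comm, Finset.sum_const, Finset.card_powerset,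
    sub_eq_zero, nsmul_eq_mul] at h3
  have h4 : ∀ x, (PS S x : ℂ) = (1 / 2) ^ (ES S).card *
      ∑ F ∈ (ES S).powerset, (ind (Reach (F : Set Edg) (0, 0) x) : ℂ) := by
    intro x
    unfold PS Pr
    rw [Ex_half]
    push_cast
    rfl
  have h5 : ∑ r ∈ used, a r * (PS S (ep r) : ℂ) = (1 / 2) ^ (ES S).card *
      ∑ r ∈ used, ∑ F ∈ (ES S).powerset, a r * (ind (Reach (F : Set Edg) (0, 0) (ep r)) : ℂ) := by
    rw [Finset.mul_sum]
    apply Finset.sum_congr rfl
    intro r _
    rw [h4, ← Finset.mul_sum]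
    ring
  rw [h5, ← h3]
  push_cast
  rw [← mul_assoc, ← mul_pow]
  norm_num

/-- **Exact identities.** For every finite Young diagram `S`, the connection probabilities of
critical bond percolation restricted to `S` satisfy two exact linear relations. -/
theorem young_identity {S : Finset Vtx} (hY : Young S) :
    ∑ x ∈ S.filter (fun x => (x.1, x.2 + 1) ∉ S), PS S x +
      ∑ x ∈ S.filter (fun x => (x.1 + 1, x.2) ∉ S), PS S x = 2 ∧
    ∑ x ∈ S.filter (fun x => (x.1, x.2 + 1) ∉ S), PS S x +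
      ∑ x ∈ S.filter (fun x => x.1 = 0), PS S x =
      1 + ∑ x ∈ S.filter (fun x => x.2 = 0), PS S x := by
  have h := young_sum hY
  have him := congrArg Complex.im h
  have hre := congrArg Complex.re h
  simp only [← Complex.ofReal_sum] at him hre
  have hq := q_im_ne
  have hqr : q.re = 1 / 2 := rfl
  simp only [Complex.add_im, Complex.mul_im, Complex.neg_im, Complex.neg_re, Complex.sub_im,
    Complex.sub_re, Complex.one_im, Complex.one_re, Complex.ofReal_im, Complex.ofReal_re,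
    Complex.im_ofNat, mul_zero, add_zero, zero_add, zero_sub] at him
  simp only [Complex.add_re, Complex.mul_re, Complex.neg_im, Complex.neg_re, Complex.sub_im,
    Complex.sub_re, Complex.one_im, Complex.one_re, Complex.ofReal_im, Complex.ofReal_re,
    Complex.re_ofNat, mul_zero, sub_zero, hqr] at hre
  set L := ∑ x ∈ S.filter (fun x => x.1 = 0), PS S x
  set U := ∑ x ∈ S.filter (fun x => (x.1, x.2 + 1) ∉ S), PS S x
  set R := ∑ x ∈ S.filter (fun x => (x.1 + 1, x.2) ∉ S), PS S x
  set D := ∑ x ∈ S.filter (fun x => x.2 = 0), PS S x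
  have h1 : q.im * (U + L - 1 - D) = 0 := by linear_combination -him
  have h2 := (mul_eq_zero.mp h1).resolve_left hq
  constructor
  · linear_combination hre + (1 / 2 : ℝ) * h2
  · linear_combination h2

end H973
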