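import Pool.Agent.H973R2.Exp2
import Pool.Agent.H988R2.Perc.T26

/-!
The half-plane one-arm exponent is `1/3` in every direction and the quarter-plane one-arm exponent
is `2/3`.
-/

namespace H973

open H974 Finset MeasureTheory Filter Topology
open Pool.Agent.H988R2

/-- Two-sided bounds for the exact arm probability. -/
theorem arm_bounds : ∃ c C : ℝ, 0 < c ∧ 0 < C ∧ ∀ L : ℕ, 1 ≤ L →
    c ≤ (L : ℝ) ^ ((1 : ℝ) / 3) * Perc.perc.real (Perc.Arm L) ∧
    (L : ℝ) ^ ((1 : ℝ) / 3) * Perc.perc.real (Perc.Arm L) ≤ C := by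
  set κ : ℝ := 9 / 4 * Real.Gamma (2/3) / Real.Gamma (1/3) with hκ
  have hκ0 : 0 < κ := by
    rw [hκ]
    have h1 : 0 < Real.Gamma (2/3) := Real.Gamma_pos_of_pos (by norm_num)
    have h2 : 0 < Real.Gamma (1/3) := Real.Gamma_pos_of_pos (by norm_num)
    positivity
  have hlim := Perc.arm_asymptotics
  have h1 : ∀ᶠ L : ℕ in atTop, κ / 2 < (L : ℝ) ^ ((1 : ℝ) / 3) * Perc.perc.real (Perc.Arm L) :=
    hlim.eventually (lt_mem_nhds (by linarith))
  have h2 : ∀ᶠ L : ℕ in atTop, (L : ℝ) ^ ((1 : ℝ) / 3) * Perc.perc.real (Perc.Arm L) < 2 * κ :=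
    hlim.eventually (gt_mem_nhds (by linarith))
  obtain ⟨L0, hL0⟩ := eventually_atTop.mp (h1.and h2)
  set L1 : ℕ := max L0 1 with hL1
  have hL11 : 1 ≤ L1 := le_max_right _ _
  have hP1 : 0 < Perc.perc.real (Perc.Arm L1) := by
    have h3 := (hL0 L1 (le_max_left _ _)).1
    by_contra hcon
    push Not at hcon
    have : (L1 : ℝ) ^ ((1 : ℝ) / 3) * Perc.perc.real (Perc.Arm L1) ≤ 0 :=
      mul_nonpos_of_nonneg_of_nonpos (Real.rpow_nonneg (Nat.cast_nonneg _) _) hcon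
    linarith
  refine ⟨min (κ / 2) (Perc.perc.real (Perc.Arm L1)), max (2 * κ) ((L1 : ℝ) ^ ((1 : ℝ) / 3)),
    lt_min (by linarith) hP1, lt_max_of_lt_left (by linarith), ?_⟩
  intro L hL
  rcases le_total L1 L with h | h
  · obtain ⟨h3, h4⟩ := hL0 L (le_trans (le_max_left _ _) h)
    exact ⟨(min_le_left _ _).trans h3.le, h4.le.trans (le_max_left _ _)⟩
  · have hL1r : (1 : ℝ) ≤ L := by exact_mod_cast hL
    have h5 : (1 : ℝ) ≤ (L : ℝ) ^ ((1 : ℝ) / 3) := Real.one_le_rpow hL1r (by norm_num)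
    have h6 : Perc.perc.real (Perc.Arm L1) ≤ Perc.perc.real (Perc.Arm L) :=
      measureReal_mono (Perc.arm_anti hL h) (measure_ne_top _ _)
    have h7 : Perc.perc.real (Perc.Arm L) ≤ 1 := measureReal_le_one
    have h8 : (0 : ℝ) ≤ Perc.perc.real (Perc.Arm L) := measureReal_nonneg
    constructor
    · calc min (κ / 2) (Perc.perc.real (Perc.Arm L1)) ≤ Perc.perc.real (Perc.Arm L1) :=
            min_le_right _ _
        _ ≤ 1 * Perc.perc.real (Perc.Arm L) := by rw [one_mul]; exact h6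
        _ ≤ _ := mul_le_mul_of_nonneg_right h5 h8
    · calc (L : ℝ) ^ ((1 : ℝ) / 3) * Perc.perc.real (Perc.Arm L)
          ≤ (L1 : ℝ) ^ ((1 : ℝ) / 3) * 1 := by
            apply mul_le_mul _ h7 h8 (Real.rpow_nonneg (Nat.cast_nonneg _) _)
            exact Real.rpow_le_rpow (Nat.cast_nonneg _) (by exact_mod_cast h) (by norm_num)
        _ = (L1 : ℝ) ^ ((1 : ℝ) / 3) := mul_one _
        _ ≤ _ := le_max_right _ _

/-- The diagonal half-plane. -/
theorem diag_bounds : ∃ c C : ℝ, 0 < c ∧ 0 < C ∧ ∀ n : ℕ, 1 ≤ n →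
    c ≤ (n : ℝ) ^ ((1 : ℝ) / 3) * armP (HB 1 1 n) n ∧
    (n : ℝ) ^ ((1 : ℝ) / 3) * armP (HB 1 1 n) n ≤ C := by
  obtain ⟨c, C, hc, hC, h⟩ := arm_bounds
  have hd := dlt_pos
  have hd5 : 0 < dlt ^ 5 := pow_pos hd 5
  refine ⟨c / 4, max (C / dlt ^ 5) 10, by linarith, lt_max_of_lt_right (by norm_num), ?_⟩
  intro n hn
  have hnr : (1 : ℝ) ≤ n := by exact_mod_cast hn
  have hn3 : 0 < (n : ℝ) ^ ((1 : ℝ) / 3) := Real.rpow_pos_of_pos (by linarith) _
  have hP0 : 0 ≤ armP (HB 1 1 n) n := armP_nonneg _ _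
  constructor
  · have h1 := (h (2 * n + 4) (by omega)).1
    have h2 : Perc.perc.real (Perc.Arm (2 * n + 4)) ≤ 2 * armP (HB 1 1 n) n :=
      arm_le_HB (by exact_mod_cast hn) (by push_cast; omega)
    have h3 : (((2 * n + 4 : ℕ) : ℝ)) ^ ((1 : ℝ) / 3) ≤ 2 * (n : ℝ) ^ ((1 : ℝ) / 3) := by
      have h4 : (((2 * n + 4 : ℕ) : ℝ)) ≤ 8 * n := by push_cast; linarith
      calc (((2 * n + 4 : ℕ) : ℝ)) ^ ((1 : ℝ) / 3) ≤ (8 * (n : ℝ)) ^ ((1 : ℝ) / 3) :=
            Real.rpow_le_rpow (Nat.cast_nonneg _) h4 (by norm_num)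
        _ = 8 ^ ((1 : ℝ) / 3) * (n : ℝ) ^ ((1 : ℝ) / 3) :=
            Real.mul_rpow (by norm_num) (by linarith)
        _ = 2 * (n : ℝ) ^ ((1 : ℝ) / 3) := by
            have : (8 : ℝ) ^ ((1 : ℝ) / 3) = 2 := by
              rw [show (8 : ℝ) = 2 ^ (3 : ℝ) by norm_num, ← Real.rpow_mul (by norm_num)]
              norm_num
            rw [this]
    have h5 : c ≤ 2 * (n : ℝ) ^ ((1 : ℝ) / 3) * (2 * armP (HB 1 1 n) n) :=
      h1.trans (mul_le_mul h3 h2 measureReal_nonneg (by positivity))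
    linarith
  · by_cases h10 : 10 ≤ n
    · have h1 := (h (5 * n + 1) (by omega)).2
      have h2 : armP (HB 1 1 n) n * dlt ^ 5 ≤ Perc.perc.real (Perc.Arm (5 * n + 1)) :=
        HB_le_arm (by exact_mod_cast h10) (by push_cast; ring)
      refine le_trans ?_ (le_max_left _ _)
      rw [le_div_iff₀ hd5]
      calc (n : ℝ) ^ ((1 : ℝ) / 3) * armP (HB 1 1 n) n * dlt ^ 5
          = (n : ℝ) ^ ((1 : ℝ) / 3) * (armP (HB 1 1 n) n * dlt ^ 5) := by ring
        _ ≤ (n : ℝ) ^ ((1 : ℝ) / 3) * Perc.perc.real (Perc.Arm (5 * n + 1)) :=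
            mul_le_mul_of_nonneg_left h2 hn3.le
        _ ≤ (((5 * n + 1 : ℕ) : ℝ)) ^ ((1 : ℝ) / 3) * Perc.perc.real (Perc.Arm (5 * n + 1)) := by
            apply mul_le_mul_of_nonneg_right _ measureReal_nonneg
            exact Real.rpow_le_rpow (by linarith) (by push_cast; linarith) (by norm_num)
        _ ≤ C := h1
    · push Not at h10
      refine le_trans ?_ (le_max_right _ _)
      have h1 : (n : ℝ) ≤ 10 := by exact_mod_cast h10.le
      calc (n : ℝ) ^ ((1 : ℝ) / 3) * armP (HB 1 1 n) n ≤ (n : ℝ) ^ (1 : ℝ) * 1 := by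
            apply mul_le_mul _ (armP_le_one _ _) hP0 (by positivity)
            exact Real.rpow_le_rpow_of_exponent_le hnr (by norm_num)
        _ ≤ 10 := by rw [Real.rpow_one, mul_one]; exact h1

/-- Exponents: half-plane `1/3` in all directions, quarter-plane `2/3`. -/
theorem exponents : ∃ c C : ℝ, 0 < c ∧ 0 < C ∧ ∀ n : ℕ, 1 ≤ n →
    (c ≤ (n : ℝ) ^ ((2 : ℝ) / 3) * armP (QT n) n ∧
      (n : ℝ) ^ ((2 : ℝ) / 3) * armP (QT n) n ≤ C) ∧
    ∀ a b : ℝ, (a ≠ 0 ∨ b ≠ 0) →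
      c ≤ (n : ℝ) ^ ((1 : ℝ) / 3) * armP (HB a b n) n ∧
      (n : ℝ) ^ ((1 : ℝ) / 3) * armP (HB a b n) n ≤ C := by
  obtain ⟨c, C, hc, hC, h⟩ := diag_bounds
  have hd5 : 0 < dlt ^ 5 := pow_pos dlt_pos 5
  set A : ℝ := 10 / dlt ^ 5 with hA
  have hA0 : 0 < A := by rw [hA]; positivity
  -- quarter plane
  have hQ : ∀ n : ℕ, 1 ≤ n → 1 / (36 * C) ≤ (n : ℝ) ^ ((2 : ℝ) / 3) * armP (QT n) n ∧
      (n : ℝ) ^ ((2 : ℝ) / 3) * armP (QT n) n ≤ A / c := by
    intro n hn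
    have hnr : (1 : ℝ) ≤ n := by exact_mod_cast hn
    have hn3 : 0 < (n : ℝ) ^ ((1 : ℝ) / 3) := Real.rpow_pos_of_pos (by linarith) _
    have hn23 : 0 < (n : ℝ) ^ ((2 : ℝ) / 3) := Real.rpow_pos_of_pos (by linarith) _
    have hprod : (n : ℝ) ^ ((2 : ℝ) / 3) * (n : ℝ) ^ ((1 : ℝ) / 3) = n := by
      rw [← Real.rpow_add (by linarith)]
      norm_num
    obtain ⟨h1, h2⟩ := both_dir (a := 1) (b := 1) (Or.inl one_ne_zero) (n := (n : ℤ))
      (by exact_mod_cast hn)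
    simp only [Int.cast_natCast] at h1 h2
    obtain ⟨h3, h4⟩ := h n hn
    have hQ0 := armP_nonneg (QT (n : ℤ)) n
    have e1 : (n : ℝ) * (armP (QT n) n * armP (HB 1 1 n) n) =
        ((n : ℝ) ^ ((2 : ℝ) / 3) * armP (QT n) n) *
          ((n : ℝ) ^ ((1 : ℝ) / 3) * armP (HB 1 1 n) n) := by
      calc (n : ℝ) * (armP (QT n) n * armP (HB 1 1 n) n)
          = ((n : ℝ) ^ ((2 : ℝ) / 3) * (n : ℝ) ^ ((1 : ℝ) / 3)) *
            (armP (QT n) n * armP (HB 1 1 n) n) := by rw [hprod]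
        _ = _ := by ring
    have hx0 : 0 ≤ (n : ℝ) ^ ((2 : ℝ) / 3) * armP (QT n) n := mul_nonneg hn23.le hQ0
    constructor
    · rw [div_le_iff₀ (by positivity)]
      have h5 : 1 ≤ 36 * ((n : ℝ) * (armP (QT n) n * armP (HB 1 1 n) n)) := by linarith
      rw [e1] at h5
      have h6 := mul_le_mul_of_nonneg_left h4 hx0
      nlinarith
    · rw [le_div_iff₀ hc]
      rw [e1] at h2
      have h6 := mul_le_mul_of_nonneg_left h3 hx0
      linarith
  refine ⟨min (1 / (36 * C)) (c / (36 * A)), max (A / c) (36 * A * C), ?_, ?_, ?_⟩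
  · apply lt_min <;> positivity
  · apply lt_max_of_lt_left; positivity
  · intro n hn
    obtain ⟨q1, q2⟩ := hQ n hn
    refine ⟨⟨(min_le_left _ _).trans q1, q2.trans (le_max_left _ _)⟩, ?_⟩
    intro a b hab
    have hnr : (1 : ℝ) ≤ n := by exact_mod_cast hn
    have hn0 : (0 : ℝ) < n := by linarith
    have hn3 : 0 < (n : ℝ) ^ ((1 : ℝ) / 3) := Real.rpow_pos_of_pos (by linarith) _
    have hn23 : 0 < (n : ℝ) ^ ((2 : ℝ) / 3) := Real.rpow_pos_of_pos (by linarith) _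
    obtain ⟨h1, h2⟩ := both_dir (a := 1) (b := 1) (Or.inl one_ne_zero) (n := (n : ℤ))
      (by exact_mod_cast hn)
    obtain ⟨h5, h6⟩ := both_dir hab (n := (n : ℤ)) (by exact_mod_cast hn)
    simp only [Int.cast_natCast] at h1 h2 h5 h6
    obtain ⟨h3, h4⟩ := h n hn
    have hQpos : 0 < armP (QT n) n := by
      rcases eq_or_lt_of_le (armP_nonneg (QT (n : ℤ)) n) with h | h
      · exfalso
        rw [← h, zero_mul, mul_zero] at h1
        norm_num at h1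
      · exact h
    set Q := armP (QT n) n with hQdef
    set H := armP (HB a b n) n with hHdef
    set D := armP (HB 1 1 n) n with hDdef
    -- D <= 36 A H and H <= 36 A D
    have hnQ : 0 < (n : ℝ) * Q := by positivity
    have k1 : D ≤ 36 * A * H := by
      have : (n : ℝ) * Q * D ≤ (n : ℝ) * Q * (36 * A * H) := by
        calc (n : ℝ) * Q * D = (n : ℝ) * (Q * D) := by ring
          _ ≤ A * 1 := by rw [mul_one]; exact h2
          _ ≤ A * (36 * (n : ℝ) * (Q * H)) := mul_le_mul_of_nonneg_left h5 hA0.le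
          _ = _ := by ring
      exact le_of_mul_le_mul_left this hnQ
    have k2 : H ≤ 36 * A * D := by
      have : (n : ℝ) * Q * H ≤ (n : ℝ) * Q * (36 * A * D) := by
        calc (n : ℝ) * Q * H = (n : ℝ) * (Q * H) := by ring
          _ ≤ A * 1 := by rw [mul_one]; exact h6
          _ ≤ A * (36 * (n : ℝ) * (Q * D)) := mul_le_mul_of_nonneg_left h1 hA0.le
          _ = _ := by ring
      exact le_of_mul_le_mul_left this hnQ
    constructor
    · refine (min_le_right _ _).trans ?_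
      rw [div_le_iff₀ (by positivity)]
      calc c ≤ (n : ℝ) ^ ((1 : ℝ) / 3) * D := h3
        _ ≤ (n : ℝ) ^ ((1 : ℝ) / 3) * (36 * A * H) := mul_le_mul_of_nonneg_left k1 hn3.le
        _ = _ := by ring
    · refine le_trans ?_ (le_max_right _ _)
      calc (n : ℝ) ^ ((1 : ℝ) / 3) * H ≤ (n : ℝ) ^ ((1 : ℝ) / 3) * (36 * A * D) :=
            mul_le_mul_of_nonneg_left k2 hn3.le
        _ = 36 * A * ((n : ℝ) ^ ((1 : ℝ) / 3) * D) := by ring
        _ ≤ _ := mul_le_mul_of_nonneg_left h4 (by positivity)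

end H973
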