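import Mathlib

/-!
Algebra behind the parafermionic observable of critical bond percolation:
`2 × 2` matrices with a quantum trace, a skew derivation, and two growth operators.
-/

namespace H973

open Matrix

abbrev M := Matrix (Fin 2) (Fin 2) ℂ

/-- A primitive sixth root of unity. -/
noncomputable def q : ℂ := ⟨1 / 2, Real.sqrt 3 / 2⟩

theorem q_sq : q ^ 2 = q - 1 := by
  have h3 : Real.sqrt 3 * Real.sqrt 3 = 3 := Real.mul_self_sqrt (by norm_num)
  apply Complex.ext
  · simp [q, pow_two]
    nlinarith [h3]
  · simp [q, pow_two]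
    ring

theorem q_mul : q * q = q - 1 := by rw [← pow_two, q_sq]

theorem q_im : q.im = Real.sqrt 3 / 2 := rfl

theorem q_im_ne : q.im ≠ 0 := by
  rw [q_im]
  have : (0:ℝ) < Real.sqrt 3 := Real.sqrt_pos.mpr (by norm_num)
  positivity

noncomputable def K : M := !![q, 0; 0, 1 - q]
noncomputable def Ki : M := !![1 - q, 0; 0, q]
noncomputable def E : M := !![0, 1; 0, 0]

/-- Matrix units. -/
noncomputable def U (i j : Fin 2) : M := Matrix.single i j 1

/-- The quantum trace. -/
noncomputable def tq (X : M) : ℂ := q * X 0 0 + (1 - q) * X 1 1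

/-- The skew derivation. -/
noncomputable def dl (X : M) : M := E * X - K * X * E

theorem K_mul_Ki : K * Ki = 1 := by
  ext i j
  fin_cases i <;> fin_cases j <;>
    simp [K, Ki, Matrix.mul_apply, Fin.sum_univ_two] <;> linear_combination (-1) * q_sq

theorem Ki_mul_K : Ki * K = 1 := by
  ext i j
  fin_cases i <;> fin_cases j <;>
    simp [K, Ki, Matrix.mul_apply, Fin.sum_univ_two] <;> linear_combination (-1) * q_sq

theorem tq_one : tq 1 = 1 := by simp [tq]

theorem tq_add (X Y : M) : tq (X + Y) = tq X + tq Y := by simp [tq]; ring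

theorem tq_smul (c : ℂ) (X : M) : tq (c • X) = c * tq X := by simp [tq]; ring

theorem tq_conj (X : M) : tq (K * X * Ki) = tq X := by
  simp only [tq, K, Ki, Matrix.mul_apply, Fin.sum_univ_two]
  simp
  linear_combination (-(q * X 0 0) - (1 - q) * X 1 1) * q_sq

end H973
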