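import Pool.Agent.H973R2.Long

/-!
One-arm events in finite sets of vertices.
-/

namespace H973

open H974 Finset

/-- The square box of radius `n` around `c`. -/
noncomputable def BX (c : Vtx) (n : ℤ) : Finset Vtx :=
  Finset.Icc (c.1 - n) (c.1 + n) ×ˢ Finset.Icc (c.2 - n) (c.2 + n)

theorem mem_BX {c : Vtx} {n : ℤ} {y : Vtx} : y ∈ BX c n ↔
    (c.1 - n ≤ y.1 ∧ y.1 ≤ c.1 + n) ∧ (c.2 - n ≤ y.2 ∧ y.2 ≤ c.2 + n) := by
  unfold BX
  rw [Finset.mem_product, Finset.mem_Icc, Finset.mem_Icc]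

/-- `y` is on the boundary of the box of radius `n` around `c`. -/
def onBX (c : Vtx) (n : ℤ) (y : Vtx) : Prop :=
  y.1 = c.1 - n ∨ y.1 = c.1 + n ∨ y.2 = c.2 - n ∨ y.2 = c.2 + n

/-- The arm event: `c` is connected by `F` to a vertex of `T` at distance `n`. -/
def armC (T : Finset Vtx) (c : Vtx) (n : ℤ) (F : Finset Edg) : Prop :=
  ∃ y ∈ T, onBX c n y ∧ Reach (F : Set Edg) c y

theorem armC.mono {T T' : Finset Vtx} (hT : T ⊆ T') {c : Vtx} {n : ℤ} {F G : Finset Edg}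
    (h : F ⊆ G) (hF : armC T c n F) : armC T' c n G := by
  obtain ⟨y, h1, h2, h3⟩ := hF
  exact ⟨y, hT h1, h2, h3.mono (by exact_mod_cast h)⟩

theorem armC_incr (S : Finset Edg) (T : Finset Vtx) (c : Vtx) (n : ℤ) : IncrE S (armC T c n) :=
  fun _ _ h _ hF => hF.mono (Finset.Subset.refl _) h

/-- The one-arm probability from the origin inside `T`. -/
noncomputable def armP (T : Finset Vtx) (n : ℤ) : ℝ :=
  Pr (fun _ => (1/2 : ℝ)) (ES T) (armC T (0, 0) n)

theorem armP_nonneg (T : Finset Vtx) (n : ℤ) : 0 ≤ armP T n := Pr_nonneg okhalf _ _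
theorem armP_le_one (T : Finset Vtx) (n : ℤ) : armP T n ≤ 1 := Pr_le_one okhalf _ _

theorem reach_mem {T : Finset Vtx} {F : Set Edg} (hF : ∀ e ∈ F, e ∈ ES T) {u v : Vtx}
    (hu : u ∈ T) (h : Reach F u v) : v ∈ T := by
  induction h with
  | refl => exact hu
  | tail _ hs _ =>
    obtain ⟨e, he, hc⟩ := hs
    have := mem_ES.mp (hF e he)
    rcases hc with ⟨h1, h2⟩ | ⟨h1, h2⟩
    · rw [← h2]; exact this.2
    · rw [← h1]; exact this.1

theorem mem_RE_ends {a b c d : ℤ} {e : Edg} (he : e ∈ RE a b c d) :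
    inR a b c d (src e) ∧ inR a b c d (tgt e) := by
  obtain ⟨x, y, _ | _⟩ := e
  · rw [mem_RE_false] at he
    simp only [src_mk, tgt_false, inR]
    omega
  · rw [mem_RE_true] at he
    simp only [src_mk, tgt_true, inR]
    omega

theorem mem_RE_of_ends {a b c d : ℤ} {e : Edg} (h1 : inR a b c d (src e))
    (h2 : inR a b c d (tgt e)) : e ∈ RE a b c d := by
  obtain ⟨x, y, _ | _⟩ := e
  · rw [mem_RE_false]
    simp only [src_mk, tgt_false, inR] at h1 h2
    omega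
  · rw [mem_RE_true]
    simp only [src_mk, tgt_true, inR] at h1 h2
    omega

/-- A path inside `T` which leaves a box visits the boundary of the box, inside the box. -/
theorem arm_exit {T : Finset Vtx} {F : Finset Edg} (hF : F ⊆ ES T) {c u v : Vtx} {n : ℤ}
    (hu : u ∈ T) (hub : u ∈ BX c n) (h : Reach (F : Set Edg) u v)
    (hv : v.1 ≤ c.1 - n ∨ c.1 + n ≤ v.1 ∨ v.2 ≤ c.2 - n ∨ c.2 + n ≤ v.2) :
    ∃ y ∈ T ∩ BX c n, onBX c n y ∧ Reach (↑(F ∩ ES (T ∩ BX c n)) : Set Edg) u y := by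
  rw [mem_BX] at hub
  obtain ⟨w, h1, h2, h3⟩ := first_exit (a := c.1 - n) (b := c.1 + n) (c := c.2 - n)
    (d := c.2 + n) hub h hv
  have h4 : (F : Set Edg) ∩ ↑(RE (c.1 - n) (c.1 + n) (c.2 - n) (c.2 + n)) ⊆
      (↑(F ∩ ES (T ∩ BX c n)) : Set Edg) := by
    rintro e ⟨he1, he2⟩
    rw [Finset.mem_coe] at he1 he2 ⊢
    rw [Finset.mem_inter, mem_ES, Finset.mem_inter, Finset.mem_inter, mem_BX, mem_BX]
    have h5 := mem_ES.mp (hF he1)
    have h6 := mem_RE_ends he2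
    exact ⟨he1, ⟨h5.1, h6.1⟩, ⟨h5.2, h6.2⟩⟩
  have hw : w ∈ T := reach_mem (F := (F : Set Edg)) (fun e he => hF (Finset.mem_coe.mp he)) hu
    (h3.mono Set.inter_subset_left)
  exact ⟨w, Finset.mem_inter.mpr ⟨hw, mem_BX.mpr h1⟩, h2, h3.mono h4⟩

/-- Probability of an event which only looks at the edges of `S'`. -/
theorem Pr_restrict {S S' : Finset Edg} (hS : S' ⊆ S) (A : Finset Edg → Prop) :
    Pr (fun _ => (1/2 : ℝ)) S (fun F => A (F ∩ S')) = Pr (fun _ => (1/2 : ℝ)) S' A := by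
  rw [Pr_local hS (A := fun F => A (F ∩ S'))]
  · apply Pr_congr
    intro F hF
    rw [Finset.inter_eq_left.mpr hF]
  · intro F _
    rw [Finset.inter_assoc, Finset.inter_self]

/-- Independence. -/
theorem Pr_indep' {U S T : Finset Edg} (hS : S ⊆ U) (hT : T ⊆ U) (hd : Disjoint S T)
    (A B : Finset Edg → Prop) :
    Pr (fun _ => (1/2 : ℝ)) U (fun F => A (F ∩ S) ∧ B (F ∩ T)) =
      Pr (fun _ => (1/2 : ℝ)) S A * Pr (fun _ => (1/2 : ℝ)) T B := by
  rw [Pr_indep hS hT hd (A := fun F => A (F ∩ S)) (B := fun F => B (F ∩ T)), Pr_restrict hS,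
    Pr_restrict hT]
  · intro F _
    rw [Finset.inter_assoc, Finset.inter_self]
  · intro F _
    rw [Finset.inter_assoc, Finset.inter_self]

/-- Translation of a set of vertices. -/
def shift (x : Vtx) (T : Finset Vtx) : Finset Vtx := LSymV (trl x.1 x.2) T

theorem mem_shift {x : Vtx} {T : Finset Vtx} {y : Vtx} :
    y ∈ shift x T ↔ (y.1 - x.1, y.2 - x.2) ∈ T := by
  unfold shift
  rw [mem_LSymV]
  rfl

theorem arm_shift (x : Vtx) (T : Finset Vtx) (n : ℤ) :
    Pr (fun _ => (1/2 : ℝ)) (ES (shift x T)) (armC (shift x T) x n) = armP T n := by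
  unfold shift
  rw [← ES_mp, LSym.pr]
  unfold armP
  apply Pr_congr
  intro F _
  have hr : ∀ y : Vtx, Reach (↑((trl x.1 x.2).mp F) : Set Edg) x (y.1 + x.1, y.2 + x.2) ↔
      Reach (F : Set Edg) (0, 0) y := by
    intro y
    rw [LSym.coe_mp]
    have h := (trl x.1 x.2).reach_iff (F := (F : Set Edg)) (u := (0, 0)) (v := y)
    rw [← h]
    have e1 : (trl x.1 x.2).ψ (0, 0) = x := by
      rw [trl_ψ]; simp
    have e2 : (trl x.1 x.2).ψ y = (y.1 + x.1, y.2 + x.2) := rfl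
    rw [e1, e2]
  constructor
  · rintro ⟨y, h1, h2, h3⟩
    refine ⟨(y.1 - x.1, y.2 - x.2), mem_shift.mp h1, ?_, ?_⟩
    · unfold onBX at h2 ⊢
      simp only
      omega
    · rw [← hr]
      simp only [sub_add_cancel]
      exact h3
  · rintro ⟨y, h1, h2, h3⟩
    refine ⟨(y.1 + x.1, y.2 + x.2), ?_, ?_, (hr y).mpr h3⟩
    · apply mem_shift.mpr
      simp only [add_sub_cancel_right]
      exact h1
    · unfold onBX at h2 ⊢
      simp only at h2 ⊢
      omega

end H973
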