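import Pool.Agent.H973R2.Arm1

/-!
Lower bound for the product of the quarter-plane and half-plane one-arm probabilities.
-/

namespace H973

open H974 Finset

/-- The square `[0, n]²`. -/
noncomputable def QT (n : ℤ) : Finset Vtx := Finset.Icc 0 n ×ˢ Finset.Icc 0 n

theorem mem_QT {n : ℤ} {y : Vtx} : y ∈ QT n ↔ (0 ≤ y.1 ∧ y.1 ≤ n) ∧ (0 ≤ y.2 ∧ y.2 ≤ n) := by
  unfold QT
  rw [Finset.mem_product, Finset.mem_Icc, Finset.mem_Icc]

open Classical in
/-- The half-plane `a x + b y ≤ 0` in the box of radius `n`. -/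
noncomputable def HB (a b : ℝ) (n : ℤ) : Finset Vtx :=
  (BX (0, 0) n).filter (fun y => a * (y.1 : ℝ) + b * (y.2 : ℝ) ≤ 0)

theorem mem_HB {a b : ℝ} {n : ℤ} {y : Vtx} : y ∈ HB a b n ↔
    ((-n ≤ y.1 ∧ y.1 ≤ n) ∧ (-n ≤ y.2 ∧ y.2 ≤ n)) ∧ a * (y.1 : ℝ) + b * (y.2 : ℝ) ≤ 0 := by
  unfold HB
  rw [Finset.mem_filter, mem_BX]
  simp only [zero_sub, zero_add]

open Classical in
/-- The part of the square `[0, R]²` below the line `a x + b y = a R`. -/
noncomputable def SR (a b : ℝ) (R : ℤ) : Finset Vtx :=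
  (QT R).filter (fun y => a * (y.1 : ℝ) + b * (y.2 : ℝ) ≤ a * (R : ℝ))

theorem mem_SR {a b : ℝ} {R : ℤ} {y : Vtx} : y ∈ SR a b R ↔
    ((0 ≤ y.1 ∧ y.1 ≤ R) ∧ (0 ≤ y.2 ∧ y.2 ≤ R)) ∧
      a * (y.1 : ℝ) + b * (y.2 : ℝ) ≤ a * (R : ℝ) := by
  unfold SR
  rw [Finset.mem_filter, mem_QT]

theorem young_QT {R : ℤ} (hR : 0 ≤ R) : Young (QT R) := by
  constructor
  · intro x hx
    rw [mem_QT] at hx
    omega
  · intro x hx y h1 h2 h3 h4
    rw [mem_QT] at hx ⊢
    omega
  · rw [mem_QT]; simp only; omega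

theorem young_SR {a b : ℝ} (ha : 0 ≤ a) (hb : 0 ≤ b) {R : ℤ} (hR : 0 ≤ R) : Young (SR a b R) := by
  constructor
  · intro x hx
    rw [mem_SR] at hx
    omega
  · intro x hx y h1 h2 h3 h4
    rw [mem_SR] at hx ⊢
    refine ⟨by omega, le_trans ?_ hx.2⟩
    have e1 : (y.1 : ℝ) ≤ x.1 := by exact_mod_cast h3
    have e2 : (y.2 : ℝ) ≤ x.2 := by exact_mod_cast h4
    exact add_le_add (mul_le_mul_of_nonneg_left e1 ha) (mul_le_mul_of_nonneg_left e2 hb)
  · rw [mem_SR]
    simp only [Int.cast_zero, mul_zero, add_zero]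
    refine ⟨by omega, mul_nonneg ha (by exact_mod_cast hR)⟩

theorem PS_swap (R : ℤ) (x : Vtx) : PS (QT R) (x.2, x.1) = PS (QT R) x := by
  have h1 : LSymV tps (QT R) = QT R := by
    ext y
    rw [mem_LSymV, mem_QT, mem_QT]
    have : tps.ψ.symm y = (y.2, y.1) := rfl
    rw [this]
    exact and_comm
  unfold PS
  conv_lhs => rw [← h1, ← ES_mp, LSym.pr]
  apply Pr_congr
  intro F _
  rw [LSym.coe_mp]
  have h := tps.reach_iff (F := (F : Set Edg)) (u := (0, 0)) (v := x)
  exact h

theorem square_top {R : ℤ} (hR : 0 ≤ R) :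
    ∑ x ∈ (QT R).filter (fun x => x.2 = R), PS (QT R) x = 1 := by
  obtain ⟨h1, _⟩ := young_identity (young_QT hR)
  have e1 : (QT R).filter (fun x => (x.1, x.2 + 1) ∉ QT R) = (QT R).filter (fun x => x.2 = R) := by
    apply Finset.filter_congr
    intro x hx
    rw [mem_QT] at hx ⊢
    simp only
    constructor
    · intro h; by_contra hc; apply h; omega
    · intro h; omega
  have e2 : (QT R).filter (fun x => (x.1 + 1, x.2) ∉ QT R) = (QT R).filter (fun x => x.1 = R) := by
    apply Finset.filter_congr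
    intro x hx
    rw [mem_QT] at hx ⊢
    simp only
    constructor
    · intro h; by_contra hc; apply h; omega
    · intro h; omega
  rw [e1, e2] at h1
  have e3 : ∑ x ∈ (QT R).filter (fun x => x.1 = R), PS (QT R) x =
      ∑ x ∈ (QT R).filter (fun x => x.2 = R), PS (QT R) x := by
    refine Finset.sum_nbij' (fun x => (x.2, x.1)) (fun x => (x.2, x.1)) ?_ ?_ ?_ ?_ ?_
    · intro x hx
      rw [Finset.mem_filter, mem_QT] at hx ⊢
      simp only
      omega
    · intro x hx
      rw [Finset.mem_filter, mem_QT] at hx ⊢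
      simp only
      omega
    · intro x _; rfl
    · intro x _; rfl
    · intro x _
      exact (PS_swap R x).symm
  rw [e3] at h1
  linarith

/-- The one-arm probability is at least half of the probability of an arm started one step
inside the half-plane. -/
theorem half_offset {a b : ℝ} (ha : 0 ≤ a) {n : ℤ} (hn : 1 ≤ n)
    {T : Finset Vtx} {x : Vtx} (hxT : x ∈ T)
    (hT : ∀ y ∈ T, y ∈ BX x (n + 1) ∧
      a * ((y.1 : ℝ) - x.1 - 1) + b * ((y.2 : ℝ) - x.2) ≤ 0) :
    Pr (fun _ => (1/2 : ℝ)) (ES T) (armC T x (n + 1)) ≤ 2 * armP (HB a b n) n := by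
  set x' : Vtx := (x.1 + 1, x.2) with hx'
  set T3 : Finset Vtx := shift x' (HB a b (n + 2)) with hT3
  have hsub : T ⊆ T3 := by
    intro y hy
    obtain ⟨h1, h2⟩ := hT y hy
    rw [mem_BX] at h1
    rw [hT3, mem_shift, mem_HB]
    simp only [hx']
    refine ⟨by omega, ?_⟩
    push_cast
    linarith
  have hx'T3 : x' ∈ T3 := by
    rw [hT3, mem_shift, mem_HB]
    simp only [sub_self, Int.cast_zero, mul_zero, add_zero, le_refl, and_true]
    omega
  set e0 : Edg := (x.1, x.2, true) with he0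
  have he0T : e0 ∈ ES T3 := by
    rw [mem_ES]
    exact ⟨hsub hxT, by simpa [he0, hx'] using hx'T3⟩
  -- Harris
  have i1 := Pr_harris okhalf (S := ES T3) (A := fun F => e0 ∈ F) (B := armC T x (n + 1))
    (fun F G h _ hF => h hF) (armC_incr _ _ _ _)
  have i2 : Pr (fun _ => (1/2 : ℝ)) (ES T3) (fun F => e0 ∈ F) = 1/2 := by
    have hs : ({e0} : Finset Edg) ⊆ ES T3 := by simpa using he0T
    have := Pr_restrict hs (fun F => e0 ∈ F)
    have e1 : Pr (fun _ => (1/2 : ℝ)) (ES T3) (fun F => e0 ∈ F ∩ {e0}) =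
        Pr (fun _ => (1/2 : ℝ)) (ES T3) (fun F => e0 ∈ F) := by
      apply Pr_congr
      intro F _
      simp
    rw [← e1, this]
    unfold Pr
    rw [← insert_empty_eq e0, Ex_insert _ (Finset.notMem_empty _), Ex_empty, Ex_empty]
    simp only [Finset.insert_empty, Finset.mem_singleton, Finset.notMem_empty]
    rw [ind_of trivial, ind_not_of (fun h => h)]
    norm_num
  rw [i2] at i1
  have i3 := Pr_mono_set okhalf (ES_mono hsub) (armC_incr (ES T3) T x (n + 1))
  -- exit
  set T4 : Finset Vtx := T3 ∩ BX x' n with hT4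
  have hT4' : T4 = shift x' (HB a b n) := by
    ext y
    rw [hT4, Finset.mem_inter, hT3, mem_shift, mem_shift, mem_HB, mem_HB, mem_BX]
    simp only
    constructor
    · rintro ⟨⟨_, h2⟩, h3⟩
      exact ⟨by omega, h2⟩
    · rintro ⟨h1, h2⟩
      exact ⟨⟨by omega, h2⟩, by omega⟩
  have i4 : Pr (fun _ => (1/2 : ℝ)) (ES T3) (fun F => e0 ∈ F ∧ armC T x (n + 1) F) ≤
      Pr (fun _ => (1/2 : ℝ)) (ES T3) (fun F => armC T4 x' n (F ∩ ES T4)) := by
    apply Pr_mono okhalf
    rintro F hF ⟨h1, y, hy, h2, h3⟩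
    have h4 : Reach (F : Set Edg) x' y := by
      refine Reach.trans (Adj.reach ⟨e0, h1, Or.inr ⟨rfl, ?_⟩⟩) h3
      simp [he0, hx']
    have h5 := arm_exit hF (c := x') (n := n) hx'T3 (by rw [mem_BX]; omega) h4
      (by unfold onBX at h2; simp only [hx']; omega)
    exact h5
  have i5 : Pr (fun _ => (1/2 : ℝ)) (ES T3) (fun F => armC T4 x' n (F ∩ ES T4)) =
      armP (HB a b n) n := by
    have e1 : Pr (fun _ => (1/2 : ℝ)) (ES T3) (fun F => armC T4 x' n (F ∩ ES T4)) =
        Pr (fun _ => (1/2 : ℝ)) (ES T4) (armC T4 x' n) :=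
      Pr_restrict (ES_mono (Finset.inter_subset_left : T4 ⊆ T3)) (armC T4 x' n)
    rw [e1, hT4']
    exact arm_shift _ _ _
  rw [i5] at i4
  linarith

/-- Upper bound for the connection probability to a boundary vertex of the slanted side. -/
theorem leg_upper {a b : ℝ} (ha : 0 < a) (hb : 0 ≤ b) (hab : b ≤ a) {n : ℤ} (hn : 1 ≤ n)
    {x : Vtx} (hx : x ∈ SR a b (4 * n + 4))
    (hx' : a * ((4 * n + 4 : ℤ) : ℝ) < a * ((x.1 : ℝ) + 1) + b * x.2) :
    PS (SR a b (4 * n + 4)) x ≤ armP (QT n) n * (2 * armP (HB a b n) n) := by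
  set S := SR a b (4 * n + 4) with hS
  have hxm := mem_SR.mp hx
  -- x is far from the origin
  have hfar : 4 * n + 4 ≤ x.1 + x.2 := by
    have h1 : b * (x.2 : ℝ) ≤ a * (x.2 : ℝ) :=
      mul_le_mul_of_nonneg_right hab (by exact_mod_cast hxm.1.2.1)
    have h2 : a * ((4 * n + 4 : ℤ) : ℝ) < a * ((x.1 : ℝ) + 1 + x.2) := by linarith
    have h3 := lt_of_mul_lt_mul_left h2 ha.le
    have h4 : ((4 * n + 4 : ℤ) : ℝ) < ((x.1 + 1 + x.2 : ℤ) : ℝ) := by push_cast at h3 ⊢; exact h3
    have h5 : 4 * n + 4 < x.1 + 1 + x.2 := by exact_mod_cast h4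
    omega
  set T2 : Finset Vtx := S ∩ BX x (n + 1) with hT2
  have hQS : QT n ⊆ S := by
    intro y hy
    rw [mem_QT] at hy
    rw [hS, mem_SR]
    refine ⟨by omega, ?_⟩
    have e1 : (y.1 : ℝ) ≤ n := by exact_mod_cast hy.1.2
    have e2 : (y.2 : ℝ) ≤ n := by exact_mod_cast hy.2.2
    have e3 : (0 : ℝ) ≤ y.2 := by exact_mod_cast hy.2.1
    have e4 : b * (y.2 : ℝ) ≤ a * y.2 := mul_le_mul_of_nonneg_right hab e3
    have e5 : (1 : ℝ) ≤ n := by exact_mod_cast hn
    have e6 : a * (y.1 : ℝ) + a * y.2 ≤ a * ((4 * n + 4 : ℤ) : ℝ) := by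
      rw [← mul_add]
      apply mul_le_mul_of_nonneg_left _ ha.le
      push_cast
      linarith
    linarith
  have hd : Disjoint (ES (QT n)) (ES T2) := by
    rw [Finset.disjoint_left]
    intro e h1 h2
    have h3 := (mem_ES.mp h1).1
    have h4 := (mem_ES.mp h2).1
    rw [mem_QT] at h3
    rw [hT2, Finset.mem_inter, mem_BX] at h4
    omega
  have i1 : PS S x ≤ Pr (fun _ => (1/2 : ℝ)) (ES S)
      (fun F => armC (QT n) (0, 0) n (F ∩ ES (QT n)) ∧ armC T2 x (n + 1) (F ∩ ES T2)) := by
    unfold PS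
    apply Pr_mono okhalf
    intro F hF h
    constructor
    · have hz : ((0, 0) : Vtx) ∈ S := hQS (by rw [mem_QT]; simp only; omega)
      have h5 := arm_exit hF (c := (0, 0)) (n := n) hz (by rw [mem_BX]; simp only; omega) h
        (by simp only; omega)
      have h6 : S ∩ BX (0, 0) n = QT n := by
        ext y
        rw [Finset.mem_inter, mem_BX, mem_QT]
        constructor
        · rintro ⟨h7, h8⟩
          have := (mem_SR.mp h7).1
          simp only at h8
          omega
        · intro h7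
          refine ⟨hQS (mem_QT.mpr h7), ?_⟩
          simp only
          omega
      rw [h6] at h5
      exact h5
    · exact arm_exit hF (c := x) (n := n + 1) hx (by rw [mem_BX]; omega) h.symm
        (by simp only; omega)
  have i2 := Pr_indep' (ES_mono hQS) (ES_mono (Finset.inter_subset_left : T2 ⊆ S)) hd
    (armC (QT n) (0, 0) n) (armC T2 x (n + 1))
  rw [i2] at i1
  have i3 : Pr (fun _ => (1/2 : ℝ)) (ES T2) (armC T2 x (n + 1)) ≤ 2 * armP (HB a b n) n := by
    have hxT2 : x ∈ T2 := Finset.mem_inter.mpr ⟨hx, by rw [mem_BX]; omega⟩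
    refine half_offset ha.le hn hxT2 ?_
    intro y hy
    replace hy : y ∈ S ∩ BX x (n + 1) := hy
    rw [Finset.mem_inter] at hy
    refine ⟨hy.2, ?_⟩
    have := (mem_SR.mp hy.1).2
    linarith
  exact i1.trans (mul_le_mul_of_nonneg_left i3 (armP_nonneg _ _))

theorem lower_dir {a b : ℝ} (ha : 0 < a) (hb : 0 ≤ b) (hab : b ≤ a) {n : ℤ} (hn : 1 ≤ n) :
    1 ≤ 36 * (n : ℝ) * (armP (QT n) n * armP (HB a b n) n) := by
  set R : ℤ := 4 * n + 4 with hR
  have hRr : (R : ℝ) = 4 * n + 4 := by rw [hR]; push_cast; ring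
  set S := SR a b R with hS
  have hY : Young S := young_SR ha.le hb (by omega)
  obtain ⟨h1, _⟩ := young_identity hY
  set B : ℝ := armP (QT n) n * (2 * armP (HB a b n) n) with hB
  have hB0 : 0 ≤ B := mul_nonneg (armP_nonneg _ _) (mul_nonneg (by norm_num) (armP_nonneg _ _))
  -- east legs
  have hE : ∑ x ∈ S.filter (fun x => (x.1 + 1, x.2) ∉ S), PS S x ≤ (R + 1 : ℝ) * B := by
    have hc : (S.filter (fun x => (x.1 + 1, x.2) ∉ S)).card ≤ (Finset.Icc 0 R).card := by
      apply Finset.card_le_card_of_injOn (fun x => x.2)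
      · intro x hx
        rw [Finset.mem_coe, Finset.mem_filter] at hx
        have := (mem_SR.mp hx.1).1
        simp only [Finset.coe_Icc, Set.mem_Icc]
        omega
      · intro x hx y hy hxy
        rw [Finset.mem_coe, Finset.mem_filter] at hx hy
        simp only at hxy
        have hx0 := hY.nn x hx.1
        have hy0 := hY.nn y hy.1
        rcases lt_trichotomy x.1 y.1 with h | h | h
        · exact absurd (hY.dc y hy.1 (x.1 + 1, x.2) (by simp only; omega) (by simp only; omega)
            (by simp only; omega) (by simp only; omega)) hx.2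
        · exact Prod.ext h hxy
        · exact absurd (hY.dc x hx.1 (y.1 + 1, y.2) (by simp only; omega) (by simp only; omega)
            (by simp only; omega) (by simp only; omega)) hy.2
    have hs : ∑ x ∈ S.filter (fun x => (x.1 + 1, x.2) ∉ S), PS S x ≤
        ∑ _x ∈ S.filter (fun x => (x.1 + 1, x.2) ∉ S), B := by
      apply Finset.sum_le_sum
      intro x hx
      rw [Finset.mem_filter] at hx
      apply leg_upper ha hb hab hn hx.1
      have hm := mem_SR.mp hx.1
      have hn' := hx.2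
      rw [hS, mem_SR] at hn'
      simp only at hn'
      by_contra hc
      push Not at hc
      have hx2 : (0:ℝ) ≤ x.2 := by exact_mod_cast hm.1.2.1
      have h2 : a * ((x.1 : ℝ) + 1) ≤ a * ((4 * n + 4 : ℤ) : ℝ) := by
        have := mul_nonneg hb hx2
        linarith
      have h3 : (x.1 : ℝ) + 1 ≤ ((4 * n + 4 : ℤ) : ℝ) := le_of_mul_le_mul_left h2 ha
      have h4 : x.1 + 1 ≤ 4 * n + 4 := by exact_mod_cast h3
      apply hn'
      refine ⟨by omega, ?_⟩
      push_cast at hc ⊢
      rw [hRr]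
      exact hc
    rw [Finset.sum_const, nsmul_eq_mul] at hs
    refine hs.trans (mul_le_mul_of_nonneg_right ?_ hB0)
    rw [Int.card_Icc] at hc
    have h5 : ((S.filter (fun x => (x.1 + 1, x.2) ∉ S)).card : ℤ) ≤ R + 1 := by
      have : ((R + 1 - 0).toNat : ℤ) = R + 1 := by omega
      rw [← this]
      exact_mod_cast hc
    exact_mod_cast h5
  -- north legs
  have hN : ∑ x ∈ S.filter (fun x => (x.1, x.2 + 1) ∉ S), PS S x ≤ 1 + (R + 1 : ℝ) * B := by
    have hc : (S.filter (fun x => (x.1, x.2 + 1) ∉ S)).card ≤ (Finset.Icc 0 R).card := by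
      apply Finset.card_le_card_of_injOn (fun x => x.1)
      · intro x hx
        rw [Finset.mem_coe, Finset.mem_filter] at hx
        have := (mem_SR.mp hx.1).1
        simp only [Finset.coe_Icc, Set.mem_Icc]
        omega
      · intro x hx y hy hxy
        rw [Finset.mem_coe, Finset.mem_filter] at hx hy
        simp only at hxy
        have hx0 := hY.nn x hx.1
        have hy0 := hY.nn y hy.1
        rcases lt_trichotomy x.2 y.2 with h | h | h
        · exact absurd (hY.dc y hy.1 (x.1, x.2 + 1) (by simp only; omega) (by simp only; omega)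
            (by simp only; omega) (by simp only; omega)) hx.2
        · exact Prod.ext hxy h
        · exact absurd (hY.dc x hx.1 (y.1, y.2 + 1) (by simp only; omega) (by simp only; omega)
            (by simp only; omega) (by simp only; omega)) hy.2
    rw [← Finset.sum_filter_add_sum_filter_not _ (fun x => x.2 = R)]
    have t1 : ∑ x ∈ (S.filter (fun x => (x.1, x.2 + 1) ∉ S)).filter (fun x => x.2 = R), PS S x ≤
        1 := by
      rw [← square_top (show 0 ≤ R by omega)]
      refine le_trans (Finset.sum_le_sum (g := fun x => PS (QT R) x) ?_) ?_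
      · intro x _
        unfold PS
        apply Pr_mono_set okhalf _ (reach_incr _ _ _)
        apply ES_mono
        intro y hy
        exact mem_QT.mpr (mem_SR.mp hy).1
      · apply Finset.sum_le_sum_of_subset_of_nonneg
        · intro x hx
          rw [Finset.mem_filter, Finset.mem_filter] at hx
          rw [Finset.mem_filter]
          exact ⟨mem_QT.mpr (mem_SR.mp hx.1.1).1, hx.2⟩
        · intro x _ _
          exact Pr_nonneg okhalf _ _
    have t2 : ∑ x ∈ (S.filter (fun x => (x.1, x.2 + 1) ∉ S)).filter (fun x => ¬ x.2 = R),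
        PS S x ≤ (R + 1 : ℝ) * B := by
      have hs : ∑ x ∈ (S.filter (fun x => (x.1, x.2 + 1) ∉ S)).filter (fun x => ¬ x.2 = R),
          PS S x ≤ ∑ _x ∈ (S.filter (fun x => (x.1, x.2 + 1) ∉ S)).filter
            (fun x => ¬ x.2 = R), B := by
        apply Finset.sum_le_sum
        intro x hx
        rw [Finset.mem_filter, Finset.mem_filter] at hx
        apply leg_upper ha hb hab hn hx.1.1
        have hm := mem_SR.mp hx.1.1
        have hn' := hx.1.2
        rw [hS, mem_SR] at hn'
        simp only at hn'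
        by_contra hc
        push Not at hc
        apply hn'
        refine ⟨by omega, ?_⟩
        push_cast at hc ⊢
        rw [hRr]
        linarith
      rw [Finset.sum_const, nsmul_eq_mul] at hs
      refine hs.trans (mul_le_mul_of_nonneg_right ?_ hB0)
      rw [Int.card_Icc] at hc
      have h5 : (((S.filter (fun x => (x.1, x.2 + 1) ∉ S)).filter
          (fun x => ¬ x.2 = R)).card : ℤ) ≤ R + 1 := by
        have : ((R + 1 - 0).toNat : ℤ) = R + 1 := by omega
        rw [← this]
        exact_mod_cast (Finset.card_filter_le _ _).trans hc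
      exact_mod_cast h5
    linarith
  have h6 : (1 : ℝ) ≤ 2 * (R + 1 : ℝ) * B := by linarith
  have h7 : (R : ℝ) = 4 * n + 4 := by rw [hR]; push_cast; ring
  have h8 : (1 : ℝ) ≤ n := by exact_mod_cast hn
  rw [h7, hB] at h6
  have h9 : 0 ≤ armP (QT n) n * armP (HB a b n) n := mul_nonneg (armP_nonneg _ _) (armP_nonneg _ _)
  nlinarith [mul_nonneg (sub_nonneg.mpr h8) h9]

end H973
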