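import Pool.Agent.H973R2.Arm2

/-!
Planar topology near the boundary of a Young diagram.
-/

namespace H973

open H974 Finset

/-- Edges with both endpoints satisfying `V`. -/
def EV (V : Vtx → Prop) : Set Edg := {e | V (src e) ∧ V (tgt e)}

/-- Vertex-disjoint paths cannot cross a rectangle in both directions. -/
theorem no_cross {a b c d : ℤ} (hab : a < b) (hcd : c < d) {V V' : Vtx → Prop}
    (hdis : ∀ w, V w → V' w → False) {u v u' v' : Vtx}
    (h1 : Reach (EV V ∩ ↑(RE a b c d)) u v) (hu : u.1 ≤ a) (hv : b ≤ v.1) (hVu : V u)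
    (h2 : Reach (EV V' ∩ ↑(RE a b c d)) u' v') (hu' : u'.2 ≤ c) (hv' : d ≤ v'.2)
    (hVu' : V' u') : False := by
  have h3 : Reach ((EV V ∪ EV V') ∩ ↑(RE a b c d)) u u' :=
    cross_meet (F := EV V ∪ EV V') le_rfl hab le_rfl le_rfl hcd le_rfl
      (h1.mono (Set.inter_subset_inter_left _ Set.subset_union_left)) hu hv
      (h2.mono (Set.inter_subset_inter_left _ Set.subset_union_right)) hu' hv'
  have key : ∀ w, Reach ((EV V ∪ EV V') ∩ ↑(RE a b c d)) u w → V w := by
    intro w hw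
    induction hw with
    | refl => exact hVu
    | @tail w w' _ hs ih =>
      obtain ⟨e, ⟨he, _⟩, hc⟩ := hs
      rcases he with he | he
      · rcases hc with ⟨_, h⟩ | ⟨h, _⟩
        · exact h ▸ he.2
        · exact h ▸ he.1
      · exfalso
        rcases hc with ⟨h, _⟩ | ⟨_, h⟩
        · exact hdis w ih (h ▸ he.1)
        · exact hdis w ih (h ▸ he.2)
  exact hdis u' (key u' h3) hVu'

/-- Horizontal segments. -/
theorem hline {V : Vtx → Prop} {a b c d s y : ℤ} (k : ℕ) (hs : a ≤ s) (hy : c ≤ y ∧ y ≤ d)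
    (hk : s + k ≤ b) (h : ∀ t, s ≤ t → t ≤ s + k → V (t, y)) :
    Reach (EV V ∩ ↑(RE a b c d)) (s, y) (s + k, y) := by
  induction k with
  | zero => simp only [Nat.cast_zero, add_zero]; exact Reach.refl _ _
  | succ k ih =>
    have h1 := ih (by push_cast at hk; omega) (fun t h1 h2 => h t h1 (by push_cast; omega))
    refine h1.trans (Adj.reach ⟨(s + k, y, true), ⟨⟨?_, ?_⟩, ?_⟩, Or.inl ⟨rfl, ?_⟩⟩)
    · exact h _ (by omega) (by push_cast; omega)
    · rw [tgt_true]
      exact h _ (by omega) (by push_cast; omega)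
    · rw [Finset.mem_coe, mem_RE_true]
      push_cast at hk
      omega
    · rw [tgt_true]; push_cast; rw [add_assoc]

theorem hline' {V : Vtx → Prop} {a b c d s t y : ℤ} (hst : s ≤ t) (hs : a ≤ s)
    (hy : c ≤ y ∧ y ≤ d) (ht : t ≤ b) (h : ∀ k, s ≤ k → k ≤ t → V (k, y)) :
    Reach (EV V ∩ ↑(RE a b c d)) (s, y) (t, y) := by
  obtain ⟨k, rfl⟩ : ∃ k : ℕ, t = s + k := ⟨(t - s).toNat, by omega⟩
  exact hline k hs hy ht h

/-- Vertical segments. -/
theorem vline {V : Vtx → Prop} {a b c d s x : ℤ} (k : ℕ) (hs : c ≤ s) (hx : a ≤ x ∧ x ≤ b)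
    (hk : s + k ≤ d) (h : ∀ t, s ≤ t → t ≤ s + k → V (x, t)) :
    Reach (EV V ∩ ↑(RE a b c d)) (x, s) (x, s + k) := by
  induction k with
  | zero => simp only [Nat.cast_zero, add_zero]; exact Reach.refl _ _
  | succ k ih =>
    have h1 := ih (by push_cast at hk; omega) (fun t h1 h2 => h t h1 (by push_cast; omega))
    refine h1.trans (Adj.reach ⟨(x, s + k, false), ⟨⟨?_, ?_⟩, ?_⟩, Or.inl ⟨rfl, ?_⟩⟩)
    · exact h (s + k) (by omega) (by push_cast; omega)
    · rw [tgt_false]
      exact h _ (by omega) (by push_cast; omega)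
    · simp only [Finset.mem_coe, mem_RE_false]
      push_cast at hk
      omega
    · rw [tgt_false]; push_cast; rw [add_assoc]

theorem vline' {V : Vtx → Prop} {a b c d s t x : ℤ} (hst : s ≤ t) (hs : c ≤ s)
    (hx : a ≤ x ∧ x ≤ b) (ht : t ≤ d) (h : ∀ k, s ≤ k → k ≤ t → V (x, k)) :
    Reach (EV V ∩ ↑(RE a b c d)) (x, s) (x, t) := by
  obtain ⟨k, rfl⟩ : ∃ k : ℕ, t = s + k := ⟨(t - s).toNat, by omega⟩
  exact vline k hs hx ht h

/-- A path all of whose vertices satisfy `V`. -/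
theorem reach_EV {F : Set Edg} {V : Vtx → Prop} {R : Set Edg} {u v : Vtx}
    (hV : ∀ w, Reach F u w → V w) (hR : ∀ e ∈ F, e ∈ R) (h : Reach F u v) :
    Reach (EV V ∩ R) u v := by
  have key : ∀ w, Reach F u w → Reach (EV V ∩ R) u w := by
    intro w hw
    induction hw with
    | refl => exact Reach.refl _ _
    | @tail w w' hw hs ih =>
      obtain ⟨e, he, hc⟩ := hs
      have hw' : Reach F u w' := Reach.trans hw (Adj.reach ⟨e, he, hc⟩)
      refine ih.trans (Adj.reach ⟨e, ⟨?_, hR e he⟩, hc⟩)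
      rcases hc with ⟨h1, h2⟩ | ⟨h1, h2⟩
      · exact ⟨h1 ▸ hV w hw, h2 ▸ hV w' hw'⟩
      · exact ⟨h1 ▸ hV w' hw', h2 ▸ hV w hw⟩
  exact key v h

/-- Local geometry of a Young diagram near a boundary vertex `(p, j)` of a side which is at
least as steep as the antidiagonal. -/
structure Steep (S : Finset Vtx) (p j n : ℤ) : Prop where
  young : Young S
  mem : ((p, j) : Vtx) ∈ S
  nmem : ((p + 1, j) : Vtx) ∉ S
  up : ∀ k, 0 ≤ k → k ≤ n → ((p - k, j + k) : Vtx) ∈ S
  down : ∀ k, 0 ≤ k → k ≤ j → ((p + 1 + k, j - k) : Vtx) ∉ S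
  hp : n ≤ p
  hj : n ≤ j
  hn : 0 ≤ n

theorem Young.up {S : Finset Vtx} (h : Young S) {x y : Vtx} (hx : x ∉ S) (h1 : x.1 ≤ y.1)
    (h2 : x.2 ≤ y.2) (h3 : 0 ≤ x.1) (h4 : 0 ≤ x.2) : y ∉ S :=
  fun hy => hx (h.dc y hy x h3 h4 h1 h2)

/-- `w` is a vertex of `S` with a neighbour outside `S` to its right or above it. -/
def Edge1 (S : Finset Vtx) (w : Vtx) : Prop :=
  w ∈ S ∧ ((w.1 + 1, w.2) ∉ S ∨ (w.1, w.2 + 1) ∉ S)

/-- **Topological lemma.** An arm from the boundary vertex `(p, j)` meets every path of `S` which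
joins two boundary vertices on both sides of it inside a smaller box. -/
theorem gamma_meet {S : Finset Vtx} {p j n r : ℤ} (hS : Steep S p j n) {F : Finset Edg}
    (hF : F ⊆ ES S) (hr0 : 0 < r) (hr : r + 2 ≤ n) {eU eW : Vtx} (hU : Edge1 S eU) (hW : Edge1 S eW)
    (hU2 : j < eU.2) (hW2 : eW.2 + 1 < j)
    (hUin : inR (p - r) (p + r + 1) (j - r) (j + r) eU)
    (hΓ : Reach ((F : Set Edg) ∩ ↑(RE (p - r) (p + r + 1) (j - r) (j + r))) eU eW)
    {z : Vtx} (hz : z ∈ S ∩ BX (p, j) n) (hz1 : onBX (p, j) n z)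
    (hA : Reach (↑(F ∩ ES (S ∩ BX (p, j) n)) : Set Edg) (p, j) z) :
    Reach (F : Set Edg) (p, j) eU := by
  by_contra hcon
  have hY := hS.young
  have hp := hS.hp
  have hj := hS.hj
  have hn := hS.hn
  -- the second path stays in the small box
  have hin : ∀ w, Reach ((F : Set Edg) ∩ ↑(RE (p - r) (p + r + 1) (j - r) (j + r))) eU w →
      inR (p - r) (p + r + 1) (j - r) (j + r) w ∧ w ∈ S := by
    intro w hw
    refine ⟨?_, reach_mem (F := (F : Set Edg)) (fun e he => hF (Finset.mem_coe.mp he)) hU.1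
      (hw.mono Set.inter_subset_left)⟩
    induction hw with
    | refl => exact hUin
    | tail _ hs _ =>
      obtain ⟨e, ⟨_, he⟩, hc⟩ := hs
      have := mem_RE_ends (Finset.mem_coe.mp he)
      rcases hc with ⟨_, h⟩ | ⟨h, _⟩
      · rw [← h]; exact this.2
      · rw [← h]; exact this.1
  have hWin := (hin eW hΓ).1
  have hx1 : ∀ w : Vtx, w.2 = j → p < w.1 → w ∉ S := fun w h1 h2 =>
    hY.up hS.nmem (by simp only; omega) (by simp only; omega) (by simp only; omega)
      (by simp only; omega)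
  set V : Vtx → Prop := fun w =>
    Reach (↑(F ∩ ES (S ∩ BX (p, j) n)) : Set Edg) (p, j) w ∨
    (w ∈ S ∧ ¬ inR (p - r) (p + r + 1) (j - r) (j + r) w) ∨ (w.2 = j ∧ p < w.1) with hV
  set V' : Vtx → Prop := fun w =>
    Reach ((F : Set Edg) ∩ ↑(RE (p - r) (p + r + 1) (j - r) (j + r))) eU w ∨
    (w ∉ S ∧ w.2 ≠ j) with hV'
  have hxS : ∀ w, Reach (↑(F ∩ ES (S ∩ BX (p, j) n)) : Set Edg) (p, j) w →
      w ∈ S ∩ BX (p, j) n := by
    intro w hw
    refine reach_mem (F := (↑(F ∩ ES (S ∩ BX (p, j) n)) : Set Edg)) ?_ ?_ hw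
    · intro e he
      exact (Finset.mem_inter.mp (Finset.mem_coe.mp he)).2
    · exact Finset.mem_inter.mpr ⟨hS.mem, by rw [mem_BX]; simp only; omega⟩
  have hdis : ∀ w, V w → V' w → False := by
    intro w h1 h2
    rcases h1 with h1 | h1 | h1
    · rcases h2 with h2 | h2
      · apply hcon
        have e1 : Reach (F : Set Edg) (p, j) w := h1.mono (by
          intro e he
          exact Finset.mem_coe.mpr (Finset.mem_inter.mp (Finset.mem_coe.mp he)).1)
        exact e1.trans (h2.mono Set.inter_subset_left).symm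
      · exact h2.1 (Finset.mem_inter.mp (hxS w h1)).1
    · rcases h2 with h2 | h2
      · exact h1.2 (hin w h2).1
      · exact h2.1 h1.1
    · rcases h2 with h2 | h2
      · exact hx1 w h1.1 h1.2 (hin w h2).2
      · exact h2.2 h1.1
  have hzB := mem_BX.mp (Finset.mem_inter.mp hz).2
  have hzS := (Finset.mem_inter.mp hz).1
  simp only at hzB
  unfold onBX at hz1
  simp only at hz1
  have hzn := hY.nn z hzS
  unfold inR at hUin hWin
  -- the arm, extended to the left and right sides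
  have hleft : ∃ y, (j - n ≤ y ∧ y ≤ j + n) ∧ V (p - n, y) ∧
      Reach (EV V ∩ ↑(RE (p - n) (p + n + 1) (j - n) (j + n))) (p - n, y) z := by
    have rowOK : ∀ y t, (y = j + n ∨ y = j - n) → p - n ≤ t → t ≤ z.1 → y ≤ z.2 → 0 ≤ y →
        V (t, y) := by
      intro y t hy h1 h2 h3 h4
      right; left
      refine ⟨hY.dc z hzS (t, y) (by simp only; omega) h4 h2 h3, ?_⟩
      unfold inR
      simp only
      omega
    rcases hz1 with h | h | h | h
    · refine ⟨z.2, hzB.2, ?_, ?_⟩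
      · have : ((p - n, z.2) : Vtx) = z := Prod.ext h.symm rfl
        rw [this]
        exact Or.inl hA
      · have : ((p - n, z.2) : Vtx) = z := Prod.ext h.symm rfl
        rw [this]; exact Reach.refl _ _
    · -- right side: go down then left
      refine ⟨j - n, by omega, rowOK _ _ (Or.inr rfl) le_rfl (by omega) (by omega) (by omega), ?_⟩
      have r1 : Reach (EV V ∩ ↑(RE (p - n) (p + n + 1) (j - n) (j + n))) (p - n, j - n)
          (z.1, j - n) :=
        hline' (by omega) le_rfl (by omega) (by omega)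
          (fun t h1 h2 => rowOK _ _ (Or.inr rfl) h1 h2 (by omega) (by omega))
      have r2 : Reach (EV V ∩ ↑(RE (p - n) (p + n + 1) (j - n) (j + n))) (z.1, j - n)
          (z.1, z.2) := by
        refine vline' (by omega) le_rfl (by omega) (by omega) ?_
        intro t h1 h2
        right; left
        refine ⟨hY.dc z hzS (z.1, t) hzn.1 (by simp only; omega) le_rfl h2, ?_⟩
        unfold inR
        simp only
        omega
      exact r1.trans r2
    · refine ⟨j - n, by omega, rowOK _ _ (Or.inr rfl) le_rfl (by omega) (by omega) (by omega), ?_⟩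
      have r1 : Reach (EV V ∩ ↑(RE (p - n) (p + n + 1) (j - n) (j + n))) (p - n, j - n)
          (z.1, j - n) :=
        hline' (by omega) le_rfl (by omega) (by omega)
          (fun t h1 h2 => rowOK _ _ (Or.inr rfl) h1 h2 (by omega) (by omega))
      have : ((z.1, j - n) : Vtx) = z := Prod.ext rfl h.symm
      rw [this] at r1
      exact r1
    · refine ⟨j + n, by omega, rowOK _ _ (Or.inl rfl) le_rfl (by omega) (by omega) (by omega), ?_⟩
      have r1 : Reach (EV V ∩ ↑(RE (p - n) (p + n + 1) (j - n) (j + n))) (p - n, j + n)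
          (z.1, j + n) :=
        hline' (by omega) le_rfl (by omega) (by omega)
          (fun t h1 h2 => rowOK _ _ (Or.inl rfl) h1 h2 (by omega) (by omega))
      have : ((z.1, j + n) : Vtx) = z := Prod.ext rfl h.symm
      rw [this] at r1
      exact r1
  obtain ⟨y0, hy0, hVy0, hreach0⟩ := hleft
  have hmid : Reach (EV V ∩ ↑(RE (p - n) (p + n + 1) (j - n) (j + n))) (p, j) z := by
    refine reach_EV (fun w hw => Or.inl hw) ?_ hA
    intro e he
    have h1 := mem_ES.mp (Finset.mem_inter.mp (Finset.mem_coe.mp he)).2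
    have h2 := mem_BX.mp (Finset.mem_inter.mp h1.1).2
    have h3 := mem_BX.mp (Finset.mem_inter.mp h1.2).2
    simp only at h2 h3
    rw [Finset.mem_coe]
    exact mem_RE_of_ends (by unfold inR; omega) (by unfold inR; omega)
  have hright : Reach (EV V ∩ ↑(RE (p - n) (p + n + 1) (j - n) (j + n))) (p, j)
      (p + n + 1, j) := by
    refine hline' (by omega) (by omega) (by omega) le_rfl ?_
    intro t h1 h2
    rcases eq_or_lt_of_le h1 with h | h
    · left; rw [← h]; exact Reach.refl _ _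
    · right; right; exact ⟨rfl, h⟩
  have hpath1 := (hreach0.trans hmid.symm).trans hright
  -- the second path, extended to the bottom and top sides
  obtain ⟨oU, hoU, hoU1, hoU2, hoU3, hoU4, hoUr⟩ : ∃ oU : Vtx, oU ∉ S ∧ (p - n ≤ oU.1 ∧
      oU.1 ≤ p + n + 1) ∧ (j < oU.2 ∧ oU.2 ≤ j + n) ∧ 0 ≤ oU.1 ∧ 0 ≤ oU.2 ∧
      Reach (EV V' ∩ ↑(RE (p - n) (p + n + 1) (j - n) (j + n))) eU oU := by
    have hVe : V' eU := Or.inl (Reach.refl _ _)
    rcases hU.2 with h | h
    · refine ⟨(eU.1 + 1, eU.2), h, by simp only; omega, by simp only; omega, by simp only; omega,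
        by simp only; omega, ?_⟩
      refine Adj.reach ⟨(eU.1, eU.2, true), ⟨⟨hVe, ?_⟩, ?_⟩, Or.inl ⟨rfl, by rw [tgt_true]⟩⟩
      · rw [tgt_true]; exact Or.inr ⟨h, by simp only; omega⟩
      · rw [Finset.mem_coe, mem_RE_true]; omega
    · refine ⟨(eU.1, eU.2 + 1), h, by simp only; omega, by simp only; omega, by simp only; omega,
        by simp only; omega, ?_⟩
      refine Adj.reach ⟨(eU.1, eU.2, false), ⟨⟨hVe, ?_⟩, ?_⟩, Or.inl ⟨rfl, by rw [tgt_false]⟩⟩
      · rw [tgt_false]; exact Or.inr ⟨h, by simp only; omega⟩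
      · rw [Finset.mem_coe, mem_RE_false]; omega
  obtain ⟨oW, hoW, hoW1, hoW2, hoW3, hoW4, hoWr⟩ : ∃ oW : Vtx, oW ∉ S ∧ (p - n ≤ oW.1 ∧
      oW.1 ≤ p + n + 1) ∧ (j - n ≤ oW.2 ∧ oW.2 < j) ∧ 0 ≤ oW.1 ∧ 0 ≤ oW.2 ∧
      Reach (EV V' ∩ ↑(RE (p - n) (p + n + 1) (j - n) (j + n))) eW oW := by
    have hVe : V' eW := Or.inl hΓ
    rcases hW.2 with h | h
    · refine ⟨(eW.1 + 1, eW.2), h, by simp only; omega, by simp only; omega, by simp only; omega,
        by simp only; omega, ?_⟩
      refine Adj.reach ⟨(eW.1, eW.2, true), ⟨⟨hVe, ?_⟩, ?_⟩, Or.inl ⟨rfl, by rw [tgt_true]⟩⟩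
      · rw [tgt_true]; exact Or.inr ⟨h, by simp only; omega⟩
      · rw [Finset.mem_coe, mem_RE_true]; omega
    · refine ⟨(eW.1, eW.2 + 1), h, by simp only; omega, by simp only; omega, by simp only; omega,
        by simp only; omega, ?_⟩
      refine Adj.reach ⟨(eW.1, eW.2, false), ⟨⟨hVe, ?_⟩, ?_⟩, Or.inl ⟨rfl, by rw [tgt_false]⟩⟩
      · rw [tgt_false]; exact Or.inr ⟨h, by simp only; omega⟩
      · rw [Finset.mem_coe, mem_RE_false]; omega
  have hcorner : ∀ t, j - n ≤ t → ((p + n + 1, t) : Vtx) ∉ S := by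
    intro t ht
    have h1 := hS.down n hn hj
    exact hY.up h1 (by simp only; omega) (by simp only; omega) (by simp only; omega)
      (by simp only; omega)
  have q1 : Reach (EV V' ∩ ↑(RE (p - n) (p + n + 1) (j - n) (j + n))) (p + n + 1, j - n)
      (p + n + 1, oW.2) := by
    refine vline' hoW2.1 le_rfl (by omega) (by omega) ?_
    intro t h1 h2
    exact Or.inr ⟨hcorner t h1, by simp only; omega⟩
  have q2 : Reach (EV V' ∩ ↑(RE (p - n) (p + n + 1) (j - n) (j + n))) (oW.1, oW.2)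
      (p + n + 1, oW.2) := by
    refine hline' hoW1.2 hoW1.1 (by omega) le_rfl ?_
    intro t h1 h2
    exact Or.inr ⟨hY.up hoW h1 le_rfl hoW3 hoW4, by simp only; omega⟩
  have q3 : Reach (EV V' ∩ ↑(RE (p - n) (p + n + 1) (j - n) (j + n))) eU eW := by
    refine reach_EV (fun w hw => Or.inl hw) ?_ hΓ
    intro e he
    have h1 := mem_RE_ends (Finset.mem_coe.mp he.2)
    unfold inR at h1
    rw [Finset.mem_coe]
    exact mem_RE_of_ends (by unfold inR; omega) (by unfold inR; omega)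
  have q4 : Reach (EV V' ∩ ↑(RE (p - n) (p + n + 1) (j - n) (j + n))) (oU.1, oU.2)
      (oU.1, j + n) := by
    refine vline' hoU2.2 (by omega) hoU1 le_rfl ?_
    intro t h1 h2
    exact Or.inr ⟨hY.up hoU le_rfl h1 hoU3 hoU4, by simp only; omega⟩
  have hpath2 := (q1.trans q2.symm).trans (hoWr.symm.trans (q3.symm.trans (hoUr.trans q4)))
  exact no_cross (by omega) (by omega) hdis hpath1 le_rfl le_rfl hVy0 hpath2 le_rfl le_rfl
    (Or.inr ⟨hcorner _ le_rfl, by simp only; omega⟩)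

end H973
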