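import Pool.Agent.H973R2.Arm3

/-!
Gluing of the arms of the corner and of a boundary vertex: the deterministic part.
-/

namespace H973

open H974 Finset

/-- First exit from `S` inside a rectangle of the quarter plane. -/
theorem exit_S {S : Finset Vtx} (hY : Young S) {G : Finset Edg} {a b c d : ℤ} (ha : 0 ≤ a)
    (hc : 0 ≤ c) {u v : Vtx} (hu : u ∈ S) (hub : inR a b c d u) (hv : v ∉ S)
    (h : Reach ((G : Set Edg) ∩ ↑(RE a b c d)) u v) :
    ∃ w, Edge1 S w ∧ inR a b c d w ∧ Reach ((↑(G ∩ ES S) : Set Edg) ∩ ↑(RE a b c d)) u w := by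
  have key : ∀ w, Reach ((G : Set Edg) ∩ ↑(RE a b c d)) u w →
      (∃ w, Edge1 S w ∧ inR a b c d w ∧
        Reach ((↑(G ∩ ES S) : Set Edg) ∩ ↑(RE a b c d)) u w) ∨
      (w ∈ S ∧ inR a b c d w ∧ Reach ((↑(G ∩ ES S) : Set Edg) ∩ ↑(RE a b c d)) u w) := by
    intro w hw
    induction hw with
    | refl => exact Or.inr ⟨hu, hub, Reach.refl _ _⟩
    | @tail w w' _ hs ih =>
      rcases ih with ih | ⟨ih1, ih2, ih3⟩
      · exact Or.inl ih
      · obtain ⟨e, ⟨heG, heR⟩, hcase⟩ := hs
        have hends := mem_RE_ends (Finset.mem_coe.mp heR)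
        by_cases hw' : w' ∈ S
        · right
          refine ⟨hw', ?_, ?_⟩
          · rcases hcase with ⟨_, h2⟩ | ⟨h2, _⟩
            · rw [← h2]; exact hends.2
            · rw [← h2]; exact hends.1
          · refine ih3.trans (Adj.reach ⟨e, ⟨?_, heR⟩, hcase⟩)
            rw [Finset.mem_coe, Finset.mem_inter]
            refine ⟨heG, ?_⟩
            rw [mem_ES]
            rcases hcase with ⟨h1, h2⟩ | ⟨h1, h2⟩
            · rw [h1, h2]; exact ⟨ih1, hw'⟩
            · rw [h1, h2]; exact ⟨hw', ih1⟩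
        · left
          refine ⟨w, ⟨ih1, ?_⟩, ih2, ih3⟩
          have hwn := hY.nn w ih1
          obtain ⟨x, y, bo⟩ := e
          rcases hcase with ⟨h1, h2⟩ | ⟨h1, h2⟩
          · cases bo
            · right
              rw [src_mk] at h1
              rw [tgt_false] at h2
              rw [← h1]
              simp only
              rw [h2]
              exact hw'
            · left
              rw [src_mk] at h1
              rw [tgt_true] at h2
              rw [← h1]
              simp only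
              rw [h2]
              exact hw'
          · exfalso
            apply hw'
            have hin := hends.1
            rw [h1] at hin
            unfold inR at hin
            refine hY.dc w ih1 w' (by omega) (by omega) ?_ ?_
            · rw [← h1, ← h2]
              cases bo
              · rw [src_mk, tgt_false]
              · rw [src_mk, tgt_true]; simp only; omega
            · rw [← h1, ← h2]
              cases bo
              · rw [src_mk, tgt_false]; simp only; omega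
              · rw [src_mk, tgt_true]
  rcases key v h with h1 | h1
  · exact h1
  · exact absurd h1.1 hv

/-- Last visit of a column. -/
theorem last_hit {G : Set Edg} {A B a c d : ℤ} {u v : Vtx} (hu : u.1 ≤ a) (hv : a ≤ v.1)
    (hvb : inR A B c d v) (h : Reach (G ∩ ↑(RE A B c d)) u v) :
    ∃ y, (c ≤ y ∧ y ≤ d) ∧ Reach (G ∩ ↑(RE a B c d)) (a, y) v ∧
      Reach (G ∩ ↑(RE A B c d)) u (a, y) := by
  have key : ∀ w, Reach (G ∩ ↑(RE A B c d)) v w →
      (∃ y, (c ≤ y ∧ y ≤ d) ∧ Reach (G ∩ ↑(RE a B c d)) v (a, y) ∧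
        Reach (G ∩ ↑(RE A B c d)) v (a, y)) ∨
      (a < w.1 ∧ Reach (G ∩ ↑(RE a B c d)) v w ∧ Reach (G ∩ ↑(RE A B c d)) v w) := by
    intro w hw
    induction hw with
    | refl =>
      rcases eq_or_lt_of_le hv with h1 | h1
      · left
        refine ⟨v.2, hvb.2, ?_, ?_⟩ <;>
        · have : ((a, v.2) : Vtx) = v := Prod.ext h1 rfl
          rw [this]; exact Reach.refl _ _
      · exact Or.inr ⟨h1, Reach.refl _ _, Reach.refl _ _⟩
    | @tail w w' _ hs ih =>
      rcases ih with ih | ⟨ih1, ih2, ih3⟩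
      · exact Or.inl ih
      · obtain ⟨e, ⟨heG, heR⟩, hcase⟩ := hs
        have hends := mem_RE_ends (Finset.mem_coe.mp heR)
        have hstep : w.1 - 1 ≤ w'.1 := by
          obtain ⟨x, y, bo⟩ := e
          rcases hcase with ⟨h1, h2⟩ | ⟨h1, h2⟩
          · rw [← h1, ← h2]
            cases bo
            · rw [src_mk, tgt_false]; simp only; omega
            · rw [src_mk, tgt_true]; simp only; omega
          · rw [← h1, ← h2]
            cases bo
            · rw [src_mk, tgt_false]; simp only; omega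
            · rw [src_mk, tgt_true]; simp only; omega
        have hw'in : inR A B c d w' := by
          rcases hcase with ⟨_, h2⟩ | ⟨h2, _⟩
          · rw [← h2]; exact hends.2
          · rw [← h2]; exact hends.1
        have hwin : inR A B c d w := by
          rcases hcase with ⟨h2, _⟩ | ⟨_, h2⟩
          · rw [← h2]; exact hends.1
          · rw [← h2]; exact hends.2
        have heR' : e ∈ RE a B c d := by
          unfold inR at hwin hw'in
          apply mem_RE_of_ends
          · rcases hcase with ⟨h1, _⟩ | ⟨h1, _⟩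
            · rw [h1]; unfold inR; omega
            · rw [h1]; unfold inR; omega
          · rcases hcase with ⟨_, h1⟩ | ⟨_, h1⟩
            · rw [h1]; unfold inR; omega
            · rw [h1]; unfold inR; omega
        have r1 := ih2.trans (Adj.reach ⟨e, ⟨heG, Finset.mem_coe.mpr heR'⟩, hcase⟩)
        have r2 := ih3.trans (Adj.reach ⟨e, ⟨heG, heR⟩, hcase⟩)
        rcases eq_or_lt_of_le (show a ≤ w'.1 by omega) with h1 | h1
        · left
          have : ((a, w'.2) : Vtx) = w' := Prod.ext h1 rfl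
          refine ⟨w'.2, hw'in.2, ?_, ?_⟩
          · rw [this]; exact r1
          · rw [this]; exact r2
        · exact Or.inr ⟨h1, r1, r2⟩
  rcases key u h.symm with ⟨y, h1, h2, h3⟩ | ⟨h1, _⟩
  · exact ⟨y, h1, h2.symm, h.trans h3⟩
  · omega

/-- The left-right path of `S` to its boundary, below `(p, j)`. -/
def EW (S : Finset Vtx) (p j m : ℤ) (F : Finset Edg) : Prop :=
  ∃ y w, Edge1 S w ∧ inR 0 (p + 8 * m + 1) (j - 8 * m) (j - 6 * m) w ∧ p ≤ w.1 ∧
    Reach ((F : Set Edg) ∩ ↑(RE 0 (p + 8 * m + 1) (j - 8 * m) (j - 6 * m))) (0, y) w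

/-- The left-right path of `S` to its boundary, above `(p, j)`. -/
def EU (S : Finset Vtx) (p j m : ℤ) (F : Finset Edg) : Prop :=
  ∃ y w, (j + 4 * m ≤ y ∧ y ≤ j + 6 * m) ∧ Edge1 S w ∧
    inR (p - 8 * m) (p + 1) (j + 4 * m) (j + 6 * m) w ∧ p - 6 * m ≤ w.1 ∧
    Reach ((F : Set Edg) ∩ ↑(RE (p - 8 * m) (p + 1) (j + 4 * m) (j + 6 * m))) (p - 8 * m, y) w

theorem EW_of_LRc {S : Finset Vtx} {p j n m : ℤ} (hS : Steep S p j n) (hm : 0 < m)
    (hmn : 8 * m + 2 ≤ n) {G : Finset Edg}
    (h : LRc 0 (p + 8 * m + 1) (j - 8 * m) (j - 6 * m) G) : EW S p j m (G ∩ ES S) := by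
  obtain ⟨y, y', h1, h2, h3⟩ := h
  have hY := hS.young
  have hp := hS.hp
  have hj := hS.hj
  have hy : ((0, y) : Vtx) ∈ S := hY.dc _ hS.mem _ le_rfl (by simp only; omega)
    (by simp only; omega) (by simp only; omega)
  have hy' : ((p + 8 * m + 1, y') : Vtx) ∉ S := by
    have := hS.down (8 * m) (by omega) (by omega)
    exact hY.up this (by simp only; omega) (by simp only; omega) (by simp only; omega)
      (by simp only; omega)
  obtain ⟨w, hw1, hw2, hw3⟩ := exit_S hY (G := G) le_rfl (show 0 ≤ j - 8 * m by omega)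
    (b := p + 8 * m + 1) (d := j - 6 * m) hy (by unfold inR; simp only; omega) hy'
    (h3.mono (Set.inter_subset_inter_right _ (by exact_mod_cast LRE_subset_RE)))
  refine ⟨y, w, hw1, hw2, ?_, hw3⟩
  unfold inR at hw2
  rcases hw1.2 with h4 | h4
  · by_contra hc
    exact h4 (hY.dc _ hS.mem _ (by simp only; omega) (by simp only; omega) (by simp only; omega)
      (by simp only; omega))
  · by_contra hc
    exact h4 (hY.dc _ hS.mem _ (by simp only; omega) (by simp only; omega) (by simp only; omega)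
      (by simp only; omega))

theorem EU_of_LRc {S : Finset Vtx} {p j n m : ℤ} (hS : Steep S p j n) (hm : 0 < m)
    (hmn : 8 * m + 2 ≤ n) {G : Finset Edg}
    (h : LRc (p - 8 * m) (p + 1) (j + 4 * m) (j + 6 * m) G) : EU S p j m (G ∩ ES S) := by
  obtain ⟨y, y', h1, h2, h3⟩ := h
  have hY := hS.young
  have hp := hS.hp
  have hj := hS.hj
  have hdiag : ∀ x y : ℤ, 0 ≤ x → j ≤ y → y - j ≤ n → x ≤ p - (y - j) → ((x, y) : Vtx) ∈ S := by
    intro x y h1 h2 h3 h4
    have := hS.up (y - j) (by omega) h3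
    exact hY.dc _ this _ h1 (by simp only; omega) h4 (by simp only; omega)
  have hy : ((p - 8 * m, y) : Vtx) ∈ S := hdiag _ _ (by omega) (by omega) (by omega) (by omega)
  have hy' : ((p + 1, y') : Vtx) ∉ S :=
    hY.up hS.nmem (by simp only; omega) (by simp only; omega) (by simp only; omega)
      (by simp only; omega)
  obtain ⟨w, hw1, hw2, hw3⟩ := exit_S hY (G := G) (show 0 ≤ p - 8 * m by omega)
    (show 0 ≤ j + 4 * m by omega)
    (b := p + 1) (d := j + 6 * m) hy (by unfold inR; simp only; omega) hy'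
    (h3.mono (Set.inter_subset_inter_right _ (by exact_mod_cast LRE_subset_RE)))
  refine ⟨y, w, h1, hw1, hw2, ?_, hw3⟩
  unfold inR at hw2
  rcases hw1.2 with h4 | h4
  · by_contra hc
    exact h4 (hdiag _ _ (by omega) (by omega) (by omega) (by omega))
  · by_contra hc
    exact h4 (hdiag _ _ (by omega) (by omega) (by omega) (by omega))

/-- **Gluing.** -/
theorem glue_all {S : Finset Vtx} {p j n m : ℤ} (hS : Steep S p j n) (hm : 0 < m)
    (hmn : 8 * m + 2 ≤ n) (hj4 : j ≤ 4 * n) {F : Finset Edg} (hF : F ⊆ ES S)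
    (h1 : armC (QT n) (0, 0) n (F ∩ ES (QT n)))
    (h2 : armC (S ∩ BX (p, j) n) (p, j) n (F ∩ ES (S ∩ BX (p, j) n)))
    (h3 : LRc 0 (4 * m) (2 * m) (4 * m) F)
    (h4 : TBc (2 * m) (4 * m) 0 (4 * n) F)
    (h5 : TBc (p - 8 * m) (p - 6 * m) (j - 8 * m) (j + 6 * m) F)
    (h6 : EW S p j m F) (h7 : EU S p j m F) :
    Reach (F : Set Edg) (0, 0) (p, j) := by
  have hp := hS.hp
  have hj := hS.hj
  obtain ⟨y3, y3', a1, a2, a3⟩ := h3
  obtain ⟨x4, x4', b1, b2, b3⟩ := h4
  obtain ⟨x5, x5', c1, c2, c3⟩ := h5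
  obtain ⟨y6, eW, d1, d2, d3, d4⟩ := h6
  obtain ⟨y7, eU, g1, g2, g3, g4, g5⟩ := h7
  have a3' : Reach ((F : Set Edg) ∩ ↑(RE 0 (4 * m) (2 * m) (4 * m))) (0, y3) (4 * m, y3') :=
    a3.mono (Set.inter_subset_inter_right _ (by exact_mod_cast LRE_subset_RE))
  have b3' : Reach ((F : Set Edg) ∩ ↑(RE (2 * m) (4 * m) 0 (4 * n))) (x4, 0) (x4', 4 * n) :=
    b3.mono (Set.inter_subset_inter_right _ (by exact_mod_cast TBE_subset_RE))
  have c3' : Reach ((F : Set Edg) ∩ ↑(RE (p - 8 * m) (p - 6 * m) (j - 8 * m) (j + 6 * m)))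
      (x5, j - 8 * m) (x5', j + 6 * m) :=
    c3.mono (Set.inter_subset_inter_right _ (by exact_mod_cast TBE_subset_RE))
  -- upper part of the loop around `(p, j)`
  have m1 : Reach ((F : Set Edg) ∩ ↑(RE (p - 8 * m) (p + 1) (j - 8 * m) (j + 6 * m)))
      (p - 8 * m, y7) (x5, j - 8 * m) :=
    cross_meet (a := p - 8 * m) (b := p - 6 * m) (c := j + 4 * m) (d := j + 6 * m) le_rfl
      (by omega) (by omega) (by omega) (by omega) le_rfl g5 le_rfl g4 c3' (by simp only; omega)
      le_rfl
  -- lower part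
  obtain ⟨y8, k1, k2, k3⟩ := last_hit (a := p - 8 * m) (by simp only; omega) (by omega) d2 d4
  have m2 : Reach ((F : Set Edg) ∩ ↑(RE (p - 8 * m) (p + 8 * m + 1) (j - 8 * m) (j + 6 * m)))
      (p - 8 * m, y8) (x5, j - 8 * m) :=
    cross_meet (a := p - 8 * m) (b := p - 6 * m) (c := j - 8 * m) (d := j - 6 * m) le_rfl
      (by omega) (by omega) le_rfl (by omega) (by omega) k2 le_rfl (by omega) c3' le_rfl
      (by simp only; omega)
  -- the loop
  have hsub : ∀ {A B C D : ℤ}, p - 8 * m ≤ A → B ≤ p + 8 * m + 1 → j - 8 * m ≤ C →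
      D ≤ j + 8 * m → (F : Set Edg) ∩ ↑(RE A B C D) ⊆
      (F : Set Edg) ∩ ↑(RE (p - 8 * m) (p + 8 * m + 1) (j - 8 * m) (j + 8 * m)) :=
    fun h1 h2 h3 h4 => Set.inter_subset_inter_right _ (by exact_mod_cast RE_subset h1 h2 h3 h4)
  have hΓ : Reach ((F : Set Edg) ∩ ↑(RE (p - 8 * m) (p + 8 * m + 1) (j - 8 * m) (j + 8 * m)))
      eU eW :=
    (g5.symm.mono (hsub le_rfl (by omega) (by omega) (by omega))).trans
      ((m1.mono (hsub le_rfl (by omega) le_rfl (by omega))).trans
      ((m2.symm.mono (hsub le_rfl le_rfl le_rfl (by omega))).trans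
        (k2.mono (hsub le_rfl le_rfl le_rfl (by omega)))))
  obtain ⟨z, hz1, hz2, hz3⟩ := h2
  have hx : Reach (F : Set Edg) (p, j) eU := by
    unfold inR at g3 d2
    exact gamma_meet hS hF (r := 8 * m) (by omega) (by omega) g2 d1 (by omega) (by omega)
      (by unfold inR; omega) hΓ hz1 hz2 hz3
  -- chain to the corner
  have m3 : Reach ((F : Set Edg) ∩ ↑(RE 0 (p + 8 * m + 1) 0 (4 * n))) (0, y6) (x4, 0) :=
    cross_meet (a := 2 * m) (b := 4 * m) (c := j - 8 * m) (d := j - 6 * m) (by omega) (by omega)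
      (by omega) (by omega) (by omega) (by omega) d4 (by simp only; omega) (by omega) b3'
      (by simp only; omega) (by simp only; omega)
  have m4 : Reach ((F : Set Edg) ∩ ↑(RE 0 (4 * m) 0 (4 * n))) (0, y3) (x4, 0) :=
    cross_meet (a := 2 * m) (b := 4 * m) (c := 2 * m) (d := 4 * m) (by omega) (by omega)
      le_rfl (by omega) (by omega) (by omega) a3' (by simp only; omega) le_rfl b3'
      (by simp only; omega) (by simp only; omega)
  have h0 : Reach (F : Set Edg) (0, 0) (x4, 0) := by
    obtain ⟨z0, q1, q2, q3⟩ := h1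
    have hsubQ : (F ∩ ES (QT n)) ⊆ ES (QT n) := Finset.inter_subset_right
    have h00 : ((0, 0) : Vtx) ∈ QT n := by rw [mem_QT]; simp only; omega
    obtain ⟨w, r1, r2, r3⟩ := arm_exit hsubQ (c := (0, 0)) (n := 4 * m) h00
      (by rw [mem_BX]; simp only; omega) q3 (by unfold onBX at q2; simp only at q2 ⊢; omega)
    rw [Finset.mem_inter, mem_QT, mem_BX] at r1
    simp only at r1
    unfold onBX at r2
    simp only at r2
    have r3' : Reach ((F : Set Edg) ∩ ↑(RE 0 (4 * m) 0 (4 * m))) (0, 0) w := by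
      apply r3.mono
      intro e he
      rw [Finset.mem_coe, Finset.mem_inter, Finset.mem_inter, mem_ES, mem_ES, Finset.mem_inter,
        Finset.mem_inter, mem_BX, mem_BX, mem_QT, mem_QT] at he
      simp only at he
      refine ⟨he.1.1, Finset.mem_coe.mpr (mem_RE_of_ends ?_ ?_)⟩
      · unfold inR; omega
      · unfold inR; omega
    rcases (show w.1 = 4 * m ∨ w.2 = 4 * m by omega) with hw | hw
    · have m5 : Reach ((F : Set Edg) ∩ ↑(RE 0 (4 * m) 0 (4 * n))) (0, 0) (x4, 0) :=
        cross_meet (a := 2 * m) (b := 4 * m) (c := 0) (d := 4 * m) (by omega) (by omega)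
          le_rfl le_rfl (by omega) (by omega) r3' (by simp only; omega) hw.ge b3' le_rfl
          (by simp only; omega)
      exact m5.mono Set.inter_subset_left
    · have m5 : Reach ((F : Set Edg) ∩ ↑(RE 0 (4 * m) 0 (4 * m))) (0, y3) (0, 0) :=
        cross_meet (a := 0) (b := 4 * m) (c := 2 * m) (d := 4 * m) le_rfl (by omega)
          le_rfl (by omega) (by omega) le_rfl a3' le_rfl le_rfl r3' (by simp only; omega) hw.ge
      exact (m5.symm.mono Set.inter_subset_left).trans (m4.mono Set.inter_subset_left)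
  exact h0.trans ((m3.symm.mono Set.inter_subset_left).trans
    ((k3.mono Set.inter_subset_left).trans ((m2.mono Set.inter_subset_left).trans
      ((m1.symm.mono Set.inter_subset_left).trans ((g5.mono Set.inter_subset_left).trans hx.symm)))))

end H973
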