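import Pool.Agent.H973R2.Arm4

/-!
Upper bound for the product of the quarter-plane and half-plane one-arm probabilities.
-/

namespace H973

open H974 Finset

theorem hmul {S : Finset Edg} {A B : Finset Edg → Prop} (hA : IncrE S A) (hB : IncrE S B)
    {α β : ℝ} (h1 : 0 ≤ β) (ha : α ≤ Pr (fun _ => (1/2 : ℝ)) S A)
    (hb : β ≤ Pr (fun _ => (1/2 : ℝ)) S B) :
    α * β ≤ Pr (fun _ => (1/2 : ℝ)) S (fun F => A F ∧ B F) :=
  (mul_le_mul ha hb h1 (Pr_nonneg okhalf _ _)).trans (Pr_harris okhalf hA hB)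

theorem EW_incr (T : Finset Edg) (S : Finset Vtx) (p j m : ℤ) : IncrE T (EW S p j m) := by
  intro F G h _ hF
  obtain ⟨y, w, h1, h2, h3, h4⟩ := hF
  exact ⟨y, w, h1, h2, h3, h4.mono (Set.inter_subset_inter_left _ (by exact_mod_cast h))⟩

theorem EU_incr (T : Finset Edg) (S : Finset Vtx) (p j m : ℤ) : IncrE T (EU S p j m) := by
  intro F G h _ hF
  obtain ⟨y, w, h1, h2, h3, h4, h5⟩ := hF
  exact ⟨y, w, h1, h2, h3, h4, h5.mono (Set.inter_subset_inter_left _ (by exact_mod_cast h))⟩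

/-- Probability of an event implied by a crossing of a rectangle partly outside `S`. -/
theorem pr_partial {S : Finset Vtx} {a b c d : ℤ} {A : Finset Edg → Prop} {m : ℤ} (hm : 0 < m)
    (hw : 0 < b - a) (hw' : b - a ≤ 152 * m) (hh2 : 2 * m ≤ d - c)
    (h : ∀ G : Finset Edg, LRc a b c d G → A (G ∩ ES S)) :
    dlt ≤ Pr (fun _ => (1/2 : ℝ)) (ES S) A := by
  have e1 := Pr_restrict (S := ES S ∪ LRE a b c d) (S' := ES S) Finset.subset_union_left A
  rw [← e1]
  have e2 := pr_LRc (1/2) (a := a) (b := b) (c := c) (d := d)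
    (S := ES S ∪ LRE a b c d) Finset.subset_union_right
  refine (rswL hm hw hw' hh2).trans ?_
  rw [← e2]
  apply Pr_mono okhalf
  intro F _ hF
  exact h F hF

theorem RE_sub_ES {S : Finset Vtx} {a b c d : ℤ}
    (h : ∀ x y, a ≤ x → x ≤ b → c ≤ y → y ≤ d → ((x, y) : Vtx) ∈ S) : RE a b c d ⊆ ES S := by
  intro e he
  have h1 := mem_RE_ends he
  rw [mem_ES]
  unfold inR at h1
  exact ⟨h _ _ h1.1.1.1 h1.1.1.2 h1.1.2.1 h1.1.2.2, h _ _ h1.2.1.1 h1.2.1.2 h1.2.2.1 h1.2.2.2⟩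

theorem conn_lower {S : Finset Vtx} {p j n m : ℤ} (hS : Steep S p j n) (hm : 0 < m)
    (hmn : 8 * m + 2 ≤ n) (hnm : n ≤ 8 * m + 9) (hj4 : j ≤ 4 * n) (hp4 : 4 * n ≤ p + 1)
    (hp8 : p ≤ 8 * n) (hbox : ∀ x y, 0 ≤ x → x ≤ n → 0 ≤ y → y ≤ 4 * n → ((x, y) : Vtx) ∈ S)
    {T : Finset Vtx} (hT : shift (p, j) T ⊆ S ∩ BX (p, j) n) :
    armP (QT n) n * armP T n * dlt ^ 5 ≤ PS S (p, j) := by
  have hY := hS.young
  have hp := hS.hp
  have hj := hS.hj
  have hd0 := dlt_pos.le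
  -- the seven events
  have p1 : armP (QT n) n ≤ Pr (fun _ => (1/2 : ℝ)) (ES S)
      (fun F => armC (QT n) (0, 0) n (F ∩ ES (QT n))) := by
    rw [Pr_restrict (S' := ES (QT n)) (ES_mono _) (armC (QT n) (0, 0) n)]
    · exact le_rfl
    · intro y hy
      rw [mem_QT] at hy
      exact hbox y.1 y.2 hy.1.1 hy.1.2 hy.2.1 (by omega)
  have p2 : armP T n ≤ Pr (fun _ => (1/2 : ℝ)) (ES S)
      (fun F => armC (S ∩ BX (p, j) n) (p, j) n (F ∩ ES (S ∩ BX (p, j) n))) := by
    rw [Pr_restrict (S' := ES (S ∩ BX (p, j) n)) (ES_mono Finset.inter_subset_left)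
      (armC (S ∩ BX (p, j) n) (p, j) n), ← arm_shift (p, j) T n]
    refine (Pr_mono_set okhalf (ES_mono hT) (armC_incr _ _ _ _)).trans ?_
    apply Pr_mono okhalf
    intro F _ hF
    exact hF.mono hT (Finset.Subset.refl _)
  have p3 : dlt ≤ Pr (fun _ => (1/2 : ℝ)) (ES S) (LRc 0 (4 * m) (2 * m) (4 * m)) := by
    rw [pr_LRc]
    · exact rswL hm (by omega) (by omega) (by omega)
    · refine LRE_subset_RE.trans (RE_sub_ES ?_)
      intro x y h1 h2 h3 h4
      exact hbox x y (by omega) (by omega) (by omega) (by omega)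
  have p4 : dlt ≤ Pr (fun _ => (1/2 : ℝ)) (ES S) (TBc (2 * m) (4 * m) 0 (4 * n)) := by
    rw [pr_TBc]
    · exact rswL hm (by omega) (by omega) (by omega)
    · refine TBE_subset_RE.trans (RE_sub_ES ?_)
      intro x y h1 h2 h3 h4
      exact hbox x y (by omega) (by omega) (by omega) (by omega)
  have p5 : dlt ≤ Pr (fun _ => (1/2 : ℝ)) (ES S)
      (TBc (p - 8 * m) (p - 6 * m) (j - 8 * m) (j + 6 * m)) := by
    rw [pr_TBc]
    · exact rswL hm (by omega) (by omega) (by omega)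
    · refine TBE_subset_RE.trans (RE_sub_ES ?_)
      intro x y h1 h2 h3 h4
      have := hS.up (6 * m) (by omega) (by omega)
      exact hY.dc _ this _ (by simp only; omega) (by simp only; omega) (by simp only; omega)
        (by simp only; omega)
  have p6 : dlt ≤ Pr (fun _ => (1/2 : ℝ)) (ES S) (EW S p j m) :=
    pr_partial hm (a := 0) (b := p + 8 * m + 1) (c := j - 8 * m) (d := j - 6 * m) (by omega)
      (by omega) (by omega) (fun G hG => EW_of_LRc hS hm hmn hG)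
  have p7 : dlt ≤ Pr (fun _ => (1/2 : ℝ)) (ES S) (EU S p j m) :=
    pr_partial hm (a := p - 8 * m) (b := p + 1) (c := j + 4 * m) (d := j + 6 * m) (by omega)
      (by omega) (by omega) (fun G hG => EU_of_LRc hS hm hmn hG)
  -- monotonicity
  have c1 : IncrE (ES S) (fun F => armC (QT n) (0, 0) n (F ∩ ES (QT n))) :=
    fun F G h _ hF => hF.mono (Finset.Subset.refl _) (Finset.inter_subset_inter_right h)
  have c2 : IncrE (ES S) (fun F => armC (S ∩ BX (p, j) n) (p, j) n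
      (F ∩ ES (S ∩ BX (p, j) n))) :=
    fun F G h _ hF => hF.mono (Finset.Subset.refl _) (Finset.inter_subset_inter_right h)
  have c3 := LRc_incr (ES S) 0 (4 * m) (2 * m) (4 * m)
  have c4 := TBc_incr (ES S) (2 * m) (4 * m) 0 (4 * n)
  have c5 := TBc_incr (ES S) (p - 8 * m) (p - 6 * m) (j - 8 * m) (j + 6 * m)
  have c6 := EW_incr (ES S) S p j m
  have c7 := EU_incr (ES S) S p j m
  have cc : ∀ {A B : Finset Edg → Prop}, IncrE (ES S) A → IncrE (ES S) B →
      IncrE (ES S) (fun F => A F ∧ B F) :=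
    fun hA hB F G h h' hF => ⟨hA F G h h' hF.1, hB F G h h' hF.2⟩
  have q2 := hmul c1 c2 (armP_nonneg _ _) p1 p2
  have q3 := hmul (cc c1 c2) c3 hd0 q2 p3
  have q4 := hmul (cc (cc c1 c2) c3) c4 hd0 q3 p4
  have q5 := hmul (cc (cc (cc c1 c2) c3) c4) c5 hd0 q4 p5
  have q6 := hmul (cc (cc (cc (cc c1 c2) c3) c4) c5) c6 hd0 q5 p6
  have q7 := hmul (cc (cc (cc (cc (cc c1 c2) c3) c4) c5) c6) c7 hd0 q6 p7
  calc armP (QT n) n * armP T n * dlt ^ 5
      = armP (QT n) n * armP T n * dlt * dlt * dlt * dlt * dlt := by ring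
    _ ≤ _ := q7
    _ ≤ PS S (p, j) := by
      unfold PS
      apply Pr_mono okhalf
      rintro F hF ⟨⟨⟨⟨⟨⟨h1, h2⟩, h3⟩, h4⟩, h5⟩, h6⟩, h7⟩
      exact glue_all hS hm hmn hj4 hF h1 h2 h3 h4 h5 h6 h7

theorem upper_dir {a b : ℝ} (ha : 0 < a) (hb : 0 ≤ b) (hab : b ≤ a) {n : ℤ} (hn : 1 ≤ n) :
    (n : ℝ) * (armP (QT n) n * armP (HB a b n) n) ≤ 10 / dlt ^ 5 := by
  have hpd : 0 < dlt ^ 5 := pow_pos dlt_pos 5
  have hprod : 0 ≤ armP (QT n) n * armP (HB a b n) n :=
    mul_nonneg (armP_nonneg _ _) (armP_nonneg _ _)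
  have hprod1 : armP (QT n) n * armP (HB a b n) n ≤ 1 := by
    calc _ ≤ (1:ℝ) * 1 := mul_le_mul (armP_le_one _ _) (armP_le_one _ _) (armP_nonneg _ _)
          zero_le_one
      _ = 1 := one_mul 1
  have hd1 : dlt ^ 5 ≤ 1 := pow_le_one₀ dlt_pos.le dlt_le
  rw [le_div_iff₀ hpd]
  by_cases hsmall : n < 10
  · have h1 : (n : ℝ) ≤ 10 := by exact_mod_cast hsmall.le
    have h0 : (0 : ℝ) ≤ n := by exact_mod_cast (by omega : 0 ≤ n)
    calc (n : ℝ) * (armP (QT n) n * armP (HB a b n) n) * dlt ^ 5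
        ≤ (10 * 1) * 1 := by
          apply mul_le_mul (mul_le_mul h1 hprod1 hprod (by norm_num)) hd1 hpd.le (by norm_num)
      _ = 10 := by norm_num
  push Not at hsmall
  obtain ⟨m, hm1, hm2, hm3⟩ : ∃ m : ℤ, 0 < m ∧ 8 * m + 2 ≤ n ∧ n ≤ 8 * m + 9 :=
    ⟨(n - 2) / 8, by omega, by omega, by omega⟩
  set S := SR a b (8 * n) with hSdef
  have hY : Young S := young_SR ha.le hb (by omega)
  -- the boundary vertex at height `j`
  have hleg : ∀ j : ℤ, 3 * n ≤ j → j ≤ 4 * n → ∃ p : ℤ, ((p, j) : Vtx) ∈ S ∧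
      ((p + 1, j) : Vtx) ∉ S := by
    intro j h1 h2
    have h0 : ((0, j) : Vtx) ∈ S := by
      rw [hSdef, mem_SR]
      simp only [Int.cast_zero, mul_zero, zero_add]
      refine ⟨by omega, ?_⟩
      have e1 : (j : ℝ) ≤ ((8 * n : ℤ) : ℝ) := by exact_mod_cast (by omega : j ≤ 8 * n)
      have e2 : (0 : ℝ) ≤ j := by exact_mod_cast (by omega : 0 ≤ j)
      calc b * (j : ℝ) ≤ a * j := mul_le_mul_of_nonneg_right hab e2
        _ ≤ _ := mul_le_mul_of_nonneg_left e1 ha.le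
    obtain ⟨w, hw, hmax⟩ := Finset.exists_max_image (S.filter (fun x => x.2 = j)) (fun x => x.1)
      ⟨(0, j), Finset.mem_filter.mpr ⟨h0, rfl⟩⟩
    rw [Finset.mem_filter] at hw
    refine ⟨w.1, ?_, ?_⟩
    · have : ((w.1, j) : Vtx) = w := Prod.ext rfl hw.2.symm
      rw [this]; exact hw.1
    · intro hc
      have := hmax (w.1 + 1, j) (Finset.mem_filter.mpr ⟨hc, rfl⟩)
      simp only at this
      omega
  have hconn : ∀ j : ℤ, 3 * n ≤ j → j ≤ 4 * n → ∀ p : ℤ, ((p, j) : Vtx) ∈ S →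
      ((p + 1, j) : Vtx) ∉ S →
      armP (QT n) n * armP (HB a b n) n * dlt ^ 5 ≤ PS S (p, j) := by
    intro j h1 h2 p h3 h4
    have h3' := mem_SR.mp h3
    simp only at h3'
    have h4' : p + 1 ≤ 8 * n → a * ((8 * n : ℤ) : ℝ) < a * ((p : ℝ) + 1) + b * (j : ℝ) := by
      intro h5
      by_contra hc
      push Not at hc
      apply h4
      rw [hSdef, mem_SR]
      refine ⟨by simp only; omega, ?_⟩
      push_cast at hc ⊢
      exact hc
    have hjr : (j : ℝ) ≤ 4 * n := by exact_mod_cast h2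
    have hj0 : (0 : ℝ) ≤ j := by exact_mod_cast (by omega : 0 ≤ j)
    have hnr : (1 : ℝ) ≤ n := by exact_mod_cast hn
    have hp4 : 4 * n ≤ p + 1 := by
      by_contra hc
      push Not at hc
      have h5 := h4' (by omega)
      have h6 : (p : ℝ) + 1 ≤ 4 * n - 1 := by exact_mod_cast (by omega : p + 1 ≤ 4 * n - 1)
      have h7 : b * (j : ℝ) ≤ a * (4 * n) := mul_le_mul hab hjr hj0 ha.le
      have h8 : a * ((p : ℝ) + 1) ≤ a * (4 * n - 1) := mul_le_mul_of_nonneg_left h6 ha.le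
      push_cast at h5
      nlinarith
    have hS : Steep S p j n := by
      refine ⟨hY, h3, h4, ?_, ?_, by omega, by omega, by omega⟩
      · intro k hk0 hk
        rw [hSdef, mem_SR]
        refine ⟨by simp only; omega, ?_⟩
        simp only
        push_cast
        have hk0' : (0 : ℝ) ≤ k := by exact_mod_cast hk0
        have h5 := h3'.2
        push_cast at h5
        have h6 : b * (k : ℝ) ≤ a * k := mul_le_mul_of_nonneg_right hab hk0'
        linarith
      · intro k hk0 hk hc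
        rw [hSdef, mem_SR] at hc
        simp only at hc
        have h5 := h4' (by omega)
        have h6 := hc.2
        push_cast at h5 h6
        have hk0' : (0 : ℝ) ≤ k := by exact_mod_cast hk0
        have h7 : b * (k : ℝ) ≤ a * k := mul_le_mul_of_nonneg_right hab hk0'
        linarith
    refine conn_lower hS hm1 hm2 hm3 h2 hp4 h3'.1.1.2 ?_ (T := HB a b n) ?_
    · intro x y hx0 hx hy0 hy
      rw [hSdef, mem_SR]
      simp only
      refine ⟨by omega, ?_⟩
      have e1 : (x : ℝ) ≤ n := by exact_mod_cast hx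
      have e2 : (y : ℝ) ≤ 4 * n := by exact_mod_cast hy
      have e3 : (0 : ℝ) ≤ y := by exact_mod_cast hy0
      have e4 : b * (y : ℝ) ≤ a * (4 * n) := mul_le_mul hab e2 e3 ha.le
      have e5 : a * (x : ℝ) ≤ a * n := mul_le_mul_of_nonneg_left e1 ha.le
      push_cast
      nlinarith
    · intro y hy
      rw [mem_shift, mem_HB] at hy
      simp only at hy
      rw [Finset.mem_inter, hSdef, mem_SR, mem_BX]
      have h5 := h3'.2
      have h6 := hy.2
      push_cast at h5 h6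
      have h7 : a * (y.1 : ℝ) + b * (y.2 : ℝ) ≤ a * ((8 * n : ℤ) : ℝ) := by
        push_cast
        linarith
      have h8 : y.1 ≤ 8 * n := by
        have h9 : a * (y.1 : ℝ) ≤ a * ((8 * n : ℤ) : ℝ) := by
          have : (0 : ℝ) ≤ y.2 := by exact_mod_cast (by omega : 0 ≤ y.2)
          have := mul_nonneg hb this
          linarith
        exact_mod_cast le_of_mul_le_mul_left h9 ha
      simp only
      exact ⟨⟨by omega, h7⟩, by omega⟩
  -- sum over the heights
  obtain ⟨h2, _⟩ := young_identity hY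
  choose! f hf1 hf2 using hleg
  have hsum : ((n + 1 : ℤ) : ℝ) * (armP (QT n) n * armP (HB a b n) n * dlt ^ 5) ≤
      ∑ x ∈ S.filter (fun x => (x.1 + 1, x.2) ∉ S), PS S x := by
    have e1 : ∑ j ∈ Finset.Icc (3 * n) (4 * n), PS S (f j, j) ≤
        ∑ x ∈ S.filter (fun x => (x.1 + 1, x.2) ∉ S), PS S x := by
      have e2 : ∑ j ∈ Finset.Icc (3 * n) (4 * n), PS S (f j, j) =
          ∑ x ∈ (Finset.Icc (3 * n) (4 * n)).image (fun j => ((f j, j) : Vtx)), PS S x := by
        rw [Finset.sum_image]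
        intro x _ y _ hxy
        simp only [Prod.mk.injEq] at hxy
        exact hxy.2
      rw [e2]
      apply Finset.sum_le_sum_of_subset_of_nonneg
      · intro x hx
        obtain ⟨j, hj, rfl⟩ := Finset.mem_image.mp hx
        rw [Finset.mem_Icc] at hj
        rw [Finset.mem_filter]
        exact ⟨hf1 j hj.1 hj.2, hf2 j hj.1 hj.2⟩
      · intro x _ _
        exact Pr_nonneg okhalf _ _
    refine le_trans ?_ e1
    have e3 : ∑ _j ∈ Finset.Icc (3 * n) (4 * n),
        (armP (QT n) n * armP (HB a b n) n * dlt ^ 5) ≤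
        ∑ j ∈ Finset.Icc (3 * n) (4 * n), PS S (f j, j) := by
      apply Finset.sum_le_sum
      intro j hj
      rw [Finset.mem_Icc] at hj
      exact hconn j hj.1 hj.2 _ (hf1 j hj.1 hj.2) (hf2 j hj.1 hj.2)
    refine le_trans (le_of_eq ?_) e3
    rw [Finset.sum_const, nsmul_eq_mul, Int.card_Icc]
    have : (4 * n + 1 - 3 * n).toNat = (n + 1).toNat := by congr 1; ring
    rw [this]
    congr 1
    have : ((n + 1).toNat : ℤ) = n + 1 := by omega
    exact_mod_cast this.symm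
  have hN0 : 0 ≤ ∑ x ∈ S.filter (fun x => (x.1, x.2 + 1) ∉ S), PS S x :=
    Finset.sum_nonneg (fun x _ => Pr_nonneg okhalf _ _)
  have h3 : ((n + 1 : ℤ) : ℝ) * (armP (QT n) n * armP (HB a b n) n * dlt ^ 5) ≤ 2 := by linarith
  push_cast at h3
  have h4 : 0 ≤ armP (QT n) n * armP (HB a b n) n * dlt ^ 5 := mul_nonneg hprod hpd.le
  nlinarith

end H973
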