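import Pool.Agent.H973R2.Arm5

/-!
All directions, by symmetry.
-/

namespace H973

open H974 Finset

theorem armP_sym (g : LSym) (T : Finset Vtx) (n : ℤ) (h0 : g.ψ (0, 0) = (0, 0))
    (hB : ∀ y, onBX (0, 0) n (g.ψ y) ↔ onBX (0, 0) n y) : armP (LSymV g T) n = armP T n := by
  unfold armP
  rw [← ES_mp, LSym.pr]
  apply Pr_congr
  intro F _
  have hr : ∀ y : Vtx, Reach (↑(g.mp F) : Set Edg) (0, 0) (g.ψ y) ↔
      Reach (F : Set Edg) (0, 0) y := by
    intro y
    rw [LSym.coe_mp]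
    have h := g.reach_iff (F := (F : Set Edg)) (u := (0, 0)) (v := y)
    rw [h0] at h
    exact h
  constructor
  · rintro ⟨y, h1, h2, h3⟩
    refine ⟨g.ψ.symm y, mem_LSymV.mp h1, ?_, ?_⟩
    · rw [← hB, Equiv.apply_symm_apply]; exact h2
    · rw [← hr, Equiv.apply_symm_apply]; exact h3
  · rintro ⟨y, h1, h2, h3⟩
    refine ⟨g.ψ y, ?_, (hB y).mpr h2, (hr y).mpr h3⟩
    rw [mem_LSymV, Equiv.symm_apply_apply]
    exact h1

theorem armP_swap (a b : ℝ) (n : ℤ) : armP (HB b a n) n = armP (HB a b n) n := by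
  rw [← armP_sym tps (HB a b n) n rfl]
  · congr 1
    ext y
    rw [mem_LSymV, mem_HB, mem_HB]
    have : tps.ψ.symm y = (y.2, y.1) := rfl
    rw [this]
    simp only
    constructor
    · rintro ⟨h1, h2⟩; exact ⟨⟨h1.2, h1.1⟩, by linarith⟩
    · rintro ⟨h1, h2⟩; exact ⟨⟨h1.2, h1.1⟩, by linarith⟩
  · intro y
    have : tps.ψ y = (y.2, y.1) := rfl
    rw [this]
    unfold onBX
    simp only
    omega

theorem armP_negx (a b : ℝ) (n : ℤ) : armP (HB (-a) b n) n = armP (HB a b n) n := by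
  rw [← armP_sym (rfx 0) (HB a b n) n rfl]
  · congr 1
    ext y
    rw [mem_LSymV, mem_HB, mem_HB]
    have : (rfx 0).ψ.symm y = (0 - y.1, y.2) := rfl
    rw [this]
    simp only
    push_cast
    constructor
    · rintro ⟨h1, h2⟩; exact ⟨by omega, by linarith⟩
    · rintro ⟨h1, h2⟩; exact ⟨by omega, by linarith⟩
  · intro y
    have : (rfx 0).ψ y = (0 - y.1, y.2) := rfl
    rw [this]
    unfold onBX
    simp only
    omega

theorem armP_negy (a b : ℝ) (n : ℤ) : armP (HB a (-b) n) n = armP (HB a b n) n := by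
  rw [armP_swap (-b) a n, armP_negx b a n, armP_swap a b n]

theorem armP_abs (a b : ℝ) (n : ℤ) : armP (HB a b n) n = armP (HB |a| |b| n) n := by
  rcases abs_choice a with h1 | h1 <;> rcases abs_choice b with h2 | h2 <;> rw [h1, h2]
  · rw [armP_negy]
  · rw [armP_negx]
  · rw [armP_negx, armP_negy]

/-- Both bounds, for all directions. -/
theorem both_dir {a b : ℝ} (hab : a ≠ 0 ∨ b ≠ 0) {n : ℤ} (hn : 1 ≤ n) :
    1 ≤ 36 * (n : ℝ) * (armP (QT n) n * armP (HB a b n) n) ∧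
    (n : ℝ) * (armP (QT n) n * armP (HB a b n) n) ≤ 10 / dlt ^ 5 := by
  rw [armP_abs a b n]
  rcases le_total |b| |a| with h | h
  · have ha : 0 < |a| := by
      rcases hab with h1 | h1
      · exact abs_pos.mpr h1
      · exact lt_of_lt_of_le (abs_pos.mpr h1) h
    exact ⟨lower_dir ha (abs_nonneg b) h hn, upper_dir ha (abs_nonneg b) h hn⟩
  · have hb : 0 < |b| := by
      rcases hab with h1 | h1
      · exact lt_of_lt_of_le (abs_pos.mpr h1) h
      · exact abs_pos.mpr h1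
    rw [armP_swap |b| |a| n]
    exact ⟨lower_dir hb (abs_nonneg a) h hn, upper_dir hb (abs_nonneg a) h hn⟩

end H973
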