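import Pool.Agent.H973R2.Steps

/-!
The base case and the induction on the diagram.
-/

namespace H973

open H974 Finset Matrix

theorem W_quad {f : ℕ → M} {n a b c d : ℕ} (hab : a < b) (hbc : b < c) (hcd : c < d) (hd : d < n)
    (h : ∀ i, i < n → i ≠ a → i ≠ b → i ≠ c → i ≠ d → f i = 1) :
    W f n = f a * f b * f c * f d := by
  obtain ⟨k, rfl⟩ : ∃ k, n = d + 1 + k := ⟨n - (d + 1), by omega⟩
  rw [W_split1, W_one (n := k)
    (fun i hi => h _ (by omega) (by omega) (by omega) (by omega) (by omega)),
    Matrix.mul_one, W_triple hab hbc hcd
      (fun i hi h1 h2 h3 => h i (by omega) h1 h2 h3 (by omega))]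

theorem tq_sub (X Y : M) : tq (X - Y) = tq X - tq Y := by simp [tq]; ring

theorem tq_neg_pair (w : M) : tq (E * w) + tq (K * w * E) = 0 := by
  simp only [tq, E, K, Matrix.mul_apply, Fin.sum_univ_two]
  simp
  linear_combination (w 1 0) * q_sq

theorem flux_base (x y z w : M) :
    (-q) * tq (dl x * y * z * w) + (1 - q) * tq (K * x * Ki * dl y * z * w) +
      tq (K * x * Ki * (K * y * Ki) * dl z * w) +
      q * tq (K * x * Ki * (K * y * Ki) * (K * z * Ki) * dl w) = 0 := by
  have h1 := congrArg (fun A => tq (A * w)) (leibniz3 x y z)
  simp only [Matrix.add_mul, Matrix.sub_mul, Matrix.smul_mul, tq_add, tq_sub, tq_smul] at h1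
  have h2 : K * x * Ki * (K * y * Ki) * (K * z * Ki) * dl w =
      (1 - q) • (K * (x * y * z) * E * w) - K * (x * y * z * w) * E := by
    have e : K * x * Ki * (K * y * Ki) * (K * z * Ki) = K * (x * y * z) * Ki := by
      calc K * x * Ki * (K * y * Ki) * (K * z * Ki)
          = K * x * (Ki * K) * y * (Ki * K) * z * Ki := by simp only [Matrix.mul_assoc]
        _ = _ := by
          rw [Ki_mul_K, Matrix.mul_one, Matrix.mul_one]; simp only [Matrix.mul_assoc]
    rw [e]
    unfold dl
    rw [Matrix.mul_sub]
    congr 1
    · calc K * (x * y * z) * Ki * (E * w) = K * (x * y * z) * (Ki * E) * w := by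
            simp only [Matrix.mul_assoc]
        _ = _ := by rw [Ki_E, Matrix.mul_smul, Matrix.smul_mul]
    · calc K * (x * y * z) * Ki * (K * w * E) = K * (x * y * z) * (Ki * K) * w * E := by
            simp only [Matrix.mul_assoc]
        _ = _ := by rw [Ki_mul_K, Matrix.mul_one]; simp only [Matrix.mul_assoc]
  have h3 : tq (K * x * Ki * (K * y * Ki) * (K * z * Ki) * dl w) =
      (1 - q) * tq (K * (x * y * z) * E * w) - tq (K * (x * y * z * w) * E) := by
    rw [h2, tq_sub, tq_smul]
  have h4 := tq_neg_pair (x * y * z * w)
  have h5 : E * (x * y * z) * w = E * (x * y * z * w) := by simp only [Matrix.mul_assoc]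
  rw [h5] at h1
  rw [h3]
  linear_combination (1 - q) * h1 + (-q) * h4 +
    (tq (E * (x * y * z * w)) - tq (K * (x * y * z) * E * w) * 0
      - tq (dl x * y * z * w) - tq (K * x * Ki * (K * y * Ki) * dl z * w) * (-1)) * q_sq

theorem ES_zero : ES ({(0, 0)} : Finset Vtx) = ∅ := by
  ext ⟨x, y, b⟩
  rw [mem_ES]
  simp only [Finset.mem_singleton, Finset.notMem_empty, iff_false, not_and]
  intro h1 h2
  cases b
  · simp only [src_mk, tgt_false, Prod.mk.injEq] at h1 h2; omega
  · simp only [src_mk, tgt_true, Prod.mk.injEq] at h1 h2; omega

theorem base_step {n : ℕ} (hn : 0 < n) :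
    ∃ used ep a, Legs n {(0, 0)} used ep a ∧ FluxZero (4 * n + 1) {(0, 0)} used ep a := by
  have hU : pU n (0, 0) = 2 * n - 1 := by unfold pU; simp only; omega
  have hR : pR n (0, 0) = 2 * n := by unfold pR; simp only; omega
  have hD : pD n (0, 0) = 4 * n := by unfold pD; simp only; omega
  have hL : pL (0, 0) = 0 := by unfold pL; simp
  refine ⟨{0, 2 * n - 1, 2 * n, 4 * n}, fun _ => (0, 0),
    fun p => if p = 0 then -q else if p = 2 * n - 1 then 1 - q else if p = 2 * n then 1 else q,
    ?_, ?_⟩
  · constructor
    · intro x hx
      rw [Finset.mem_singleton] at hx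
      subst hx
      simp only
      omega
    · intro x hx y h1 h2 h3 h4
      rw [Finset.mem_singleton] at hx ⊢
      subst hx
      simp only at h3 h4
      ext <;> simp only <;> omega
    · intro x hx _
      rw [Finset.mem_singleton] at hx
      subst hx
      rw [hL]
      simp
    · intro x hx _
      rw [Finset.mem_singleton] at hx
      subst hx
      rw [hU]
      refine ⟨by simp, rfl, ?_⟩
      rw [if_neg (by omega), if_pos rfl]
    · intro x hx _
      rw [Finset.mem_singleton] at hx
      subst hx
      rw [hR]
      refine ⟨by simp, rfl, ?_⟩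
      rw [if_neg (by omega), if_neg (by omega), if_pos rfl]
    · intro x hx _
      rw [Finset.mem_singleton] at hx
      subst hx
      rw [hD]
      refine ⟨by simp, rfl, ?_⟩
      rw [if_neg (by omega), if_neg (by omega), if_neg (by omega)]
    · intro r hr
      simp only [Finset.mem_insert, Finset.mem_singleton] at hr
      rcases hr with rfl | rfl | rfl | rfl
      · left; exact ⟨(0, 0), by simp, rfl, hL.symm⟩
      · right; left; exact ⟨(0, 0), by simp, by simp, hU.symm⟩
      · right; right; left; exact ⟨(0, 0), by simp, by simp, hR.symm⟩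
      · right; right; right; exact ⟨(0, 0), by simp, rfl, hD.symm⟩
  · refine ⟨1, fun _ _ => 0, ?_, ?_⟩
    · intro F hF
      refine ⟨⟨fun _ _ => Nat.one_pos, ?_⟩, ?_⟩
      · intro x hx y hy
        rw [Finset.mem_singleton] at hx hy
        subst hx; subst hy
        simp only [true_iff]
        exact Reach.refl _ _
      · intro i _ j _ k _ l _ _ _ _ _ _
        rfl
    · intro X
      rw [ES_zero, Finset.powerset_empty, Finset.sum_singleton]
      have key : ∀ Y : ℕ → M, psi (4 * n + 1) 1 {0, 2 * n - 1, 2 * n, 4 * n} (fun _ => 0) Y =
          tq (Y 0 * Y (2 * n - 1) * Y (2 * n) * Y (4 * n)) := by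
        intro Y
        unfold psi
        rw [Finset.prod_range_one]
        congr 1
        rw [W_quad (a := 0) (b := 2 * n - 1) (c := 2 * n) (d := 4 * n) (by omega) (by omega)
          (by omega) (by omega)]
        · simp [blk]
        · intro i _ h1 h2 h3 h4
          unfold blk
          rw [if_neg]
          rintro ⟨h, _⟩
          simp only [Finset.mem_insert, Finset.mem_singleton] at h
          omega
      unfold Fl
      simp only [key]
      rw [Finset.sum_insert, Finset.sum_insert, Finset.sum_insert, Finset.sum_singleton]
      · have c0 : ∀ t r : ℕ, t < r → tw r X t = K * X t * Ki := by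
          intro t r h; unfold tw; rw [if_pos h]
        have c1 : ∀ t : ℕ, tw t X t = dl (X t) := by
          intro t; unfold tw; rw [if_neg (lt_irrefl t), if_pos rfl]
        have c2 : ∀ t r : ℕ, r < t → tw r X t = X t := by
          intro t r h; unfold tw; rw [if_neg (by omega), if_neg (by omega)]
        rw [c1 0, c1 (2 * n - 1), c1 (2 * n), c1 (4 * n)]
        rw [c2 (2 * n - 1) 0 (by omega), c2 (2 * n) 0 (by omega), c2 (4 * n) 0 (by omega),
          c2 (2 * n) (2 * n - 1) (by omega), c2 (4 * n) (2 * n - 1) (by omega),
          c2 (4 * n) (2 * n) (by omega), c0 0 (2 * n - 1) (by omega), c0 0 (2 * n) (by omega),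
          c0 0 (4 * n) (by omega), c0 (2 * n - 1) (2 * n) (by omega),
          c0 (2 * n - 1) (4 * n) (by omega), c0 (2 * n) (4 * n) (by omega)]
        have h := flux_base (X 0) (X (2 * n - 1)) (X (2 * n)) (X (4 * n))
        have e1 : (2 * n - 1 = 0) = False := by simp; omega
        have e2 : (2 * n = 0) = False := by simp; omega
        have e3 : (2 * n = 2 * n - 1) = False := by simp; omega
        have e4 : (4 * n = 0) = False := by simp; omega
        have e5 : (4 * n = 2 * n - 1) = False := by simp; omega
        have e6 : (4 * n = 2 * n) = False := by simp; omega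
        simp only [e1, e2, e3, e4, e5, e6, if_true, if_false]
        linear_combination h
      · simp only [Finset.mem_singleton]; omega
      · simp only [Finset.mem_insert, Finset.mem_singleton]; omega
      · simp only [Finset.mem_insert, Finset.mem_singleton]; omega

/-- The flux identity holds for every Young diagram. -/
theorem young_flux {n : ℕ} : ∀ (m : ℕ) (S : Finset Vtx), S.card = m → Young S →
    (∀ x ∈ S, x.1 < n ∧ x.2 < n) →
    ∃ used ep a, Legs n S used ep a ∧ FluxZero (4 * n + 1) S used ep a := by
  intro m
  induction m with
  | zero =>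
    intro S hm hY
    rw [Finset.card_eq_zero] at hm
    subst hm
    exact absurd hY.zero (Finset.notMem_empty _)
  | succ m ih =>
    intro S hm hY hn
    by_cases h0 : S = {(0, 0)}
    · subst h0
      have := (hn (0, 0) hY.zero).1
      exact base_step (by simp only at this; omega)
    · -- a maximal element
      obtain ⟨v, hv, hmax⟩ := Finset.exists_max_image S (fun x => x.1 + x.2) ⟨_, hY.zero⟩
      have hv0 : v ≠ (0, 0) := by
        intro hv0
        apply h0
        ext x
        rw [Finset.mem_singleton]
        constructor
        · intro hx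
          have h1 := hmax x hx
          have h2 := hY.nn x hx
          subst hv0
          simp only at h1
          ext <;> simp only <;> omega
        · rintro rfl; exact hY.zero
      have hmem : ∀ x, x ∈ S.erase v ↔ x ∈ S ∧ x ≠ v := by
        intro x; rw [Finset.mem_erase]; exact and_comm
      have hY' : Young (S.erase v) := by
        constructor
        · intro x hx; exact hY.nn x ((hmem x).mp hx).1
        · intro x hx y h1 h2 h3 h4
          obtain ⟨k1, k2⟩ := (hmem x).mp hx
          refine (hmem y).mpr ⟨hY.dc x k1 y h1 h2 h3 h4, ?_⟩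
          rintro rfl
          apply k2
          have := hmax x k1
          ext <;> omega
        · exact (hmem _).mpr ⟨hY.zero, hv0.symm⟩
      have hcard : (S.erase v).card = m := by
        rw [Finset.card_erase_of_mem hv, hm]; rfl
      obtain ⟨used, ep, a, hL, hF⟩ := ih (S.erase v) hcard hY'
        (fun x hx => hn x ((hmem x).mp hx).1)
      have hS : S = insert v (S.erase v) := (Finset.insert_erase hv).symm
      have hvn : v ∉ S.erase v := Finset.notMem_erase _ _
      have hb := hY.nn v hv
      have hbn := hn v hv
      obtain ⟨i, j⟩ := v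
      simp only at hb hbn
      rw [hS]
      by_cases hi : 0 < i
      · by_cases hj : 0 < j
        · refine step_interior hL hF hvn hi hj hbn.1 hbn.2 ?_ ?_
          · refine (hmem _).mpr ⟨hY.dc _ hv _ (by simp only; omega) (by simp only; omega)
              (by simp only; omega) (by simp only; omega), ?_⟩
            intro h; rw [Prod.mk.injEq] at h; omega
          · refine (hmem _).mpr ⟨hY.dc _ hv _ (by simp only; omega) (by simp only; omega)
              (by simp only; omega) (by simp only; omega), ?_⟩
            intro h; rw [Prod.mk.injEq] at h; omega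
        · have hj0 : j = 0 := by omega
          subst hj0
          refine step_bottom hL hF hvn hi hbn.1 ?_
          refine (hmem _).mpr ⟨hY.dc _ hv _ (by simp only; omega) (by simp only; omega)
              (by simp only; omega) (by simp only; omega), ?_⟩
          intro h; rw [Prod.mk.injEq] at h; omega
      · have hi0 : i = 0 := by omega
        subst hi0
        have hj : 0 < j := by
          rcases lt_or_eq_of_le hb.2 with h | h
          · exact h
          · exact absurd (by rw [← h]) hv0
        refine step_left hL hF hvn hj hbn.2 ?_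
        refine (hmem _).mpr ⟨hY.dc _ hv _ (by simp only; omega) (by simp only; omega)
              (by simp only; omega) (by simp only; omega), ?_⟩
        intro h; rw [Prod.mk.injEq] at h; omega

end H973
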