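import Pool.Agent.H973R2.Alg

namespace H973

open Matrix

theorem q_cube : q ^ 3 = -1 := by linear_combination (q + 1) * q_sq

theorem q_four : q ^ 4 = -q := by linear_combination (q ^ 2 + q) * q_sq

theorem q_five : q ^ 5 = 1 - q := by linear_combination (q ^ 3 + q ^ 2 - 1) * q_sq

theorem q_six : q ^ 6 = 1 := by linear_combination (q ^ 4 + q ^ 3 - q - 1) * q_sq

theorem Ki_E : Ki * E = (1 - q) • E := by
  ext i j
  fin_cases i <;> fin_cases j <;> simp [Ki, E, Matrix.mul_apply, Fin.sum_univ_two]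

theorem leibniz (x y : M) :
    (1 - q) • (dl x * y) + (K * x * Ki) * dl y = (1 - q) • (E * (x * y)) - K * (x * y) * E := by
  have h : K * x * Ki * dl y = (1 - q) • (K * x * E * y) - K * (x * y) * E := by
    unfold dl
    rw [Matrix.mul_sub]
    congr 1
    · calc K * x * Ki * (E * y) = K * x * (Ki * E) * y := by simp only [Matrix.mul_assoc]
        _ = _ := by rw [Ki_E, Matrix.mul_smul, Matrix.smul_mul]
    · calc K * x * Ki * (K * y * E) = K * x * (Ki * K) * y * E := by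
            simp only [Matrix.mul_assoc]
        _ = _ := by rw [Ki_mul_K, Matrix.mul_one]; simp only [Matrix.mul_assoc]
  rw [h]
  unfold dl
  rw [Matrix.sub_mul, smul_sub]
  simp only [Matrix.mul_assoc]
  abel

theorem U00 : U 0 0 = !![1, 0; 0, 0] := by
  ext i j; fin_cases i <;> fin_cases j <;> simp [U]
theorem U01 : U 0 1 = !![0, 1; 0, 0] := by
  ext i j; fin_cases i <;> fin_cases j <;> simp [U]
theorem U10 : U 1 0 = !![0, 0; 1, 0] := by
  ext i j; fin_cases i <;> fin_cases j <;> simp [U]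
theorem U11 : U 1 1 = !![0, 0; 0, 1] := by
  ext i j; fin_cases i <;> fin_cases j <;> simp [U]
theorem one_two : (1 : M) = !![1, 0; 0, 1] := Matrix.one_fin_two

theorem sub_two (a b c d a' b' c' d' : ℂ) :
    (!![a, b; c, d] : M) - !![a', b'; c', d'] = !![a - a', b - b'; c - c', d - d'] := by
  ext i j; fin_cases i <;> fin_cases j <;> simp

theorem smul_two (r a b c d : ℂ) :
    r • (!![a, b; c, d] : M) = !![r * a, r * b; r * c, r * d] := by
  ext i j; fin_cases i <;> fin_cases j <;> simp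

/-- Core tensor identity, one component at a time. -/
theorem core_aux (Z : M) (a b c d : Fin 2) :
    let g : M → M → ℂ := fun A B => A a b * B c d
    let T : M → ℂ := fun Z => tq Z * g 1 1 + g Z 1 + g 1 Z +
      ∑ i, ∑ j, g (Z * U i j) (Ki * U j i)
    T ((1 - q) • (E * Z) - K * Z * E) =
      tq Z * (g (dl 1) 1 + (1 - q) * g (K * 1 * Ki) (dl 1)) +
      (g (dl Z) 1 + (1 - q) * g (K * Z * Ki) (dl 1)) +
      (g (dl 1) Z + (1 - q) * g (K * 1 * Ki) (dl Z)) +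
      ∑ i, ∑ j, (g (dl (Z * U i j)) (Ki * U j i) +
        (1 - q) * g (K * (Z * U i j) * Ki) (dl (Ki * U j i))) := by
  intro g T
  simp only [g, T, Fin.sum_univ_two, dl, tq, U00, U01, U10, U11]
  obtain ⟨z00, z01, z10, z11, rfl⟩ : ∃ z00 z01 z10 z11, Z = !![z00, z01; z10, z11] :=
    ⟨_, _, _, _, Matrix.eta_fin_two Z⟩
  simp only [one_two, K, Ki, E, Matrix.mul_fin_two, sub_two, smul_two]
  fin_cases a <;> fin_cases b <;> fin_cases c <;> fin_cases d <;>
    simp only [Matrix.of_apply, Matrix.cons_val', Matrix.cons_val_zero, Matrix.cons_val_one,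
      Matrix.cons_val_fin_one, Fin.zero_eta, Fin.mk_one, Fin.isValue] <;>
    ring_nf <;> (try simp only [q_sq, q_cube, q_four, q_five]) <;> (try ring_nf)

/-- Conjugation invariance, one component at a time. -/
theorem conj_aux (Z : M) (a b c d : Fin 2) :
    let g : M → M → ℂ := fun A B => A a b * B c d
    ∑ i, ∑ j, g (K * Z * Ki * U i j) (Ki * U j i) =
      ∑ i, ∑ j, g (K * (Z * U i j) * Ki) (K * (Ki * U j i) * Ki) := by
  intro g
  simp only [g, Fin.sum_univ_two, U00, U01, U10, U11]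
  obtain ⟨z00, z01, z10, z11, rfl⟩ : ∃ z00 z01 z10 z11, Z = !![z00, z01; z10, z11] :=
    ⟨_, _, _, _, Matrix.eta_fin_two Z⟩
  simp only [K, Ki, Matrix.mul_fin_two]
  fin_cases a <;> fin_cases b <;> fin_cases c <;> fin_cases d <;>
    simp only [Matrix.of_apply, Matrix.cons_val', Matrix.cons_val_zero, Matrix.cons_val_one,
      Matrix.cons_val_fin_one, Fin.zero_eta, Fin.mk_one, Fin.isValue] <;>
    ring_nf <;> (try simp only [q_sq, q_cube, q_four, q_five]) <;> (try ring_nf)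

/-- Bilinearity, in coordinates. -/
def BiLin (g : M → M → ℂ) : Prop :=
  ∃ β : Fin 2 → Fin 2 → Fin 2 → Fin 2 → ℂ,
    ∀ A B, g A B = ∑ a, ∑ b, ∑ c, ∑ d, β a b c d * (A a b * B c d)

theorem BiLin.add_left {g : M → M → ℂ} (h : BiLin g) (A A' B : M) :
    g (A + A') B = g A B + g A' B := by
  obtain ⟨β, h⟩ := h
  simp only [h, Fin.sum_univ_two, Matrix.add_apply]
  ring

theorem BiLin.add_right {g : M → M → ℂ} (h : BiLin g) (A B B' : M) :
    g A (B + B') = g A B + g A B' := by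
  obtain ⟨β, h⟩ := h
  simp only [h, Fin.sum_univ_two, Matrix.add_apply]
  ring

theorem BiLin.smul_left {g : M → M → ℂ} (h : BiLin g) (c : ℂ) (A B : M) :
    g (c • A) B = c * g A B := by
  obtain ⟨β, h⟩ := h
  simp only [h, Fin.sum_univ_two, Matrix.smul_apply, smul_eq_mul]
  ring

theorem BiLin.smul_right {g : M → M → ℂ} (h : BiLin g) (c : ℂ) (A B : M) :
    g A (c • B) = c * g A B := by
  obtain ⟨β, h⟩ := h
  simp only [h, Fin.sum_univ_two, Matrix.smul_apply, smul_eq_mul]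
  ring

/-- The growth operator in two adjacent slots. -/
noncomputable def Tg (g : M → M → ℂ) (Z : M) : ℂ :=
  tq Z * g 1 1 + g Z 1 + g 1 Z + ∑ i, ∑ j, g (Z * U i j) (Ki * U j i)

theorem Tg_add {g : M → M → ℂ} (h : BiLin g) (Z Z' : M) : Tg g (Z + Z') = Tg g Z + Tg g Z' := by
  unfold Tg
  simp only [Matrix.add_mul, h.add_left, h.add_right, tq_add, Fin.sum_univ_two]
  ring

theorem Tg_smul {g : M → M → ℂ} (h : BiLin g) (c : ℂ) (Z : M) : Tg g (c • Z) = c * Tg g Z := by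
  unfold Tg
  simp only [Matrix.smul_mul, h.smul_left, h.smul_right, tq_smul, Fin.sum_univ_two]
  ring

theorem Tg_conj {g : M → M → ℂ} (h : BiLin g) (Z : M) :
    Tg g (K * Z * Ki) = Tg (fun A B => g (K * A * Ki) (K * B * Ki)) Z := by
  have h1 : K * 1 * Ki = 1 := by rw [Matrix.mul_one, K_mul_Ki]
  unfold Tg
  rw [tq_conj]
  simp only [h1]
  congr 1
  obtain ⟨β, h⟩ := h
  have hc := fun a b c d => conj_aux Z a b c d
  simp only [Fin.sum_univ_two] at hc
  simp only [h, Fin.sum_univ_two]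
  linear_combination β 0 0 0 0 * hc 0 0 0 0 + β 0 0 0 1 * hc 0 0 0 1 + β 0 0 1 0 * hc 0 0 1 0 +
    β 0 0 1 1 * hc 0 0 1 1 + β 0 1 0 0 * hc 0 1 0 0 + β 0 1 0 1 * hc 0 1 0 1 +
    β 0 1 1 0 * hc 0 1 1 0 + β 0 1 1 1 * hc 0 1 1 1 +
    β 1 0 0 0 * hc 1 0 0 0 + β 1 0 0 1 * hc 1 0 0 1 + β 1 0 1 0 * hc 1 0 1 0 +
    β 1 0 1 1 * hc 1 0 1 1 + β 1 1 0 0 * hc 1 1 0 0 + β 1 1 0 1 * hc 1 1 0 1 +
    β 1 1 1 0 * hc 1 1 1 0 + β 1 1 1 1 * hc 1 1 1 1

theorem Tg_core {g : M → M → ℂ} (h : BiLin g) (x y : M) :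
    (1 - q) * Tg g (dl x * y) + Tg g ((K * x * Ki) * dl y) =
      Tg (fun A B => g (dl A) B + (1 - q) * g (K * A * Ki) (dl B)) (x * y) := by
  have h1 : (1 - q) * Tg g (dl x * y) + Tg g ((K * x * Ki) * dl y) =
      Tg g ((1 - q) • (E * (x * y)) - K * (x * y) * E) := by
    rw [← leibniz, Tg_add h, Tg_smul h]
  rw [h1]
  generalize x * y = Z
  unfold Tg
  obtain ⟨β, h⟩ := h
  have hc := fun a b c d => core_aux Z a b c d
  simp only [Fin.sum_univ_two] at hc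
  simp only [h, Fin.sum_univ_two]
  linear_combination β 0 0 0 0 * hc 0 0 0 0 + β 0 0 0 1 * hc 0 0 0 1 + β 0 0 1 0 * hc 0 0 1 0 +
    β 0 0 1 1 * hc 0 0 1 1 + β 0 1 0 0 * hc 0 1 0 0 + β 0 1 0 1 * hc 0 1 0 1 +
    β 0 1 1 0 * hc 0 1 1 0 + β 0 1 1 1 * hc 0 1 1 1 +
    β 1 0 0 0 * hc 1 0 0 0 + β 1 0 0 1 * hc 1 0 0 1 + β 1 0 1 0 * hc 1 0 1 0 +
    β 1 0 1 1 * hc 1 0 1 1 + β 1 1 0 0 * hc 1 1 0 0 + β 1 1 0 1 * hc 1 1 0 1 +
    β 1 1 1 0 * hc 1 1 1 0 + β 1 1 1 1 * hc 1 1 1 1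

end H973
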