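import Pool.Agent.H973R2.Lab
import Pool.Agent.H974R2.Lattice

/-!
Connectivity after the addition of one vertex.
-/

namespace H973

open H974 Finset

/-- Edges with both endpoints in `S`. -/
def ES (S : Finset Vtx) : Finset Edg :=
  (S.image (fun v => ((v.1, v.2, true) : Edg)) ∪ S.image (fun v => ((v.1, v.2, false) : Edg))).filter
    (fun e => tgt e ∈ S)

theorem mem_ES {S : Finset Vtx} {e : Edg} : e ∈ ES S ↔ src e ∈ S ∧ tgt e ∈ S := by
  unfold ES
  obtain ⟨x, y, b⟩ := e
  rw [Finset.mem_filter, Finset.mem_union, Finset.mem_image, Finset.mem_image]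
  constructor
  · rintro ⟨h, h2⟩
    refine ⟨?_, h2⟩
    rcases h with ⟨v, hv, he⟩ | ⟨v, hv, he⟩
    · simp only [Prod.mk.injEq] at he
      obtain ⟨h3, h4, _⟩ := he
      rw [src_mk, ← h3, ← h4]; exact hv
    · simp only [Prod.mk.injEq] at he
      obtain ⟨h3, h4, _⟩ := he
      rw [src_mk, ← h3, ← h4]; exact hv
  · rintro ⟨h1, h2⟩
    refine ⟨?_, h2⟩
    rw [src_mk] at h1
    cases b
    · right; exact ⟨(x, y), h1, rfl⟩
    · left; exact ⟨(x, y), h1, rfl⟩

theorem reach_insert {F : Set Edg} {e : Edg} {x y : Vtx} :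
    Reach (insert e F) x y ↔ Reach F x y ∨ (Reach F x (src e) ∧ Reach F (tgt e) y) ∨
      (Reach F x (tgt e) ∧ Reach F (src e) y) := by
  constructor
  · intro h
    induction h with
    | refl => left; exact Reach.refl _ _
    | tail _ hs ih =>
      obtain ⟨f, hf, hst⟩ := hs
      rcases Set.mem_insert_iff.mp hf with rfl | hf
      · rcases hst with ⟨h1, h2⟩ | ⟨h1, h2⟩
        · subst h1; subst h2
          rcases ih with ih | ⟨ih, _⟩ | ⟨ih, _⟩
          · right; left; exact ⟨ih, Reach.refl _ _⟩
          · right; left; exact ⟨ih, Reach.refl _ _⟩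
          · left; exact ih
        · subst h1; subst h2
          rcases ih with ih | ⟨ih, _⟩ | ⟨ih, _⟩
          · right; right; exact ⟨ih, Reach.refl _ _⟩
          · left; exact ih
          · right; right; exact ⟨ih, Reach.refl _ _⟩
      · have hr : Reach F _ _ := Adj.reach ⟨f, hf, hst⟩
        rcases ih with ih | ⟨ih, ih'⟩ | ⟨ih, ih'⟩
        · left; exact ih.trans hr
        · right; left; exact ⟨ih, ih'.trans hr⟩
        · right; right; exact ⟨ih, ih'.trans hr⟩
  · have hm : F ⊆ insert e F := Set.subset_insert _ _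
    have he : Reach (insert e F) (src e) (tgt e) :=
      Adj.reach ⟨e, Set.mem_insert _ _, Or.inl ⟨rfl, rfl⟩⟩
    rintro (h | ⟨h1, h2⟩ | ⟨h1, h2⟩)
    · exact h.mono hm
    · exact ((h1.mono hm).trans he).trans (h2.mono hm)
    · exact ((h1.mono hm).trans he.symm).trans (h2.mono hm)

theorem reach_isolated {F : Set Edg} {v y : Vtx} (h : ∀ e ∈ F, src e ≠ v ∧ tgt e ≠ v) :
    Reach F v y ↔ y = v := by
  constructor
  · intro hr
    induction hr with
    | refl => rfl
    | tail _ hs ih =>
      obtain ⟨f, hf, hst⟩ := hs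
      subst ih
      rcases hst with ⟨h1, h2⟩ | ⟨h1, h2⟩
      · exact absurd h1 (h f hf).1
      · exact absurd h2 (h f hf).2
  · rintro rfl; exact Reach.refl _ _

theorem reach_isolated' {F : Set Edg} {v y : Vtx} (h : ∀ e ∈ F, src e ≠ v ∧ tgt e ≠ v) :
    Reach F y v ↔ y = v := by
  rw [← reach_isolated h]
  exact ⟨Reach.symm, Reach.symm⟩

/-- Labelling of the clusters. -/
def Rep (S : Finset Vtx) (F : Finset Edg) (ν : Vtx → ℕ) (C : ℕ) : Prop :=
  (∀ x ∈ S, ν x < C) ∧ ∀ x ∈ S, ∀ y ∈ S, (ν x = ν y ↔ Reach (F : Set Edg) x y)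

variable {S : Finset Vtx} {F : Finset Edg} {ν : Vtx → ℕ} {C : ℕ} {v : Vtx}

theorem not_touch (hv : v ∉ S) (hF : F ⊆ ES S) : ∀ e ∈ (F : Set Edg), src e ≠ v ∧ tgt e ≠ v := by
  intro e he
  have h := mem_ES.mp (hF (Finset.mem_coe.mp he))
  exact ⟨fun h' => hv (h' ▸ h.1), fun h' => hv (h' ▸ h.2)⟩

theorem Rep.closed (h : Rep S F ν C) (hv : v ∉ S) (hF : F ⊆ ES S) :
    Rep (insert v S) F (fun x => if x = v then C else ν x) (C + 1) := by
  have hnt := not_touch hv hF
  refine ⟨?_, ?_⟩
  · intro x hx
    rw [Finset.mem_insert] at hx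
    by_cases hxv : x = v
    · simp [hxv]
    · have := h.1 x (hx.resolve_left hxv)
      simp only [if_neg hxv]
      omega
  · intro x hx y hy
    rw [Finset.mem_insert] at hx hy
    by_cases hxv : x = v <;> by_cases hyv : y = v
    · subst hxv; subst hyv
      simp [Reach.refl]
    · subst hxv
      have h1 := h.1 y (hy.resolve_left hyv)
      rw [reach_isolated hnt]
      simp only [if_true, if_neg hyv, iff_false]
      constructor
      · intro h'; omega
      · intro h'; exact absurd h' hyv
    · subst hyv
      have h1 := h.1 x (hx.resolve_left hxv)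
      rw [reach_isolated' hnt]
      simp only [if_true, if_neg hxv]
      constructor
      · intro h'; omega
      · intro h'; exact absurd h' hxv
    · simp only [if_neg hxv, if_neg hyv]
      exact h.2 x (hx.resolve_left hxv) y (hy.resolve_left hyv)

theorem Rep.open1 (h : Rep S F ν C) (hv : v ∉ S) (hF : F ⊆ ES S) {u : Vtx} (hu : u ∈ S) {e : Edg}
    (he : src e = u ∧ tgt e = v) :
    Rep (insert v S) (insert e F) (fun x => if x = v then ν u else ν x) C := by
  have hnt := not_touch hv hF
  have huv : u ≠ v := fun h' => hv (h' ▸ hu)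
  refine ⟨?_, ?_⟩
  · intro x hx
    rw [Finset.mem_insert] at hx
    by_cases hxv : x = v
    · simp only [if_pos hxv]; exact h.1 u hu
    · simp only [if_neg hxv]; exact h.1 x (hx.resolve_left hxv)
  · intro x hx y hy
    rw [Finset.mem_insert] at hx hy
    rw [Finset.coe_insert, reach_insert, he.1, he.2]
    by_cases hxv : x = v <;> by_cases hyv : y = v
    · subst hxv; subst hyv
      simp [Reach.refl]
    · subst hxv
      have hy' := hy.resolve_left hyv
      rw [reach_isolated hnt, reach_isolated hnt, reach_isolated hnt]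
      simp only [if_true, if_neg hyv]
      rw [h.2 u hu y hy']
      constructor
      · intro h'; right; right; exact ⟨trivial, h'⟩
      · rintro (h' | ⟨h', _⟩ | ⟨_, h'⟩)
        · exact absurd h' hyv
        · exact absurd h' huv
        · exact h'
    · subst hyv
      have hx' := hx.resolve_left hxv
      rw [reach_isolated' hnt, reach_isolated' hnt]
      simp only [if_true, if_neg hxv]
      rw [h.2 x hx' u hu]
      constructor
      · intro h'; right; left; exact ⟨h', trivial⟩
      · rintro (h' | ⟨h', _⟩ | ⟨h', _⟩)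
        · exact absurd h' hxv
        · exact h'
        · exact absurd h' hxv
    · have hx' := hx.resolve_left hxv
      have hy' := hy.resolve_left hyv
      rw [reach_isolated hnt, reach_isolated' hnt]
      simp only [if_neg hxv, if_neg hyv]
      rw [h.2 x hx' y hy']
      constructor
      · intro h'; left; exact h'
      · rintro (h' | ⟨_, h'⟩ | ⟨h', _⟩)
        · exact h'
        · exact absurd h' hyv
        · exact absurd h' hxv

theorem Rep.both (h : Rep S F ν C) (hv : v ∉ S) (hF : F ⊆ ES S) {u w : Vtx} (hu : u ∈ S)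
    (hw : w ∈ S) {e1 e2 : Edg} (he1 : src e1 = u ∧ tgt e1 = v) (he2 : src e2 = w ∧ tgt e2 = v) :
    Rep (insert v S) (insert e1 (insert e2 F))
      (fun x => if x = v then ν u else if ν x = ν w then ν u else ν x) C := by
  have hnt := not_touch hv hF
  have huv : u ≠ v := fun h' => hv (h' ▸ hu)
  have hwv : w ≠ v := fun h' => hv (h' ▸ hw)
  have h2 := h.open1 hv hF hw he2
  -- reachability in terms of the labelling after opening `e2`
  set ν2 : Vtx → ℕ := fun x => if x = v then ν w else ν x with hν2
  have hu' : u ∈ insert v S := Finset.mem_insert_of_mem hu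
  have hv' : v ∈ insert v S := Finset.mem_insert_self _ _
  refine ⟨?_, ?_⟩
  · intro x hx
    rw [Finset.mem_insert] at hx
    by_cases hxv : x = v
    · simp only [if_pos hxv]; exact h.1 u hu
    · simp only [if_neg hxv]
      split_ifs
      · exact h.1 u hu
      · exact h.1 x (hx.resolve_left hxv)
  · intro x hx y hy
    rw [Finset.coe_insert, reach_insert, he1.1, he1.2, ← h2.2 x hx y hy, ← h2.2 x hx u hu',
      ← h2.2 v hv' y hy, ← h2.2 x hx v hv', ← h2.2 u hu' y hy]
    have k1 : ν2 v = ν w := by simp [hν2]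
    have k2 : ν2 u = ν u := by simp [hν2, huv]
    rw [k1, k2]
    have kk : ∀ z, (if z = v then ν u else if ν z = ν w then ν u else ν z) =
        (if ν2 z = ν w then ν u else ν2 z) := by
      intro z
      by_cases hz : z = v
      · simp [hz, hν2]
      · simp only [if_neg hz, hν2]
    simp only [kk]
    generalize ν2 x = p
    generalize ν2 y = r
    generalize ν w = b
    generalize ν u = a
    split_ifs with h3 h4 h4
    · subst h3; subst h4; simp
    · subst h3
      constructor
      · intro h5; right; right; exact ⟨rfl, h5⟩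
      · rintro (h5 | ⟨h5, h6⟩ | ⟨h5, h6⟩)
        · exact absurd h5.symm h4
        · exact absurd h6.symm h4
        · exact h6
    · subst h4
      constructor
      · intro h5; right; left; exact ⟨h5, rfl⟩
      · rintro (h5 | ⟨h5, h6⟩ | ⟨h5, h6⟩)
        · exact absurd h5 h3
        · exact h5
        · exact absurd h5 h3
    · constructor
      · intro h5; left; exact h5
      · rintro (h5 | ⟨h5, h6⟩ | ⟨h5, h6⟩)
        · exact h5
        · exact absurd h6.symm h4
        · exact absurd h5 h3

end H973
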