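import Pool.Agent.H973R2.Arm6
import Pool.Agent.H988R2.Perc.Defs

/-!
Dictionary between the infinite product measure of `H988R2.Perc` and finite edge sets.
-/

namespace H973

open H974 Finset MeasureTheory
open Pool.Agent.H988R2

/-- The edge map of the reflection-translation `(x, y) ↦ (c - x, y - d)`. -/
def tau (c d : ℤ) (e : Edg) : Perc.Edge :=
  if e.2.2 then (c - 1 - e.1, e.2.1 - d, false) else (c - e.1, e.2.1 - d, true)

/-- The vertex map. -/
def phi (c d : ℤ) (v : Vtx) : ℤ × ℤ := (c - v.1, v.2 - d)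

theorem tau_inj (c d : ℤ) : Function.Injective (tau c d) := by
  rintro ⟨x, y, b⟩ ⟨x', y', b'⟩ h
  unfold tau at h
  cases b <;> cases b' <;> simp at h ⊢ <;> omega

open Classical in
/-- The open edges of `S`. -/
noncomputable def FO (c d : ℤ) (S : Finset Edg) (ω : Perc.Conf) : Finset Edg :=
  S.filter (fun e => ω (tau c d e) = true)

theorem mem_FO {c d : ℤ} {S : Finset Edg} {ω : Perc.Conf} {e : Edg} :
    e ∈ FO c d S ω ↔ e ∈ S ∧ ω (tau c d e) = true := by
  unfold FO; rw [Finset.mem_filter]

theorem coin_eq (b : Bool) : Perc.coin {b} = 1/2 := by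
  unfold Perc.coin
  rw [PMF.toMeasure_apply_singleton _ _ (measurableSet_singleton b)]
  simp

theorem FO_eq_pi (c d : ℤ) {S T : Finset Edg} (hT : T ⊆ S) :
    {ω | FO c d S ω = T} = Set.pi (↑(S.image (tau c d)) : Set Perc.Edge)
      (fun g => {b : Bool | b = true ↔ g ∈ T.image (tau c d)}) := by
  ext ω
  rw [Set.mem_pi]
  constructor
  · intro h g hg
    have h' : FO c d S ω = T := h
    obtain ⟨e, he, rfl⟩ := Finset.mem_image.mp (Finset.mem_coe.mp hg)
    show ω (tau c d e) = true ↔ tau c d e ∈ T.image (tau c d)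
    rw [(tau_inj c d).mem_finset_image, ← h', mem_FO]
    exact ⟨fun h => ⟨he, h⟩, fun h => h.2⟩
  · intro h
    show FO c d S ω = T
    ext e
    rw [mem_FO]
    constructor
    · rintro ⟨he, hω⟩
      have h1 := h (tau c d e) (Finset.mem_coe.mpr (Finset.mem_image_of_mem _ he))
      have h2 : ω (tau c d e) = true ↔ tau c d e ∈ T.image (tau c d) := h1
      rw [(tau_inj c d).mem_finset_image] at h2
      exact h2.mp hω
    · intro he
      have h1 := h (tau c d e) (Finset.mem_coe.mpr (Finset.mem_image_of_mem _ (hT he)))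
      have h2 : ω (tau c d e) = true ↔ tau c d e ∈ T.image (tau c d) := h1
      rw [(tau_inj c d).mem_finset_image] at h2
      exact ⟨hT he, h2.mpr he⟩

theorem meas_FO (c d : ℤ) (S T : Finset Edg) : MeasurableSet {ω | FO c d S ω = T} := by
  by_cases hT : T ⊆ S
  · rw [FO_eq_pi c d hT]
    exact MeasurableSet.pi (Finset.countable_toSet _) (fun _ _ => MeasurableSet.of_discrete)
  · have : {ω | FO c d S ω = T} = ∅ := by
      ext ω
      simp only [Set.mem_empty_iff_false, iff_false]
      intro h
      have h' : FO c d S ω = T := h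
      exact hT (h' ▸ Finset.filter_subset _ _)
    rw [this]
    exact MeasurableSet.empty

theorem perc_FO (c d : ℤ) {S T : Finset Edg} (hT : T ⊆ S) :
    Perc.perc.real {ω | FO c d S ω = T} = (1/2 : ℝ) ^ S.card := by
  classical
  rw [measureReal_def, FO_eq_pi c d hT]
  unfold Perc.perc
  rw [Measure.infinitePi_pi _ (fun _ _ => MeasurableSet.of_discrete), ENNReal.toReal_prod,
    Finset.prod_image ((tau_inj c d).injOn)]
  have h1 : ∀ e ∈ S, (Perc.coin
      {b : Bool | b = true ↔ tau c d e ∈ T.image (tau c d)}).toReal = 1/2 := by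
    intro e _
    by_cases he : tau c d e ∈ T.image (tau c d)
    · have : {b : Bool | b = true ↔ tau c d e ∈ T.image (tau c d)} = {true} := by
        ext b; simp [he]
      rw [this, coin_eq]; simp
    · have : {b : Bool | b = true ↔ tau c d e ∈ T.image (tau c d)} = {false} := by
        ext b; simp [he]
      rw [this, coin_eq]; simp
  rw [Finset.prod_congr rfl h1, Finset.prod_const]

theorem perc_event (c d : ℤ) (S : Finset Edg) (Q : Finset Edg → Prop) :
    Perc.perc.real {ω | Q (FO c d S ω)} = Pr (fun _ => (1/2 : ℝ)) S Q := by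
  classical
  have hU : {ω | Q (FO c d S ω)} = ⋃ T ∈ S.powerset.filter Q, {ω | FO c d S ω = T} := by
    ext ω
    simp only [Set.mem_iUnion, Finset.mem_filter, Finset.mem_powerset]
    constructor
    · intro h
      exact ⟨FO c d S ω, ⟨Finset.filter_subset _ _, h⟩, rfl⟩
    · rintro ⟨T, ⟨-, hQ⟩, hω⟩
      have hω' : FO c d S ω = T := hω
      show Q (FO c d S ω)
      rw [hω']; exact hQ
  rw [hU, measureReal_biUnion_finset]
  · unfold Pr
    rw [Ex_half, Finset.sum_filter, Finset.mul_sum]
    apply Finset.sum_congr rfl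
    intro T hT
    split_ifs with hQ
    · rw [perc_FO c d (Finset.mem_powerset.mp hT), ind_of hQ, mul_one]
    · rw [ind_not_of hQ, mul_zero]
  · intro T _ T' _ hne
    rw [Function.onFun, Set.disjoint_left]
    intro ω h1 h2
    exact hne ((show FO c d S ω = T from h1).symm.trans (show FO c d S ω = T' from h2))
  · intro T _
    exact meas_FO c d S T

/-- One step of a path. -/
theorem adj_open {c d : ℤ} {ω : Perc.Conf} {e : Edg} {u v : Vtx} (he : ω (tau c d e) = true)
    (h : (src e = u ∧ tgt e = v) ∨ (src e = v ∧ tgt e = u)) :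
    Perc.OpenAdj ω (phi c d u) (phi c d v) := by
  obtain ⟨x, y, _ | _⟩ := e
  · simp only [src_mk, tgt_false, tau, Bool.false_eq_true, if_false] at h he
    rcases h with ⟨rfl, rfl⟩ | ⟨rfl, rfl⟩
    · right; right; left
      refine ⟨?_, he⟩
      simp only [phi]; ext <;> simp; ring
    · right; right; right
      refine ⟨?_, he⟩
      simp only [phi]; ext <;> simp; ring
  · simp only [src_mk, tgt_true, tau, if_true] at h he
    have e1 : c - (x + 1) = c - 1 - x := by ring
    rcases h with ⟨rfl, rfl⟩ | ⟨rfl, rfl⟩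
    · right; left
      refine ⟨?_, ?_⟩
      · simp only [phi]; ext <;> simp <;> ring
      · simp only [phi]; rw [e1]; exact he
    · left
      refine ⟨?_, ?_⟩
      · simp only [phi]; ext <;> simp <;> ring
      · simp only [phi]; rw [e1]; exact he

/-- Conversely, an open step comes from an open edge. -/
theorem open_adj {c d : ℤ} {ω : Perc.Conf} {u v : Vtx}
    (h : Perc.OpenAdj ω (phi c d u) (phi c d v)) :
    ∃ e : Edg, ω (tau c d e) = true ∧ ((src e = u ∧ tgt e = v) ∨ (src e = v ∧ tgt e = u)) := by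
  obtain ⟨x, y⟩ := u
  obtain ⟨x', y'⟩ := v
  simp only [Perc.OpenAdj, phi, Prod.mk.injEq] at h
  rcases h with ⟨⟨h1, h2⟩, h3⟩ | ⟨⟨h1, h2⟩, h3⟩ | ⟨⟨h1, h2⟩, h3⟩ | ⟨⟨h1, h2⟩, h3⟩
  · refine ⟨(x', y', true), ?_, Or.inr ⟨?_, ?_⟩⟩
    · simp only [tau, if_true]
      have e1 : c - 1 - x' = c - x := by omega
      have e2 : y' - d = y - d := by omega
      rw [e1, e2]; exact h3
    · rfl
    · rw [tgt_true]; ext <;> simp <;> omega
  · refine ⟨(x, y, true), ?_, Or.inl ⟨?_, ?_⟩⟩
    · simp only [tau, if_true]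
      have e1 : c - 1 - x = c - x' := by omega
      have e2 : y - d = y' - d := by omega
      rw [e1, e2]; exact h3
    · rfl
    · rw [tgt_true]; ext <;> simp <;> omega
  · refine ⟨(x, y, false), ?_, Or.inl ⟨?_, ?_⟩⟩
    · simp only [tau, Bool.false_eq_true, if_false]; exact h3
    · rfl
    · rw [tgt_false]; ext <;> simp <;> omega
  · refine ⟨(x', y', false), ?_, Or.inr ⟨?_, ?_⟩⟩
    · simp only [tau, Bool.false_eq_true, if_false]; exact h3
    · rfl
    · rw [tgt_false]; ext <;> simp <;> omega

end H973
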