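import Pool.Agent.H973R2.Exp1

/-!
Comparison of the half-plane arm event of `H988R2.Perc` with finite-volume one-arm events.
-/

namespace H973

open H974 Finset MeasureTheory
open Pool.Agent.H988R2

/-- An arm to a line `u - v = L` far away leaves the box. -/
theorem arm_box {ω : Perc.Conf} {n : ℤ} (hn : 0 ≤ n) {L : ℕ} (hL : 2 * n + 2 ≤ (L : ℤ))
    (h : ω ∈ Perc.Arm L) :
    armC ((BX (-1, 0) n).filter (fun y => y.1 + y.2 ≤ 0)) (-1, 0) n
      (FO 0 0 (ES ((BX (-1, 0) n).filter (fun y => y.1 + y.2 ≤ 0))) ω) := by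
  set T : Finset Vtx := (BX (-1, 0) n).filter (fun y => y.1 + y.2 ≤ 0) with hT
  have hmem : ∀ y : Vtx, y ∈ T ↔ ((-1 - n ≤ y.1 ∧ y.1 ≤ -1 + n) ∧ (0 - n ≤ y.2 ∧ y.2 ≤ 0 + n)) ∧
      y.1 + y.2 ≤ 0 := by
    intro y
    rw [hT, Finset.mem_filter, mem_BX]
  set F := FO 0 0 (ES T) ω with hF
  obtain ⟨z, hz, hpath⟩ := h
  have key : ∀ w : ℤ × ℤ,
      Relation.ReflTransGen (fun a b => Perc.OpenAdj ω a b ∧ a.2 ≤ a.1 ∧ b.2 ≤ b.1) (1, 0) w →
      armC T (-1, 0) n F ∨ (∀ y : Vtx, phi 0 0 y = w → y ∈ T ∧ Reach (F : Set Edg) (-1, 0) y) := by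
    intro w hw
    induction hw with
    | refl =>
      right
      intro y hy
      have h1 : y = (-1, 0) := by
        simp only [phi, Prod.mk.injEq] at hy
        obtain ⟨h1, h2⟩ := hy
        ext <;> simp <;> omega
      subst h1
      refine ⟨?_, Reach.refl _ _⟩
      rw [hmem]
      simp only
      omega
    | tail hab hbc ih =>
      rename_i b c
      rcases ih with ih | ih
      · exact Or.inl ih
      obtain ⟨hstep, hb, hc⟩ := hbc
      have hphi : ∀ w : ℤ × ℤ, phi 0 0 (-w.1, w.2) = w := by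
        intro w; simp [phi]
      obtain ⟨hbT, hbR⟩ := ih (-b.1, b.2) (hphi b)
      by_cases hon : onBX (-1, 0) n (-b.1, b.2)
      · left
        exact ⟨_, hbT, hon, hbR⟩
      right
      intro y hy
      have hstep' : Perc.OpenAdj ω (phi 0 0 (-b.1, b.2)) (phi 0 0 y) := by
        rw [hphi, hy]; exact hstep
      obtain ⟨e, he1, he2⟩ := open_adj hstep'
      have hy1 : y.2 ≤ -y.1 := by
        have : phi 0 0 y = c := hy
        rw [← this] at hc
        simpa [phi] using hc
      have hbT' := (hmem _).mp hbT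
      simp only at hbT'
      unfold onBX at hon
      simp only at hon
      have hyT : y ∈ T := by
        rw [hmem]
        obtain ⟨x, x', bb⟩ := e
        cases bb
        · simp only [src_mk, tgt_false] at he2
          rcases he2 with ⟨h1, h2⟩ | ⟨h1, h2⟩
          · rw [Prod.mk.injEq] at h1
            rw [← h2]; rw [← h2] at hy1
            simp only at hy1 ⊢
            omega
          · rw [Prod.mk.injEq] at h2
            rw [← h1]; rw [← h1] at hy1
            simp only at hy1 ⊢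
            omega
        · simp only [src_mk, tgt_true] at he2
          rcases he2 with ⟨h1, h2⟩ | ⟨h1, h2⟩
          · rw [Prod.mk.injEq] at h1
            rw [← h2]; rw [← h2] at hy1
            simp only at hy1 ⊢
            omega
          · rw [Prod.mk.injEq] at h2
            rw [← h1]; rw [← h1] at hy1
            simp only at hy1 ⊢
            omega
      refine ⟨hyT, hbR.tail ⟨e, ?_, he2⟩⟩
      rw [Finset.mem_coe, hF, mem_FO]
      refine ⟨?_, he1⟩
      rw [mem_ES]
      rcases he2 with ⟨h1, h2⟩ | ⟨h1, h2⟩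
      · rw [h1, h2]; exact ⟨hbT, hyT⟩
      · rw [h1, h2]; exact ⟨hyT, hbT⟩
  rcases key z hpath with h1 | h1
  · exact h1
  · obtain ⟨h2, _⟩ := h1 (-z.1, z.2) (by simp [phi])
    rw [hmem] at h2
    simp only at h2
    omega

/-- Upper bound of the arm probability by the one-arm probability of the half-plane. -/
theorem arm_le_HB {n : ℤ} (hn : 1 ≤ n) {L : ℕ} (hL : 2 * n + 4 ≤ (L : ℤ)) :
    Perc.perc.real (Perc.Arm L) ≤ 2 * armP (HB 1 1 n) n := by
  set T : Finset Vtx := (BX (-1, 0) (n + 1)).filter (fun y => y.1 + y.2 ≤ 0) with hT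
  have h1 : Perc.perc.real (Perc.Arm L) ≤
      Perc.perc.real {ω | armC T (-1, 0) (n + 1) (FO 0 0 (ES T) ω)} := by
    refine measureReal_mono ?_ (measure_ne_top _ _)
    intro ω hω
    exact arm_box (by omega) (by omega) hω
  rw [perc_event] at h1
  refine h1.trans ?_
  apply half_offset (a := 1) (b := 1) (by norm_num) hn
  · rw [hT, Finset.mem_filter, mem_BX]
    simp only
    omega
  · intro y hy
    rw [hT, Finset.mem_filter] at hy
    refine ⟨hy.1, ?_⟩
    have : ((y.1 + y.2 : ℤ) : ℝ) ≤ 0 := by exact_mod_cast hy.2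
    push_cast at this ⊢
    linarith

/-- Connection to a line inside a strip is contained in the arm event. -/
theorem line_arm {S : Finset Vtx} {n K : ℤ} (hS : ∀ y ∈ S, y.1 + y.2 ≤ 8 * n) {L : ℕ}
    (hL : (L : ℤ) = K + 1) {ω : Perc.Conf}
    (h : ∃ w : Vtx, w.1 + w.2 = 8 * n - K ∧
      Reach (↑(FO (4 * n + 1) (4 * n) (ES S) ω) : Set Edg) (4 * n, 4 * n) w) :
    ω ∈ Perc.Arm L := by
  obtain ⟨w, hw, hR⟩ := h
  refine ⟨phi (4 * n + 1) (4 * n) w, ?_, ?_⟩
  · simp only [phi]
    omega
  · have key : ∀ v : Vtx, Reach (↑(FO (4 * n + 1) (4 * n) (ES S) ω) : Set Edg) (4 * n, 4 * n) v →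
        Relation.ReflTransGen (fun a b => Perc.OpenAdj ω a b ∧ a.2 ≤ a.1 ∧ b.2 ≤ b.1) (1, 0)
          (phi (4 * n + 1) (4 * n) v) := by
      intro v hv
      induction hv with
      | refl =>
        have : phi (4 * n + 1) (4 * n) (4 * n, 4 * n) = (1, 0) := by
          simp only [phi]
          ext <;> simp
        rw [this]
      | tail hab hbc ih =>
        rename_i b c
        obtain ⟨e, he, hc⟩ := hbc
        rw [Finset.mem_coe, mem_FO, mem_ES] at he
        refine ih.tail ⟨adj_open he.2 hc, ?_, ?_⟩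
        · have hb : b ∈ S := by
            rcases hc with ⟨h1, h2⟩ | ⟨h1, h2⟩
            · rw [← h1]; exact he.1.1
            · rw [← h2]; exact he.1.2
          have := hS b hb
          simp only [phi]
          omega
        · have hb : c ∈ S := by
            rcases hc with ⟨h1, h2⟩ | ⟨h1, h2⟩
            · rw [← h2]; exact he.1.2
            · rw [← h1]; exact he.1.1
          have := hS c hb
          simp only [phi]
          omega
    exact key w hR

/-- A path from the corner region of the hypotenuse to the origin reaches the line inside the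
strip. -/
theorem strip_exit {S : Finset Vtx} {F : Finset Edg} (hF : F ⊆ ES S) {N : ℤ} {u v : Vtx}
    (hu : u ∈ S) (hu1 : N ≤ u.1 + u.2) (h : Reach (F : Set Edg) u v) (hv : v.1 + v.2 ≤ N) :
    ∃ w : Vtx, w.1 + w.2 = N ∧
      Reach (↑(F ∩ ES (S.filter (fun y => N ≤ y.1 + y.2))) : Set Edg) u w := by
  have key : ∀ z : Vtx, Reach (F : Set Edg) u z →
      (∃ w : Vtx, w.1 + w.2 = N ∧
        Reach (↑(F ∩ ES (S.filter (fun y => N ≤ y.1 + y.2))) : Set Edg) u w) ∨
      (N < z.1 + z.2 ∧ z ∈ S ∧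
        Reach (↑(F ∩ ES (S.filter (fun y => N ≤ y.1 + y.2))) : Set Edg) u z) := by
    intro z hz
    induction hz with
    | refl =>
      rcases eq_or_lt_of_le hu1 with h1 | h1
      · left
        exact ⟨u, h1.symm, Reach.refl _ _⟩
      · right
        exact ⟨h1, hu, Reach.refl _ _⟩
    | tail hab hbc ih =>
      rename_i b c
      rcases ih with ih | ⟨h1, h2, h3⟩
      · exact Or.inl ih
      obtain ⟨e, he, hc⟩ := hbc
      have he' := mem_ES.mp (hF (Finset.mem_coe.mp he))
      have hcS : c ∈ S := by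
        rcases hc with ⟨h4, h5⟩ | ⟨h4, h5⟩
        · rw [← h5]; exact he'.2
        · rw [← h4]; exact he'.1
      have hcN : N ≤ c.1 + c.2 := by
        obtain ⟨x, x', bb⟩ := e
        cases bb
        · simp only [src_mk, tgt_false] at hc
          rcases hc with ⟨h4, h5⟩ | ⟨h4, h5⟩
          · rw [← h4] at h1; rw [← h5]; simp only at h1 ⊢; omega
          · rw [← h5] at h1; rw [← h4]; simp only at h1 ⊢; omega
        · simp only [src_mk, tgt_true] at hc
          rcases hc with ⟨h4, h5⟩ | ⟨h4, h5⟩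
          · rw [← h4] at h1; rw [← h5]; simp only at h1 ⊢; omega
          · rw [← h5] at h1; rw [← h4]; simp only at h1 ⊢; omega
      have hR : Reach (↑(F ∩ ES (S.filter (fun y => N ≤ y.1 + y.2))) : Set Edg) u c := by
        refine h3.tail ⟨e, ?_, hc⟩
        rw [Finset.mem_coe, Finset.mem_inter]
        refine ⟨Finset.mem_coe.mp he, ?_⟩
        rw [mem_ES, Finset.mem_filter, Finset.mem_filter]
        rcases hc with ⟨h4, h5⟩ | ⟨h4, h5⟩
        · rw [h4, h5]; exact ⟨⟨h2, h1.le⟩, ⟨hcS, hcN⟩⟩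
        · rw [h4, h5]; exact ⟨⟨hcS, hcN⟩, ⟨h2, h1.le⟩⟩
      rcases eq_or_lt_of_le hcN with h4 | h4
      · left; exact ⟨c, h4.symm, hR⟩
      · right; exact ⟨h4, hcS, hR⟩
  rcases key v h with h1 | ⟨h1, _, _⟩
  · exact h1
  · omega

/-- Upper bound of the half-plane one-arm probability. -/
theorem HB_le_arm {n : ℤ} (hn : 10 ≤ n) {L : ℕ} (hL : (L : ℤ) = 5 * n + 1) :
    armP (HB 1 1 n) n * dlt ^ 5 ≤ Perc.perc.real (Perc.Arm L) := by
  obtain ⟨m, hm1, hm2, hm3⟩ : ∃ m : ℤ, 0 < m ∧ 8 * m + 2 ≤ n ∧ n ≤ 8 * m + 9 :=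
    ⟨(n - 2) / 8, by omega, by omega, by omega⟩
  set S := SR 1 1 (8 * n) with hSdef
  have hmS : ∀ y : Vtx, y ∈ S ↔ ((0 ≤ y.1 ∧ y.1 ≤ 8 * n) ∧ (0 ≤ y.2 ∧ y.2 ≤ 8 * n)) ∧
      y.1 + y.2 ≤ 8 * n := by
    intro y
    rw [hSdef, mem_SR]
    have : ((1 : ℝ) * (y.1 : ℝ) + 1 * (y.2 : ℝ) ≤ 1 * ((8 * n : ℤ) : ℝ)) ↔ y.1 + y.2 ≤ 8 * n := by
      rw [one_mul, one_mul, one_mul]
      exact_mod_cast Iff.rfl
    rw [this]
  have hY : Young S := young_SR (by norm_num) (by norm_num) (by omega)
  have hS : Steep S (4 * n) (4 * n) n := by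
    refine ⟨hY, ?_, ?_, ?_, ?_, by omega, by omega, by omega⟩
    · rw [hmS]; simp only; omega
    · rw [hmS]; simp only; omega
    · intro k h1 h2; rw [hmS]; simp only; omega
    · intro k h1 h2; rw [hmS]; simp only; omega
  have hlow : armP (QT n) n * armP (HB 1 1 n) n * dlt ^ 5 ≤ PS S (4 * n, 4 * n) := by
    refine conn_lower hS hm1 hm2 hm3 (by omega) (by omega) (by omega) ?_ (T := HB 1 1 n) ?_
    · intro x y hx0 hx hy0 hy
      rw [hmS]; simp only; omega
    · intro y hy
      rw [mem_shift, mem_HB] at hy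
      simp only at hy
      have h5 : (y.1 - 4 * n) + (y.2 - 4 * n) ≤ 0 := by
        have := hy.2
        rw [one_mul, one_mul] at this
        exact_mod_cast this
      rw [Finset.mem_inter, hmS, mem_BX]
      simp only
      omega
  -- upper bound
  set T2 : Finset Vtx := S.filter (fun y => 3 * n ≤ y.1 + y.2) with hT2
  have hQS : QT n ⊆ S := by
    intro y hy
    rw [mem_QT] at hy
    rw [hmS]; omega
  have hT2S : T2 ⊆ S := Finset.filter_subset _ _
  have hd : Disjoint (ES (QT n)) (ES T2) := by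
    rw [Finset.disjoint_left]
    intro e h1 h2
    have h3 := (mem_ES.mp h1).1
    have h4 := (mem_ES.mp h2).1
    rw [mem_QT] at h3
    rw [hT2, Finset.mem_filter] at h4
    omega
  set B : Finset Edg → Prop := fun F => ∃ w : Vtx, w.1 + w.2 = 8 * n - 5 * n ∧
    Reach (F : Set Edg) (4 * n, 4 * n) w with hB
  have i1 : PS S (4 * n, 4 * n) ≤ Pr (fun _ => (1/2 : ℝ)) (ES S)
      (fun F => armC (QT n) (0, 0) n (F ∩ ES (QT n)) ∧ B (F ∩ ES T2)) := by
    unfold PS
    apply Pr_mono okhalf
    intro F hF h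
    constructor
    · have hz : ((0, 0) : Vtx) ∈ S := hQS (by rw [mem_QT]; simp only; omega)
      have h5 := arm_exit hF (c := (0, 0)) (n := n) hz (by rw [mem_BX]; simp only; omega) h
        (by simp only; omega)
      have h6 : S ∩ BX (0, 0) n = QT n := by
        ext y
        rw [Finset.mem_inter, mem_BX, mem_QT, hmS]
        simp only
        omega
      rw [h6] at h5
      exact h5
    · have hx : ((4 * n, 4 * n) : Vtx) ∈ S := by rw [hmS]; simp only; omega
      obtain ⟨w, h7, h8⟩ := strip_exit hF (N := 3 * n) hx (by simp only; omega) h.symm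
        (by simp only; omega)
      exact ⟨w, by omega, h8⟩
  have i2 := Pr_indep' (ES_mono hQS) (ES_mono hT2S) hd (armC (QT n) (0, 0) n) B
  rw [i2] at i1
  have i3 : Pr (fun _ => (1/2 : ℝ)) (ES T2) B ≤ Perc.perc.real (Perc.Arm L) := by
    rw [← perc_event (4 * n + 1) (4 * n) (ES T2) B]
    refine measureReal_mono ?_ (measure_ne_top _ _)
    intro ω hω
    refine line_arm (S := T2) (n := n) (K := 5 * n) ?_ hL ?_
    · intro y hy
      exact ((hmS y).mp (hT2S hy)).2
    · exact hω
  have hQpos : 0 < armP (QT n) n := by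
    obtain ⟨h1, _⟩ := both_dir (a := 1) (b := 1) (Or.inl one_ne_zero) (n := n) (by omega)
    rcases eq_or_lt_of_le (armP_nonneg (QT n) n) with h | h
    · exfalso
      rw [← h, zero_mul, mul_zero] at h1
      norm_num at h1
    · exact h
  have h3 : armP (QT n) n * (armP (HB 1 1 n) n * dlt ^ 5) ≤
      armP (QT n) n * Perc.perc.real (Perc.Arm L) := by
    calc armP (QT n) n * (armP (HB 1 1 n) n * dlt ^ 5)
        = armP (QT n) n * armP (HB 1 1 n) n * dlt ^ 5 := by ring
      _ ≤ PS S (4 * n, 4 * n) := hlow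
      _ ≤ armP (QT n) n * Pr (fun _ => (1/2 : ℝ)) (ES T2) B := i1
      _ ≤ _ := mul_le_mul_of_nonneg_left i3 (armP_nonneg _ _)
  exact le_of_mul_le_mul_left h3 hQpos

end H973
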