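import Pool.Agent.H973R2.Conn

/-!
Growing the domain: the flux of the percolation functional vanishes.
-/

namespace H973

open H974 Finset

/-- Flux identity for a domain `S` with legs `used`, endpoints `ep`, coefficients `a`. -/
def FluxZero (N : ℕ) (S : Finset Vtx) (used : Finset ℕ) (ep : ℕ → Vtx) (a : ℕ → ℂ) : Prop :=
  ∃ (C : ℕ) (ν : Finset Edg → Vtx → ℕ),
    (∀ F ⊆ ES S, Rep S F (ν F) C ∧ NC used (fun p => ν F (ep p))) ∧
    ∀ X, ∑ F ∈ (ES S).powerset, Fl used a (psi N C used (fun p => ν F (ep p))) X = 0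

theorem sum_powerset_two {e1 e2 : Edg} {E0 : Finset Edg} (h12 : e1 ≠ e2) (h1 : e1 ∉ E0)
    (h2 : e2 ∉ E0) (f : Finset Edg → ℂ) :
    ∑ F ∈ (insert e1 (insert e2 E0)).powerset, f F =
      ∑ F ∈ E0.powerset, (f F + f (insert e2 F) + f (insert e1 F) + f (insert e1 (insert e2 F))) := by
  rw [Finset.sum_powerset_insert (by rw [Finset.mem_insert]; rintro (h | h); exact h12 h; exact h1 h),
    Finset.sum_powerset_insert h2, Finset.sum_powerset_insert h2]
  rw [← Finset.sum_add_distrib, ← Finset.sum_add_distrib, ← Finset.sum_add_distrib]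
  apply Finset.sum_congr rfl
  intros; ring

theorem Fl_add {used : Finset ℕ} {a : ℕ → ℂ} (ψ φ : (ℕ → M) → ℂ) (X : ℕ → M) :
    Fl used a (fun X => ψ X + φ X) X = Fl used a ψ X + Fl used a φ X := by
  unfold Fl
  rw [← Finset.sum_add_distrib]
  apply Finset.sum_congr rfl
  intros; ring

theorem Tint_sum {ι : Type*} (P : Finset ι) (φ : ι → (ℕ → M) → ℂ) (s : ℕ) (X : ℕ → M) :
    ∑ F ∈ P, Tint s (φ F) X = Tint s (fun X => ∑ F ∈ P, φ F X) X := by
  unfold Tint Tg
  simp only [Fin.sum_univ_two, Finset.sum_add_distrib, Finset.mul_sum]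

theorem Tint_zero (s : ℕ) (X : ℕ → M) : Tint s (fun _ => 0) X = 0 := by
  unfold Tint Tg
  simp

theorem Tax_sum {ι : Type*} (P : Finset ι) (φ : ι → (ℕ → M) → ℂ) (s t1 t2 t3 : ℕ) (X : ℕ → M) :
    ∑ F ∈ P, Tax s t1 t2 t3 (φ F) X = Tax s t1 t2 t3 (fun X => ∑ F ∈ P, φ F X) X := by
  unfold Tax Tg1
  simp only [Finset.sum_add_distrib, Finset.mul_sum]

theorem Tax_zero (s t1 t2 t3 : ℕ) (X : ℕ → M) : Tax s t1 t2 t3 (fun _ => 0) X = 0 := by
  unfold Tax Tg1
  simp

/-- Adding an interior vertex. -/
theorem FluxZero.interior {N : ℕ} {S : Finset Vtx} {used : Finset ℕ} {ep ep' : ℕ → Vtx}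
    {a a' : ℕ → ℂ} (h : FluxZero N S used ep a) {v u w : Vtx} {e1 e2 : Edg} {s : ℕ}
    (hv : v ∉ S) (hu : u ∈ S) (hw : w ∈ S)
    (he1 : src e1 = u ∧ tgt e1 = v) (he2 : src e2 = w ∧ tgt e2 = v) (he12 : e1 ≠ e2)
    (hES : ES (insert v S) = insert e1 (insert e2 (ES S)))
    (hs : s ∈ used) (hs1 : s + 1 ∈ used) (hN : s + 1 < N)
    (hep : ep s = u) (hep1 : ep (s + 1) = w)
    (hepS : ∀ p ∈ used, ep p ∈ S)
    (hep' : ∀ p, p ≠ s → p ≠ s + 1 → ep' p = ep p)
    (hep's : ep' s = v) (hep's1 : ep' (s + 1) = v)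
    (ha : ∀ r, r ≠ s → r ≠ s + 1 → a' r = a r)
    (h1 : a (s + 1) = (1 - q) * a s) (h2 : a' s = (1 - q) * a s) (h3 : a' (s + 1) = a s) :
    FluxZero N (insert v S) used ep' a' := by
  obtain ⟨C, ν, hB, hC⟩ := h
  have n1 : e1 ∉ ES S := fun h' => hv (he1.2 ▸ (mem_ES.mp h').2)
  have n2 : e2 ∉ ES S := fun h' => hv (he2.2 ▸ (mem_ES.mp h').2)
  -- the four labellings
  let ν0 : Finset Edg → Vtx → ℕ := fun F x => if x = v then C else ν F x
  let ν1 : Finset Edg → Vtx → ℕ := fun F x => if x = v then ν F u else ν F x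
  let ν2 : Finset Edg → Vtx → ℕ := fun F x => if x = v then ν F w else ν F x
  let ν3 : Finset Edg → Vtx → ℕ := fun F x =>
    if x = v then ν F u else if ν F x = ν F w then ν F u else ν F x
  let ν' : Finset Edg → Vtx → ℕ := fun G =>
    if e1 ∈ G then (if e2 ∈ G then ν3 ((G.erase e1).erase e2) else ν1 (G.erase e1))
    else (if e2 ∈ G then ν2 (G.erase e2) else ν0 G)
  have e0 : ∀ F ⊆ ES S, ν' F = ν0 F := by
    intro F hF
    have a1 : e1 ∉ F := fun h' => n1 (hF h')
    have a2 : e2 ∉ F := fun h' => n2 (hF h')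
    simp only [ν', a1, a2, if_false]
  have e1' : ∀ F ⊆ ES S, ν' (insert e1 F) = ν1 F := by
    intro F hF
    have a1 : e1 ∉ F := fun h' => n1 (hF h')
    have a2 : e2 ∉ F := fun h' => n2 (hF h')
    have a3 : e2 ∉ insert e1 F := by
      rw [Finset.mem_insert]; rintro (h' | h'); exact he12 h'.symm; exact a2 h'
    simp only [ν', Finset.mem_insert_self, if_true, a3, if_false, Finset.erase_insert a1]
  have e2' : ∀ F ⊆ ES S, ν' (insert e2 F) = ν2 F := by
    intro F hF
    have a1 : e1 ∉ F := fun h' => n1 (hF h')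
    have a2 : e2 ∉ F := fun h' => n2 (hF h')
    have a3 : e1 ∉ insert e2 F := by
      rw [Finset.mem_insert]; rintro (h' | h'); exact he12 h'; exact a1 h'
    simp only [ν', Finset.mem_insert_self, if_true, a3, if_false, Finset.erase_insert a2]
  have e3' : ∀ F ⊆ ES S, ν' (insert e1 (insert e2 F)) = ν3 F := by
    intro F hF
    have a1 : e1 ∉ F := fun h' => n1 (hF h')
    have a2 : e2 ∉ F := fun h' => n2 (hF h')
    have a3 : e1 ∉ insert e2 F := by
      rw [Finset.mem_insert]; rintro (h' | h'); exact he12 h'; exact a1 h'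
    have a4 : e2 ∈ insert e1 (insert e2 F) :=
      Finset.mem_insert_of_mem (Finset.mem_insert_self _ _)
    simp only [ν', Finset.mem_insert_self, if_true, a4, Finset.erase_insert a3,
      Finset.erase_insert a2]
  have hepv : ∀ p ∈ used, p ≠ s → p ≠ s + 1 → ep' p ≠ v := by
    intro p hp hp1 hp2 h'
    rw [hep' p hp1 hp2] at h'
    exact hv (h' ▸ hepS p hp)
  -- values of the new labellings on legs
  have l0 : ∀ F, (∀ p ∈ used, p ≠ s → p ≠ s + 1 → ν0 F (ep' p) = ν F (ep p)) ∧
      ν0 F (ep' s) = C ∧ ν0 F (ep' (s + 1)) = C := by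
    intro F
    refine ⟨fun p hp hp1 hp2 => ?_, ?_, ?_⟩
    · show (if ep' p = v then C else ν F (ep' p)) = _
      rw [if_neg (hepv p hp hp1 hp2), hep' p hp1 hp2]
    · simp only [ν0, hep's, if_true]
    · simp only [ν0, hep's1, if_true]
  have l1 : ∀ F, (∀ p ∈ used, p ≠ s → p ≠ s + 1 → ν1 F (ep' p) = ν F (ep p)) ∧
      ν1 F (ep' s) = ν F (ep s) ∧ ν1 F (ep' (s + 1)) = ν F (ep s) := by
    intro F
    refine ⟨fun p hp hp1 hp2 => ?_, ?_, ?_⟩
    · show (if ep' p = v then ν F u else ν F (ep' p)) = _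
      rw [if_neg (hepv p hp hp1 hp2), hep' p hp1 hp2]
    · simp only [ν1, hep's, if_true, hep]
    · simp only [ν1, hep's1, if_true, hep]
  have l2 : ∀ F, (∀ p ∈ used, p ≠ s → p ≠ s + 1 → ν2 F (ep' p) = ν F (ep p)) ∧
      ν2 F (ep' s) = ν F (ep (s + 1)) ∧ ν2 F (ep' (s + 1)) = ν F (ep (s + 1)) := by
    intro F
    refine ⟨fun p hp hp1 hp2 => ?_, ?_, ?_⟩
    · show (if ep' p = v then ν F w else ν F (ep' p)) = _
      rw [if_neg (hepv p hp hp1 hp2), hep' p hp1 hp2]
    · simp only [ν2, hep's, if_true, hep1]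
    · simp only [ν2, hep's1, if_true, hep1]
  have l3 : ∀ F, ∀ p ∈ used, ν3 F (ep' p) =
      if ν F (ep p) = ν F (ep (s + 1)) then ν F (ep s) else ν F (ep p) := by
    intro F p hp
    by_cases hp1 : p = s
    · subst hp1
      simp only [ν3, hep's, if_true, hep]
      split_ifs <;> rfl
    · by_cases hp2 : p = s + 1
      · subst hp2
        simp only [ν3, hep's1, if_true, hep]
      · show (if ep' p = v then ν F u else
            if ν F (ep' p) = ν F w then ν F u else ν F (ep' p)) = _
        rw [if_neg (hepv p hp hp1 hp2), hep' p hp1 hp2, hep, hep1]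
  have hlt : ∀ F ⊆ ES S, ∀ p ∈ used, ν F (ep p) < C := fun F hF p hp =>
    (hB F hF).1.1 _ (hepS p hp)
  refine ⟨C + 1, ν', ?_, ?_⟩
  · intro G hG
    rw [hES] at hG
    -- decompose `G`
    have hcase : ∃ F ⊆ ES S, G = F ∨ G = insert e1 F ∨ G = insert e2 F ∨
        G = insert e1 (insert e2 F) := by
      refine ⟨(G.erase e1).erase e2, ?_, ?_⟩
      · intro x hx
        rw [Finset.mem_erase, Finset.mem_erase] at hx
        have := hG hx.2.2
        rw [Finset.mem_insert, Finset.mem_insert] at this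
        rcases this with h' | h' | h'
        · exact absurd h' hx.2.1
        · exact absurd h' hx.1
        · exact h'
      · by_cases g1 : e1 ∈ G <;> by_cases g2 : e2 ∈ G
        · right; right; right
          rw [Finset.insert_erase (Finset.mem_erase.mpr ⟨he12.symm, g2⟩), Finset.insert_erase g1]
        · right; left
          rw [Finset.erase_eq_of_notMem (a := e2) (fun h' => g2 (Finset.mem_of_mem_erase h')),
            Finset.insert_erase g1]
        · right; right; left
          rw [Finset.erase_eq_of_notMem g1, Finset.insert_erase g2]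
        · left
          rw [Finset.erase_eq_of_notMem g1, Finset.erase_eq_of_notMem g2]
    have hlift : ∀ {F : Finset Edg} {μ : Vtx → ℕ}, Rep (insert v S) F μ C →
        Rep (insert v S) F μ (C + 1) := fun h' => ⟨fun x hx => (h'.1 x hx).trans (Nat.lt_succ_self _), h'.2⟩
    obtain ⟨F, hF, hG' | hG' | hG' | hG'⟩ := hcase
    · subst hG'
      rw [e0 G hF]
      obtain ⟨r1, r2⟩ := hB G hF
      refine ⟨r1.closed hv hF, ?_⟩
      refine nc_fresh (T := {s, s + 1}) (C := C) r2 ?_ ?_
      · intro t ht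
        rw [Finset.mem_insert, Finset.mem_singleton] at ht
        rcases ht with rfl | rfl
        · exact (l0 G).2.1
        · exact (l0 G).2.2
      · intro r hr hrT
        rw [Finset.mem_insert, Finset.mem_singleton] at hrT
        push Not at hrT
        refine ⟨hr, (l0 G).1 r hr hrT.1 hrT.2, ne_of_lt (hlt G hF r hr), ?_⟩
        rcases lt_or_gt_of_ne hrT.1 with h' | h'
        · left; intro t ht
          rw [Finset.mem_insert, Finset.mem_singleton] at ht
          omega
        · right; intro t ht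
          rw [Finset.mem_insert, Finset.mem_singleton] at ht
          have := hrT.2
          omega
    · subst hG'
      rw [e1' F hF]
      obtain ⟨r1, r2⟩ := hB F hF
      refine ⟨hlift (r1.open1 hv hF hu he1), ?_⟩
      refine nc_expand (T := {s, s + 1}) (s := s) hs r2 ?_ ?_
      · intro t ht
        rw [Finset.mem_insert, Finset.mem_singleton] at ht
        rcases ht with rfl | rfl
        · exact (l1 F).2.1
        · exact (l1 F).2.2
      · intro r hr hrT
        rw [Finset.mem_insert, Finset.mem_singleton] at hrT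
        push Not at hrT
        refine ⟨hr, (l1 F).1 r hr hrT.1 hrT.2, ?_⟩
        rcases lt_or_gt_of_ne hrT.1 with h' | h'
        · left; refine ⟨h', ?_⟩; intro t ht
          rw [Finset.mem_insert, Finset.mem_singleton] at ht
          omega
        · right; refine ⟨h', ?_⟩; intro t ht
          rw [Finset.mem_insert, Finset.mem_singleton] at ht
          have := hrT.2
          omega
    · subst hG'
      rw [e2' F hF]
      obtain ⟨r1, r2⟩ := hB F hF
      refine ⟨hlift (r1.open1 hv hF hw he2), ?_⟩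
      refine nc_expand (T := {s, s + 1}) (s := s + 1) hs1 r2 ?_ ?_
      · intro t ht
        rw [Finset.mem_insert, Finset.mem_singleton] at ht
        rcases ht with rfl | rfl
        · exact (l2 F).2.1
        · exact (l2 F).2.2
      · intro r hr hrT
        rw [Finset.mem_insert, Finset.mem_singleton] at hrT
        push Not at hrT
        refine ⟨hr, (l2 F).1 r hr hrT.1 hrT.2, ?_⟩
        rcases lt_or_gt_of_ne hrT.2 with h' | h'
        · left; refine ⟨h', ?_⟩; intro t ht
          rw [Finset.mem_insert, Finset.mem_singleton] at ht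
          have := hrT.1
          omega
        · right; refine ⟨h', ?_⟩; intro t ht
          rw [Finset.mem_insert, Finset.mem_singleton] at ht
          omega
    · subst hG'
      rw [e3' F hF]
      obtain ⟨r1, r2⟩ := hB F hF
      refine ⟨hlift (r1.both hv hF hu hw he1 he2), ?_⟩
      exact nc_merge (lab := fun p => ν F (ep p)) hs hs1 r2 (fun p hp => l3 F p hp)
  · intro X
    rw [hES, sum_powerset_two he12 n1 n2]
    have hterm : ∀ F ∈ (ES S).powerset,
        Fl used a' (psi N (C + 1) used (fun p => ν' F (ep' p))) X +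
        Fl used a' (psi N (C + 1) used (fun p => ν' (insert e2 F) (ep' p))) X +
        Fl used a' (psi N (C + 1) used (fun p => ν' (insert e1 F) (ep' p))) X +
        Fl used a' (psi N (C + 1) used (fun p => ν' (insert e1 (insert e2 F)) (ep' p))) X =
        Tint s (Fl used a (psi N C used (fun p => ν F (ep p)))) X := by
      intro F hF
      rw [Finset.mem_powerset] at hF
      have hcomm := Fl_Tint (used := used) (a := a) (a' := a') (s := s)
        (ψ := psi N C used (fun p => ν F (ep p))) hs hs1 ha h1 h2 h3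
        (fun X => psi_bilin hs hs1 hN (hlt F hF s hs) (hlt F hF (s + 1) hs1) X) X
      rw [← hcomm, ← Fl_add, ← Fl_add, ← Fl_add]
      congr 1
      funext Y
      rw [e0 F hF, e1' F hF, e2' F hF, e3' F hF]
      have b0 := psi_closed (N := N) (C := C) (lab := fun p => ν F (ep p))
        (lab' := fun p => ν0 F (ep' p)) hs hs1 hN (hlt F hF) (l0 F).2.1 (l0 F).2.2
        (fun p hp p1 p2 => (l0 F).1 p hp p1 p2) Y
      have b1 := psi_open1 (N := N) (C := C) (lab := fun p => ν F (ep p))
        (lab' := fun p => ν1 F (ep' p)) hs hs1 hN (l1 F).2.1 (l1 F).2.2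
        (fun p hp p1 p2 => (l1 F).1 p hp p1 p2) Y
      have b2 := psi_open2 (N := N) (C := C) (lab := fun p => ν F (ep p))
        (lab' := fun p => ν2 F (ep' p)) hs hs1 hN (l2 F).2.1 (l2 F).2.2
        (fun p hp p1 p2 => (l2 F).1 p hp p1 p2) Y
      have b3 := psi_both (N := N) (C := C) (lab := fun p => ν F (ep p))
        (lab' := fun p => ν3 F (ep' p)) hs hs1 hN (hlt F hF s hs) (hlt F hF (s + 1) hs1)
        (hB F hF).2 (fun p hp => l3 F p hp) Y
      have m1 : ∀ p ∈ used, ν1 F (ep' p) ≠ C := by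
        intro p hp
        by_cases p1 : p = s
        · subst p1; rw [(l1 F).2.1]; exact ne_of_lt (hlt F hF _ hp)
        · by_cases p2 : p = s + 1
          · subst p2; rw [(l1 F).2.2]; exact ne_of_lt (hlt F hF _ hs)
          · rw [(l1 F).1 p hp p1 p2]; exact ne_of_lt (hlt F hF _ hp)
      have m2 : ∀ p ∈ used, ν2 F (ep' p) ≠ C := by
        intro p hp
        by_cases p1 : p = s
        · subst p1; rw [(l2 F).2.1]; exact ne_of_lt (hlt F hF _ hs1)
        · by_cases p2 : p = s + 1
          · subst p2; rw [(l2 F).2.2]; exact ne_of_lt (hlt F hF _ hs1)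
          · rw [(l2 F).1 p hp p1 p2]; exact ne_of_lt (hlt F hF _ hp)
      have m3 : ∀ p ∈ used, ν3 F (ep' p) ≠ C := by
        intro p hp
        rw [l3 F p hp]
        split_ifs
        · exact ne_of_lt (hlt F hF _ hs)
        · exact ne_of_lt (hlt F hF _ hp)
      rw [b0, psi_succ m2, b2, psi_succ m1, b1, psi_succ m3, b3]
      unfold Tint Tg
      ring
    rw [Finset.sum_congr rfl hterm, Tint_sum]
    have : (fun X => ∑ F ∈ (ES S).powerset, Fl used a (psi N C used (fun p => ν F (ep p))) X) =
        fun _ => 0 := by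
      funext Y
      exact hC Y
    rw [this, Tint_zero]

/-- Adding a vertex on an axis. -/
theorem FluxZero.axis {N : ℕ} {S : Finset Vtx} {used : Finset ℕ} {ep ep' : ℕ → Vtx}
    {a a' : ℕ → ℂ} (h : FluxZero N S used ep a) {v u : Vtx} {e : Edg} {s t1 t2 t3 : ℕ}
    (hv : v ∉ S) (hu : u ∈ S) (he : src e = u ∧ tgt e = v)
    (hES : ES (insert v S) = insert e (ES S))
    (hs : s ∈ used) (h12 : t1 < t2) (h23 : t2 < t3) (hs1 : t1 ≤ s) (hs3 : s ≤ t3) (hN : t3 < N)
    (hgap : ∀ r ∈ used, r ≠ s → r < t1 ∨ t3 < r)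
    (hep : ep s = u)
    (hepS : ∀ p ∈ used, ep p ∈ S)
    (hep' : ∀ p ∈ used, p ≠ s → ep' p = ep p)
    (he1 : ep' t1 = v) (he2 : ep' t2 = v) (he3 : ep' t3 = v)
    (ha : ∀ r, (r < t1 ∨ t3 < r) → a' r = a r)
    (h1 : a' t1 = (1 - q) * a s) (h2 : a' t2 = a s) (h3 : a' t3 = q * a s) :
    FluxZero N (insert v S) (insert t1 (insert t2 (insert t3 (used.erase s)))) ep' a' := by
  obtain ⟨C, ν, hB, hC⟩ := h
  have n1 : e ∉ ES S := fun h' => hv (he.2 ▸ (mem_ES.mp h').2)
  let ν0 : Finset Edg → Vtx → ℕ := fun F x => if x = v then C else ν F x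
  let ν1 : Finset Edg → Vtx → ℕ := fun F x => if x = v then ν F u else ν F x
  let ν' : Finset Edg → Vtx → ℕ := fun G => if e ∈ G then ν1 (G.erase e) else ν0 G
  have e0 : ∀ F ⊆ ES S, ν' F = ν0 F := by
    intro F hF
    have a1 : e ∉ F := fun h' => n1 (hF h')
    simp only [ν', a1, if_false]
  have e1' : ∀ F ⊆ ES S, ν' (insert e F) = ν1 F := by
    intro F hF
    have a1 : e ∉ F := fun h' => n1 (hF h')
    simp only [ν', Finset.mem_insert_self, if_true, Finset.erase_insert a1]
  have hepv : ∀ p ∈ used, p ≠ s → ep' p ≠ v := by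
    intro p hp hp1 h'
    rw [hep' p hp hp1] at h'
    exact hv (h' ▸ hepS p hp)
  have l0 : ∀ F, (∀ p ∈ used, p ≠ s → ν0 F (ep' p) = ν F (ep p)) ∧
      ν0 F (ep' t1) = C ∧ ν0 F (ep' t2) = C ∧ ν0 F (ep' t3) = C := by
    intro F
    refine ⟨fun p hp hp1 => ?_, ?_, ?_, ?_⟩
    · show (if ep' p = v then C else ν F (ep' p)) = _
      rw [if_neg (hepv p hp hp1), hep' p hp hp1]
    · simp only [ν0, he1, if_true]
    · simp only [ν0, he2, if_true]
    · simp only [ν0, he3, if_true]
  have l1 : ∀ F, (∀ p ∈ used, p ≠ s → ν1 F (ep' p) = ν F (ep p)) ∧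
      ν1 F (ep' t1) = ν F (ep s) ∧ ν1 F (ep' t2) = ν F (ep s) ∧ ν1 F (ep' t3) = ν F (ep s) := by
    intro F
    refine ⟨fun p hp hp1 => ?_, ?_, ?_, ?_⟩
    · show (if ep' p = v then ν F u else ν F (ep' p)) = _
      rw [if_neg (hepv p hp hp1), hep' p hp hp1]
    · simp only [ν1, he1, if_true, hep]
    · simp only [ν1, he2, if_true, hep]
    · simp only [ν1, he3, if_true, hep]
  have hlt : ∀ F ⊆ ES S, ∀ p ∈ used, ν F (ep p) < C := fun F hF p hp =>
    (hB F hF).1.1 _ (hepS p hp)
  have hT : ∀ t, t ∈ ({t1, t2, t3} : Finset ℕ) ↔ t = t1 ∨ t = t2 ∨ t = t3 := by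
    intro t; simp only [Finset.mem_insert, Finset.mem_singleton]
  refine ⟨C + 1, ν', ?_, ?_⟩
  · intro G hG
    rw [hES] at hG
    have hlift : ∀ {F : Finset Edg} {μ : Vtx → ℕ}, Rep (insert v S) F μ C →
        Rep (insert v S) F μ (C + 1) := fun h' => ⟨fun x hx => (h'.1 x hx).trans (Nat.lt_succ_self _), h'.2⟩
    by_cases g1 : e ∈ G
    · have hF : G.erase e ⊆ ES S := by
        intro x hx
        rw [Finset.mem_erase] at hx
        exact (Finset.mem_insert.mp (hG hx.2)).resolve_left hx.1
      obtain ⟨F, hFG⟩ : ∃ F, F = G.erase e := ⟨_, rfl⟩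
      have hG' : G = insert e F := by rw [hFG, Finset.insert_erase g1]
      rw [← hFG] at hF
      subst hG'
      rw [e1' F hF]
      obtain ⟨r1, r2⟩ := hB F hF
      refine ⟨hlift (r1.open1 hv hF hu he), ?_⟩
      refine nc_expand (T := {t1, t2, t3}) (s := s) hs r2 ?_ ?_
      · intro t ht
        rcases (hT t).mp ht with rfl | rfl | rfl
        · exact (l1 F).2.1
        · exact (l1 F).2.2.1
        · exact (l1 F).2.2.2
      · intro r hr hrT
        rw [hT] at hrT
        push Not at hrT
        have hr' : r ≠ s ∧ r ∈ used := by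
          rcases mem_ins3.mp hr with h' | h' | h' | h'
          · exact absurd h' hrT.1
          · exact absurd h' hrT.2.1
          · exact absurd h' hrT.2.2
          · exact h'
        refine ⟨hr'.2, (l1 F).1 r hr'.2 hr'.1, ?_⟩
        rcases hgap r hr'.2 hr'.1 with h' | h'
        · left
          refine ⟨by omega, ?_⟩
          intro t ht
          rcases (hT t).mp ht with rfl | rfl | rfl <;> omega
        · right
          refine ⟨by omega, ?_⟩
          intro t ht
          rcases (hT t).mp ht with rfl | rfl | rfl <;> omega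
    · have hF : G ⊆ ES S := by
        intro x hx
        rcases Finset.mem_insert.mp (hG hx) with h' | h'
        · exact absurd (h' ▸ hx) g1
        · exact h'
      rw [e0 G hF]
      obtain ⟨r1, r2⟩ := hB G hF
      refine ⟨r1.closed hv hF, ?_⟩
      refine nc_fresh (T := {t1, t2, t3}) (C := C) r2 ?_ ?_
      · intro t ht
        rcases (hT t).mp ht with rfl | rfl | rfl
        · exact (l0 G).2.1
        · exact (l0 G).2.2.1
        · exact (l0 G).2.2.2
      · intro r hr hrT
        rw [hT] at hrT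
        push Not at hrT
        have hr' : r ≠ s ∧ r ∈ used := by
          rcases mem_ins3.mp hr with h' | h' | h' | h'
          · exact absurd h' hrT.1
          · exact absurd h' hrT.2.1
          · exact absurd h' hrT.2.2
          · exact h'
        refine ⟨hr'.2, (l0 G).1 r hr'.2 hr'.1, ne_of_lt (hlt G hF r hr'.2), ?_⟩
        rcases hgap r hr'.2 hr'.1 with h' | h'
        · left
          intro t ht
          rcases (hT t).mp ht with rfl | rfl | rfl <;> omega
        · right
          intro t ht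
          rcases (hT t).mp ht with rfl | rfl | rfl <;> omega
  · intro X
    rw [hES, Finset.sum_powerset_insert n1, ← Finset.sum_add_distrib]
    have hterm : ∀ F ∈ (ES S).powerset,
        Fl (insert t1 (insert t2 (insert t3 (used.erase s)))) a'
          (psi N (C + 1) (insert t1 (insert t2 (insert t3 (used.erase s))))
            (fun p => ν' F (ep' p))) X +
        Fl (insert t1 (insert t2 (insert t3 (used.erase s)))) a'
          (psi N (C + 1) (insert t1 (insert t2 (insert t3 (used.erase s))))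
            (fun p => ν' (insert e F) (ep' p))) X =
        Tax s t1 t2 t3 (Fl used a (psi N C used (fun p => ν F (ep p)))) X := by
      intro F hF
      rw [Finset.mem_powerset] at hF
      have hsN : s < N := by omega
      have hcomm := Fl_Tax (used := used) (a := a) (a' := a') (s := s) (t1 := t1) (t2 := t2)
        (t3 := t3) (ψ := psi N C used (fun p => ν F (ep p))) hs h12 h23 hs1 hs3 hgap ha h1 h2 h3
        (fun X Y hXY => psi_congr (fun p hp => hXY p (by
          by_cases hps : p = s
          · right; right; exact hps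
          · rcases hgap p hp hps with h' | h'
            · left; exact h'
            · right; left; exact h')))
        (fun X => psi_lin hs hsN (hlt F hF s hs) X) X
      rw [← hcomm, ← Fl_add]
      congr 1
      funext Y
      rw [e0 F hF, e1' F hF]
      have b0 := psi_ax_closed (N := N) (C := C) (lab := fun p => ν F (ep p))
        (lab' := fun p => ν0 F (ep' p)) h12 h23 hN hgap (hlt F hF) (l0 F).2.1 (l0 F).2.2.1
        (l0 F).2.2.2 (l0 F).1 Y
      have b1 := psi_ax_open (N := N) (C := C) (lab := fun p => ν F (ep p))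
        (lab' := fun p => ν1 F (ep' p)) hs h12 h23 hs1 hs3 hN hgap (l1 F).2.1 (l1 F).2.2.1
        (l1 F).2.2.2 (l1 F).1 Y
      have m1 : ∀ p ∈ insert t1 (insert t2 (insert t3 (used.erase s))), ν1 F (ep' p) ≠ C := by
        intro p hp
        rcases mem_ins3.mp hp with rfl | rfl | rfl | ⟨p1, p2⟩
        · rw [(l1 F).2.1]; exact ne_of_lt (hlt F hF _ hs)
        · rw [(l1 F).2.2.1]; exact ne_of_lt (hlt F hF _ hs)
        · rw [(l1 F).2.2.2]; exact ne_of_lt (hlt F hF _ hs)
        · rw [(l1 F).1 p p2 p1]; exact ne_of_lt (hlt F hF _ p2)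
      rw [b0, psi_succ m1, b1]
      unfold Tax Tg1
      ring
    rw [Finset.sum_congr rfl hterm, Tax_sum]
    have : (fun X => ∑ F ∈ (ES S).powerset, Fl used a (psi N C used (fun p => ν F (ep p))) X) =
        fun _ => 0 := by
      funext Y
      exact hC Y
    rw [this, Tax_zero]

end H973
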