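import Pool.Agent.H973R2.Base

/-!
Evaluation of the flux identity on a particular sequence of matrices: the two exact identities
for the connection probabilities of a Young diagram.
-/

namespace H973

open H974 Finset Matrix

theorem W_double {f : ℕ → M} {n a b : ℕ} (hab : a < b) (hb : b < n)
    (h : ∀ i, i < n → i ≠ a → i ≠ b → f i = 1) : W f n = f a * f b := by
  obtain ⟨k, rfl⟩ : ∃ k, n = b + 1 + k := ⟨n - (b + 1), by omega⟩
  rw [W_split1, W_one (n := k) (fun i hi => h _ (by omega) (by omega) (by omega)),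
    Matrix.mul_one, W_single hab (fun i hi hia => h i (by omega) hia (by omega))]

noncomputable def Y21 : M := !![0, 0; 1, 0]

/-- The test sequence: `Y21` on the leg `0`, identity elsewhere. -/
noncomputable def XX : ℕ → M := fun t => if t = 0 then Y21 else 1

theorem tq_dl_Y : tq (dl Y21) = 2 * q := by
  simp only [tq, dl, E, K, Y21, Matrix.sub_apply, Matrix.mul_apply, Fin.sum_univ_two]
  simp
  linear_combination (-1 : ℂ) * q_sq

theorem KYKi : K * Y21 * Ki = (-q) • Y21 := by
  ext i j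
  fin_cases i <;> fin_cases j <;>
    simp [K, Ki, Y21, Matrix.mul_apply, Fin.sum_univ_two]
  linear_combination q_sq

theorem tq_KYKi : tq (K * Y21 * Ki) = 0 := by
  rw [KYKi, tq_smul]
  simp [tq, Y21]

theorem tq_KYKi_dl : tq (K * Y21 * Ki * dl 1) = -(1 - q) := by
  rw [KYKi]
  simp only [tq, dl, E, K, Y21, Matrix.sub_apply, Matrix.mul_apply, Fin.sum_univ_two,
    Matrix.smul_apply, smul_eq_mul]
  simp
  linear_combination (1 - q) * q_sq

theorem tw_zero (t : ℕ) (ht : t ≠ 0) : tw 0 XX t = 1 := by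
  unfold tw XX
  rw [if_neg (by omega), if_neg ht, if_neg ht]

theorem tw_zero_zero : tw 0 XX 0 = dl Y21 := by
  unfold tw XX
  rw [if_neg (by omega), if_pos rfl, if_pos rfl]

theorem tw_pos_zero {r : ℕ} (hr : r ≠ 0) : tw r XX 0 = K * Y21 * Ki := by
  unfold tw XX
  rw [if_pos (by omega), if_pos rfl]

theorem tw_pos_self {r : ℕ} (hr : r ≠ 0) : tw r XX r = dl 1 := by
  unfold tw XX
  rw [if_neg (by omega), if_pos rfl, if_neg hr]

theorem tw_pos_other {r t : ℕ} (h1 : t ≠ 0) (h2 : t ≠ r) : tw r XX t = 1 := by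
  unfold tw XX
  rw [if_neg h1, Matrix.mul_one, K_mul_Ki, if_neg h2, ite_self]

theorem psi_zero_eval {N C : ℕ} {used : Finset ℕ} {lab : ℕ → ℕ} (h0 : 0 ∈ used) (hN : 0 < N)
    (hC : lab 0 < C) : psi N C used lab (tw 0 XX) = 2 * q := by
  unfold psi
  rw [Finset.prod_eq_single (lab 0)]
  · rw [W_single (s := 0) hN]
    · unfold blk
      rw [if_pos ⟨h0, rfl⟩, tw_zero_zero, tq_dl_Y]
    · intro i _ hi
      unfold blk
      split_ifs
      · exact tw_zero i hi
      · rfl
  · intro c _ hc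
    rw [W_one, tq_one]
    intro i _
    unfold blk
    split_ifs with h
    · refine tw_zero i ?_
      rintro rfl
      exact hc h.2.symm
    · rfl
  · intro h
    exact absurd (Finset.mem_range.mpr hC) h

theorem psi_pos_eval {N C : ℕ} {used : Finset ℕ} {lab : ℕ → ℕ} {r : ℕ} (h0 : 0 ∈ used)
    (hr0 : r ≠ 0) (hr : r ∈ used) (hN : r < N) (hC : lab 0 < C) :
    psi N C used lab (tw r XX) = if lab r = lab 0 then -(1 - q) else 0 := by
  unfold psi
  split_ifs with h
  · rw [Finset.prod_eq_single (lab 0)]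
    · rw [W_double (a := 0) (b := r) (by omega) hN]
      · unfold blk
        rw [if_pos ⟨h0, rfl⟩, if_pos ⟨hr, h⟩, tw_pos_zero hr0, tw_pos_self hr0, tq_KYKi_dl]
      · intro i _ h1 h2
        unfold blk
        split_ifs
        · exact tw_pos_other h1 h2
        · rfl
    · intro c _ hc
      rw [W_one, tq_one]
      intro i _
      unfold blk
      split_ifs with h'
      · refine tw_pos_other ?_ ?_
        · rintro rfl
          exact hc h'.2.symm
        · rintro rfl
          exact hc (h'.2.symm.trans h)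
      · rfl
    · intro h'
      exact absurd (Finset.mem_range.mpr hC) h'
  · apply Finset.prod_eq_zero (Finset.mem_range.mpr hC)
    rw [W_single (s := 0) (by omega)]
    · unfold blk
      rw [if_pos ⟨h0, rfl⟩, tw_pos_zero hr0, tq_KYKi]
    · intro i _ hi
      unfold blk
      split_ifs with h'
      · refine tw_pos_other hi ?_
        rintro rfl
        exact h h'.2
      · rfl

theorem q_ne_neg_one : -q ≠ 1 := by
  intro h
  have h1 : q = -1 := by linear_combination -h
  have := q_sq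
  rw [h1] at this
  norm_num at this

theorem neg_q_ne_one_sub : -q ≠ 1 - q := by
  intro h
  have : (0 : ℂ) = 1 := by linear_combination h
  norm_num at this

theorem neg_q_ne_q : -q ≠ q := by
  intro h
  apply q_ne_zero
  linear_combination (-1 / 2 : ℂ) * h

theorem one_sub_ne_q : 1 - q ≠ q := by
  intro h
  have h1 : q = 1 / 2 := by linear_combination (-1 / 2 : ℂ) * h
  have := q_sq
  rw [h1] at this
  norm_num at this

theorem one_ne_q : (1 : ℂ) ≠ q := by
  intro h
  have := q_sq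
  rw [← h] at this
  norm_num at this

theorem sum_legs {n : ℕ} {S : Finset Vtx} {used : Finset ℕ} {ep : ℕ → Vtx} {a : ℕ → ℂ}
    (h : Legs n S used ep a) (f : Vtx → ℂ) :
    ∑ r ∈ used, a r * f (ep r) =
      (-q) * ∑ x ∈ S.filter (fun x => x.1 = 0), f x +
      (1 - q) * ∑ x ∈ S.filter (fun x => (x.1, x.2 + 1) ∉ S), f x +
      ∑ x ∈ S.filter (fun x => (x.1 + 1, x.2) ∉ S), f x +
      q * ∑ x ∈ S.filter (fun x => x.2 = 0), f x := by
  have hused : used = (S.filter (fun x => x.1 = 0)).image pL ∪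
      ((S.filter (fun x => (x.1, x.2 + 1) ∉ S)).image (pU n) ∪
      ((S.filter (fun x => (x.1 + 1, x.2) ∉ S)).image (pR n) ∪
      (S.filter (fun x => x.2 = 0)).image (pD n))) := by
    ext r
    simp only [Finset.mem_union, Finset.mem_image, Finset.mem_filter]
    constructor
    · intro hr
      rcases h.l5 r hr with ⟨x, hx, h1, h2⟩ | ⟨x, hx, h1, h2⟩ | ⟨x, hx, h1, h2⟩ | ⟨x, hx, h1, h2⟩
      · left; exact ⟨x, ⟨hx, h1⟩, h2.symm⟩
      · right; left; exact ⟨x, ⟨hx, h1⟩, h2.symm⟩
      · right; right; left; exact ⟨x, ⟨hx, h1⟩, h2.symm⟩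
      · right; right; right; exact ⟨x, ⟨hx, h1⟩, h2.symm⟩
    · rintro (⟨x, ⟨hx, h1⟩, rfl⟩ | ⟨x, ⟨hx, h1⟩, rfl⟩ | ⟨x, ⟨hx, h1⟩, rfl⟩ | ⟨x, ⟨hx, h1⟩, rfl⟩)
      · exact (h.l1 x hx h1).1
      · exact (h.l2 x hx h1).1
      · exact (h.l3 x hx h1).1
      · exact (h.l4 x hx h1).1
  have aL : ∀ r ∈ (S.filter (fun x => x.1 = 0)).image pL, a r = -q := by
    intro r hr
    obtain ⟨x, hx, rfl⟩ := Finset.mem_image.mp hr
    rw [Finset.mem_filter] at hx
    exact (h.l1 x hx.1 hx.2).2.2
  have aU : ∀ r ∈ (S.filter (fun x => (x.1, x.2 + 1) ∉ S)).image (pU n), a r = 1 - q := by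
    intro r hr
    obtain ⟨x, hx, rfl⟩ := Finset.mem_image.mp hr
    rw [Finset.mem_filter] at hx
    exact (h.l2 x hx.1 hx.2).2.2
  have aR : ∀ r ∈ (S.filter (fun x => (x.1 + 1, x.2) ∉ S)).image (pR n), a r = 1 := by
    intro r hr
    obtain ⟨x, hx, rfl⟩ := Finset.mem_image.mp hr
    rw [Finset.mem_filter] at hx
    exact (h.l3 x hx.1 hx.2).2.2
  have aD : ∀ r ∈ (S.filter (fun x => x.2 = 0)).image (pD n), a r = q := by
    intro r hr
    obtain ⟨x, hx, rfl⟩ := Finset.mem_image.mp hr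
    rw [Finset.mem_filter] at hx
    exact (h.l4 x hx.1 hx.2).2.2
  rw [hused, Finset.sum_union, Finset.sum_union, Finset.sum_union, Finset.sum_image,
    Finset.sum_image, Finset.sum_image, Finset.sum_image]
  · rw [Finset.mul_sum, Finset.mul_sum, Finset.mul_sum]
    have e1 : ∑ x ∈ S.filter (fun x => x.1 = 0), a (pL x) * f (ep (pL x)) =
        ∑ x ∈ S.filter (fun x => x.1 = 0), -q * f x := by
      apply Finset.sum_congr rfl
      intro x hx
      rw [Finset.mem_filter] at hx
      obtain ⟨_, h2, h3⟩ := h.l1 x hx.1 hx.2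
      rw [h2, h3]
    have e2 : ∑ x ∈ S.filter (fun x => (x.1, x.2 + 1) ∉ S), a (pU n x) * f (ep (pU n x)) =
        ∑ x ∈ S.filter (fun x => (x.1, x.2 + 1) ∉ S), (1 - q) * f x := by
      apply Finset.sum_congr rfl
      intro x hx
      rw [Finset.mem_filter] at hx
      obtain ⟨_, h2, h3⟩ := h.l2 x hx.1 hx.2
      rw [h2, h3]
    have e3 : ∑ x ∈ S.filter (fun x => (x.1 + 1, x.2) ∉ S), a (pR n x) * f (ep (pR n x)) =
        ∑ x ∈ S.filter (fun x => (x.1 + 1, x.2) ∉ S), f x := by
      apply Finset.sum_congr rfl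
      intro x hx
      rw [Finset.mem_filter] at hx
      obtain ⟨_, h2, h3⟩ := h.l3 x hx.1 hx.2
      rw [h2, h3, one_mul]
    have e4 : ∑ x ∈ S.filter (fun x => x.2 = 0), a (pD n x) * f (ep (pD n x)) =
        ∑ x ∈ S.filter (fun x => x.2 = 0), q * f x := by
      apply Finset.sum_congr rfl
      intro x hx
      rw [Finset.mem_filter] at hx
      obtain ⟨_, h2, h3⟩ := h.l4 x hx.1 hx.2
      rw [h2, h3]
    rw [e1, e2, e3, e4]
    ring
  · intro x hx y hy hxy
    rw [Finset.mem_coe, Finset.mem_filter] at hx hy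
    rw [← (h.l4 x hx.1 hx.2).2.1, ← (h.l4 y hy.1 hy.2).2.1, hxy]
  · intro x hx y hy hxy
    rw [Finset.mem_coe, Finset.mem_filter] at hx hy
    rw [← (h.l3 x hx.1 hx.2).2.1, ← (h.l3 y hy.1 hy.2).2.1, hxy]
  · intro x hx y hy hxy
    rw [Finset.mem_coe, Finset.mem_filter] at hx hy
    rw [← (h.l2 x hx.1 hx.2).2.1, ← (h.l2 y hy.1 hy.2).2.1, hxy]
  · intro x hx y hy hxy
    rw [Finset.mem_coe, Finset.mem_filter] at hx hy
    rw [← (h.l1 x hx.1 hx.2).2.1, ← (h.l1 y hy.1 hy.2).2.1, hxy]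
  · rw [Finset.disjoint_left]
    intro r h1 h2
    exact one_ne_q ((aR r h1).symm.trans (aD r h2))
  · rw [Finset.disjoint_left]
    intro r h1 h2
    rcases Finset.mem_union.mp h2 with h2 | h2
    · exact one_sub_q_ne_one ((aU r h1).symm.trans (aR r h2))
    · exact one_sub_ne_q ((aU r h1).symm.trans (aD r h2))
  · rw [Finset.disjoint_left]
    intro r h1 h2
    rcases Finset.mem_union.mp h2 with h2 | h2
    · exact neg_q_ne_one_sub ((aL r h1).symm.trans (aU r h2))
    · rcases Finset.mem_union.mp h2 with h2 | h2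
      · exact q_ne_neg_one ((aL r h1).symm.trans (aR r h2))
      · exact neg_q_ne_q ((aL r h1).symm.trans (aD r h2))

end H973
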