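import Pool.Agent.H973R2.Psi

/-!
Behaviour of the functional and of noncrossing labellings when a vertex is added.
-/

namespace H973

open Matrix Finset

theorem W_single {f : ℕ → M} {n s : ℕ} (hs : s < n) (h : ∀ i, i < n → i ≠ s → f i = 1) :
    W f n = f s := by
  obtain ⟨k, rfl⟩ : ∃ k, n = s + 1 + k := ⟨n - (s + 1), by omega⟩
  rw [W_split1, W_one (fun i hi => h i (by omega) (by omega)),
    W_one (fun i hi => h _ (by omega) (by omega)), Matrix.one_mul, Matrix.mul_one]

theorem W_triple {f : ℕ → M} {n a b c : ℕ} (hab : a < b) (hbc : b < c) (hc : c < n)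
    (h : ∀ i, i < n → i ≠ a → i ≠ b → i ≠ c → f i = 1) : W f n = f a * f b * f c := by
  obtain ⟨k, rfl⟩ : ∃ k, n = c + 1 + k := ⟨n - (c + 1), by omega⟩
  rw [W_split1, W_one (n := k) (fun i hi => h _ (by omega) (by omega) (by omega) (by omega)),
    Matrix.mul_one]
  obtain ⟨l, rfl⟩ : ∃ l, c = b + 1 + l := ⟨c - (b + 1), by omega⟩
  rw [W_split1, W_one (n := l) (fun i hi => h _ (by omega) (by omega) (by omega) (by omega)),
    Matrix.mul_one, W_single hab (fun i hi hia => h i (by omega) hia (by omega) (by omega))]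

theorem W_interval {f g : ℕ → M} {t1 t3 N : ℕ} (h13 : t1 ≤ t3) (hN : t3 < N)
    (h : ∀ p, (p < t1 ∨ t3 < p) → f p = g p)
    (h2 : W (fun i => f (t1 + i)) (t3 + 1 - t1) = W (fun i => g (t1 + i)) (t3 + 1 - t1)) :
    W f N = W g N := by
  obtain ⟨m, hm⟩ : ∃ m, t3 + 1 - t1 = m := ⟨_, rfl⟩
  rw [hm] at h2
  obtain ⟨k, rfl⟩ : ∃ k, N = t1 + m + k := ⟨N - (t1 + m), by omega⟩
  rw [W_add, W_add f t1 m, W_add g (t1 + m) k, W_add g t1 m, h2,
    W_congr (f := f) (g := g) (fun i hi => h i (by omega))]
  congr 1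
  exact W_congr (fun i hi => h _ (by omega))

theorem mem_ins3 {t1 t2 t3 s p : ℕ} {used : Finset ℕ} :
    p ∈ insert t1 (insert t2 (insert t3 (used.erase s))) ↔
      p = t1 ∨ p = t2 ∨ p = t3 ∨ (p ≠ s ∧ p ∈ used) := by
  simp only [Finset.mem_insert, Finset.mem_erase]

theorem psi_ax_closed {N C : ℕ} {used : Finset ℕ} {lab lab' : ℕ → ℕ} {s t1 t2 t3 : ℕ}
    (h12 : t1 < t2) (h23 : t2 < t3) (hN : t3 < N)
    (hgap : ∀ r ∈ used, r ≠ s → r < t1 ∨ t3 < r)
    (hlt : ∀ p ∈ used, lab p < C)
    (h1 : lab' t1 = C) (h2 : lab' t2 = C) (h3 : lab' t3 = C)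
    (h : ∀ p ∈ used, p ≠ s → lab' p = lab p) (X : ℕ → M) :
    psi N (C + 1) (insert t1 (insert t2 (insert t3 (used.erase s)))) lab' X =
      tq (X t1 * X t2 * X t3) * psi N C used lab (upd1 X s 1) := by
  unfold psi
  rw [Finset.prod_range_succ, mul_comm]
  congr 1
  · congr 1
    rw [W_triple h12 h23 hN]
    · unfold blk
      rw [if_pos ⟨mem_ins3.mpr (Or.inl rfl), h1⟩, if_pos ⟨mem_ins3.mpr (Or.inr (Or.inl rfl)), h2⟩,
        if_pos ⟨mem_ins3.mpr (Or.inr (Or.inr (Or.inl rfl))), h3⟩]
    · intro i _ n1 n2 n3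
      unfold blk
      rw [if_neg]
      rintro ⟨hu, hl⟩
      rcases mem_ins3.mp hu with e | e | e | ⟨e, e'⟩
      · exact n1 e
      · exact n2 e
      · exact n3 e
      · rw [h i e' e] at hl
        exact absurd (hlt i e') (by omega)
  · apply Finset.prod_congr rfl
    intro c hc
    rw [Finset.mem_range] at hc
    congr 1
    apply W_congr
    intro p _
    unfold blk upd1
    by_cases e1 : p = t1
    · subst e1
      rw [if_neg (by rw [h1]; omega)]
      by_cases e2 : p = s
      · simp [e2]
      · rw [if_neg e2, if_neg]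
        rintro ⟨hu, _⟩
        have := hgap p hu e2
        omega
    by_cases e2 : p = t2
    · subst e2
      rw [if_neg (by rw [h2]; omega)]
      by_cases e2 : p = s
      · simp [e2]
      · rw [if_neg e2, if_neg]
        rintro ⟨hu, _⟩
        have := hgap p hu e2
        omega
    by_cases e3 : p = t3
    · subst e3
      rw [if_neg (by rw [h3]; omega)]
      by_cases e2 : p = s
      · simp [e2]
      · rw [if_neg e2, if_neg]
        rintro ⟨hu, _⟩
        have := hgap p hu e2
        omega
    by_cases e4 : p = s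
    · rw [if_neg]
      · simp [e4]
      · rintro ⟨hu, _⟩
        rcases mem_ins3.mp hu with e | e | e | ⟨e, e'⟩
        · exact e1 e
        · exact e2 e
        · exact e3 e
        · exact e e4
    · by_cases hu : p ∈ used
      · rw [h p hu e4, if_neg e4]
        have : p ∈ insert t1 (insert t2 (insert t3 (used.erase s))) :=
          mem_ins3.mpr (Or.inr (Or.inr (Or.inr ⟨e4, hu⟩)))
        simp only [this, hu]
      · rw [if_neg, if_neg (fun h => hu h.1)]
        rintro ⟨hu', _⟩
        rcases mem_ins3.mp hu' with e | e | e | ⟨e, e'⟩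
        · exact e1 e
        · exact e2 e
        · exact e3 e
        · exact hu e'

theorem psi_ax_open {N C : ℕ} {used : Finset ℕ} {lab lab' : ℕ → ℕ} {s t1 t2 t3 : ℕ}
    (hs : s ∈ used) (h12 : t1 < t2) (h23 : t2 < t3) (hs1 : t1 ≤ s) (hs3 : s ≤ t3) (hN : t3 < N)
    (hgap : ∀ r ∈ used, r ≠ s → r < t1 ∨ t3 < r)
    (h1 : lab' t1 = lab s) (h2 : lab' t2 = lab s) (h3 : lab' t3 = lab s)
    (h : ∀ p ∈ used, p ≠ s → lab' p = lab p) (X : ℕ → M) :
    psi N C (insert t1 (insert t2 (insert t3 (used.erase s)))) lab' X =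
      psi N C used lab (upd1 X s (X t1 * X t2 * X t3)) := by
  unfold psi
  apply Finset.prod_congr rfl
  intro c _
  congr 1
  apply W_interval (show t1 ≤ t3 by omega) hN
  · intro p hp
    unfold blk upd1
    have e4 : p ≠ s := by rintro rfl; omega
    rw [if_neg e4]
    by_cases hu : p ∈ used
    · rw [h p hu e4]
      have : p ∈ insert t1 (insert t2 (insert t3 (used.erase s))) :=
        mem_ins3.mpr (Or.inr (Or.inr (Or.inr ⟨e4, hu⟩)))
      simp only [this, hu]
    · rw [if_neg, if_neg (fun h => hu h.1)]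
      rintro ⟨hu', _⟩
      rcases mem_ins3.mp hu' with e | e | e | ⟨e, e'⟩
      · omega
      · omega
      · omega
      · exact hu e'
  · have q1 : t1 + (s - t1) = s := by omega
    have q2 : t1 + (t2 - t1) = t2 := by omega
    have q3 : t1 + (t3 - t1) = t3 := by omega
    rw [W_triple (a := 0) (b := t2 - t1) (c := t3 - t1) (by omega) (by omega) (by omega),
      W_single (s := s - t1) (by omega)]
    · simp only [q1, q2, q3, Nat.add_zero]
      unfold blk upd1
      have m1 : t1 ∈ insert t1 (insert t2 (insert t3 (used.erase s))) := mem_ins3.mpr (Or.inl rfl)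
      have m2 : t2 ∈ insert t1 (insert t2 (insert t3 (used.erase s))) :=
        mem_ins3.mpr (Or.inr (Or.inl rfl))
      have m3 : t3 ∈ insert t1 (insert t2 (insert t3 (used.erase s))) :=
        mem_ins3.mpr (Or.inr (Or.inr (Or.inl rfl)))
      simp only [m1, m2, m3, h1, h2, h3, hs, true_and, if_true]
      by_cases hc : lab s = c
      · simp [hc]
      · simp [hc]
    · intro i hi hne
      unfold blk
      rw [if_neg]
      rintro ⟨hu, _⟩
      have := hgap _ hu (by omega)
      omega
    · intro i hi n1 n2 n3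
      unfold blk
      rw [if_neg]
      rintro ⟨hu, _⟩
      rcases mem_ins3.mp hu with e | e | e | ⟨e, e'⟩
      · omega
      · omega
      · omega
      · have := hgap _ e' e
        omega

/-! ### Noncrossing labellings -/

/-- General expansion lemma: the legs of `T` occupy one gap of the remaining legs, in which
the old leg `s` was located, and have the label of `s`. -/
theorem nc_expand {used used' : Finset ℕ} {lab lab' : ℕ → ℕ} {s : ℕ} {T : Finset ℕ}
    (hs : s ∈ used) (hnc : NC used lab)
    (hT : ∀ t ∈ T, lab' t = lab s)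
    (h : ∀ r ∈ used', r ∉ T → r ∈ used ∧ lab' r = lab r ∧
      ((r < s ∧ ∀ t ∈ T, r < t) ∨ (s < r ∧ ∀ t ∈ T, t < r))) : NC used' lab' := by
  intro i hi j hj k hk l hl hij hjk hkl hik hjl
  by_cases ti : i ∈ T <;> by_cases tj : j ∈ T <;> by_cases tk : k ∈ T <;> by_cases tl : l ∈ T
  · rw [hT i ti, hT j tj]
  · rw [hT i ti, hT j tj]
  · rw [hT i ti, hT j tj]
  · rw [hT i ti, hT j tj]
  · rw [hjl, hT i ti, hT l tl]
  · obtain ⟨a1, a2, a3⟩ := h j hj tj
    rcases a3 with ⟨_, a4⟩ | ⟨_, a4⟩
    · have := a4 i ti; omega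
    · have := a4 k tk; omega
  · rw [hjl, hT i ti, hT l tl]
  · obtain ⟨a1, a2, a3⟩ := h j hj tj
    obtain ⟨b1, b2, b3⟩ := h k hk tk
    obtain ⟨c1, c2, c3⟩ := h l hl tl
    rw [hT i ti, a2]
    rw [hT i ti, b2] at hik
    rw [a2, c2] at hjl
    refine hnc s hs j a1 k b1 l c1 ?_ hjk hkl hik hjl
    rcases a3 with ⟨_, a4⟩ | ⟨a5, a4⟩
    · have := a4 i ti; omega
    · exact a5
  · rw [hik, hT k tk, hT j tj]
  · rw [hik, hT k tk, hT j tj]
  · obtain ⟨a1, a2, a3⟩ := h k hk tk
    rcases a3 with ⟨_, a4⟩ | ⟨_, a4⟩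
    · have := a4 j tj; omega
    · have := a4 l tl; omega
  · obtain ⟨a1, a2, a3⟩ := h i hi ti
    obtain ⟨b1, b2, b3⟩ := h k hk tk
    obtain ⟨c1, c2, c3⟩ := h l hl tl
    rw [a2, hT j tj]
    rw [a2, b2] at hik
    rw [hT j tj, c2] at hjl
    refine hnc i a1 s hs k b1 l c1 ?_ ?_ hkl hik hjl
    · rcases a3 with ⟨a5, a4⟩ | ⟨a5, a4⟩
      · exact a5
      · have := a4 j tj; omega
    · rcases b3 with ⟨a5, a4⟩ | ⟨a5, a4⟩
      · have := a4 j tj; omega
      · exact a5
  · rw [hik, hjl, hT k tk, hT l tl]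
  · obtain ⟨a1, a2, a3⟩ := h i hi ti
    obtain ⟨b1, b2, b3⟩ := h j hj tj
    obtain ⟨c1, c2, c3⟩ := h l hl tl
    rw [a2, b2]
    rw [a2, hT k tk] at hik
    rw [b2, c2] at hjl
    refine hnc i a1 j b1 s hs l c1 hij ?_ ?_ hik hjl
    · rcases b3 with ⟨a5, a4⟩ | ⟨a5, a4⟩
      · exact a5
      · have := a4 k tk; omega
    · rcases c3 with ⟨a5, a4⟩ | ⟨a5, a4⟩
      · have := a4 k tk; omega
      · exact a5
  · obtain ⟨a1, a2, a3⟩ := h i hi ti
    obtain ⟨b1, b2, b3⟩ := h j hj tj
    obtain ⟨c1, c2, c3⟩ := h k hk tk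
    rw [a2, b2]
    rw [a2, c2] at hik
    rw [b2, hT l tl] at hjl
    refine hnc i a1 j b1 k c1 s hs hij hjk ?_ hik hjl
    rcases c3 with ⟨a5, a4⟩ | ⟨a5, a4⟩
    · exact a5
    · have := a4 l tl; omega
  · obtain ⟨a1, a2, a3⟩ := h i hi ti
    obtain ⟨b1, b2, b3⟩ := h j hj tj
    obtain ⟨c1, c2, c3⟩ := h k hk tk
    obtain ⟨d1, d2, d3⟩ := h l hl tl
    rw [a2, b2]
    rw [a2, c2] at hik
    rw [b2, d2] at hjl
    exact hnc i a1 j b1 k c1 l d1 hij hjk hkl hik hjl

/-- A new isolated block occupying one gap. -/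
theorem nc_fresh {used used' : Finset ℕ} {lab lab' : ℕ → ℕ} {C : ℕ} {T : Finset ℕ}
    (hnc : NC used lab) (hT : ∀ t ∈ T, lab' t = C)
    (h : ∀ r ∈ used', r ∉ T → r ∈ used ∧ lab' r = lab r ∧ lab r ≠ C ∧
      ((∀ t ∈ T, r < t) ∨ (∀ t ∈ T, t < r))) : NC used' lab' := by
  intro i hi j hj k hk l hl hij hjk hkl hik hjl
  by_cases ti : i ∈ T
  · by_cases tk : k ∈ T
    · by_cases tj : j ∈ T
      · rw [hT i ti, hT j tj]
      · obtain ⟨_, _, _, a3⟩ := h j hj tj
        rcases a3 with a4 | a4
        · have := a4 i ti; omega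
        · have := a4 k tk; omega
    · obtain ⟨_, a2, a3, _⟩ := h k hk tk
      rw [hT i ti, a2] at hik
      exact absurd hik.symm a3
  · by_cases tk : k ∈ T
    · obtain ⟨_, a2, a3, _⟩ := h i hi ti
      rw [hT k tk, a2] at hik
      exact absurd hik a3
    · by_cases tj : j ∈ T
      · by_cases tl : l ∈ T
        · obtain ⟨_, _, _, a3⟩ := h k hk tk
          rcases a3 with a4 | a4
          · have := a4 j tj; omega
          · have := a4 l tl; omega
        · obtain ⟨_, a2, a3, _⟩ := h l hl tl
          rw [hT j tj, a2] at hjl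
          exact absurd hjl.symm a3
      · by_cases tl : l ∈ T
        · obtain ⟨_, a2, a3, _⟩ := h j hj tj
          rw [hT l tl, a2] at hjl
          exact absurd hjl a3
        · obtain ⟨a1, a2, _⟩ := h i hi ti
          obtain ⟨b1, b2, _⟩ := h j hj tj
          obtain ⟨c1, c2, _⟩ := h k hk tk
          obtain ⟨d1, d2, _⟩ := h l hl tl
          rw [a2, b2]
          rw [a2, c2] at hik
          rw [b2, d2] at hjl
          exact hnc i a1 j b1 k c1 l d1 hij hjk hkl hik hjl

/-- Merging the blocks of two adjacent legs. -/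
theorem nc_merge {used : Finset ℕ} {lab lab' : ℕ → ℕ} {s : ℕ} (hs : s ∈ used)
    (hs1 : s + 1 ∈ used) (hnc : NC used lab)
    (h : ∀ p ∈ used, lab' p = if lab p = lab (s + 1) then lab s else lab p) :
    NC used lab' := by
  -- the possible labels of merged legs
  have hm : ∀ p ∈ used, ∀ r ∈ used, lab' p = lab' r →
      lab p = lab r ∨ ((lab p = lab s ∨ lab p = lab (s + 1)) ∧
        (lab r = lab s ∨ lab r = lab (s + 1))) := by
    intro p hp r hr hpr
    rw [h p hp, h r hr] at hpr
    split_ifs at hpr with h1 h2 h2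
    · left; rw [h1, h2]
    · right; exact ⟨Or.inr h1, Or.inl hpr.symm⟩
    · right; exact ⟨Or.inl hpr, Or.inr h2⟩
    · left; exact hpr
  have hxy : ∀ p ∈ used, (lab p = lab s ∨ lab p = lab (s + 1)) → lab' p = lab s := by
    intro p hp h1
    rw [h p hp]
    rcases h1 with h1 | h1
    · split_ifs with h2
      · rfl
      · exact h1
    · rw [if_pos h1]
  intro i hi j hj k hk l hl hij hjk hkl hik hjl
  rcases hm i hi k hk hik with h1 | ⟨h1, h2⟩
  · rcases hm j hj l hl hjl with h3 | ⟨h3, h4⟩
    · have := hnc i hi j hj k hk l hl hij hjk hkl h1 h3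
      rw [h i hi, h j hj, this]
    · -- labels of j, l among x, y
      by_cases hc : lab i = lab s ∨ lab i = lab (s + 1)
      · rw [hxy i hi hc, hxy j hj h3]
      exfalso
      apply hc
      have his : i ≠ s := by rintro rfl; exact hc (Or.inl rfl)
      have his1 : i ≠ s + 1 := by rintro rfl; exact hc (Or.inr rfl)
      have hks : k ≠ s := by rintro rfl; exact hc (Or.inl h1)
      have hks1 : k ≠ s + 1 := by rintro rfl; exact hc (Or.inr h1)
      rcases lt_trichotomy i s with hlt | heq | hgt
      · rcases lt_trichotomy k s with klt | keq | kgt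
        · -- both after k : use the label of j
          rcases h3 with h3 | h3
          · have := hnc i hi j hj k hk s hs hij hjk klt h1 h3
            left; rw [this, h3]
          · have := hnc i hi j hj k hk (s + 1) hs1 hij hjk (by omega) h1 h3
            right; rw [this, h3]
        · exact absurd keq hks
        · -- between : use the label of l
          rcases h4 with h4 | h4
          · have := hnc i hi s hs k hk l hl hlt kgt hkl h1 h4.symm
            left; exact this
          · have := hnc i hi (s + 1) hs1 k hk l hl (by omega) (by omega) hkl h1 h4.symm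
            right; exact this
      · exact absurd heq his
      · -- before i : use the label of j
        rcases h3 with h3 | h3
        · have := hnc s hs i hi j hj k hk (by omega) hij hjk h3.symm h1
          left; exact this.symm
        · have := hnc (s + 1) hs1 i hi j hj k hk (by omega) hij hjk h3.symm h1
          right; exact this.symm
  · rcases hm j hj l hl hjl with h3 | ⟨h3, h4⟩
    · by_cases hc : lab j = lab s ∨ lab j = lab (s + 1)
      · rw [hxy i hi h1, hxy j hj hc]
      exfalso
      apply hc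
      have hjs : j ≠ s := by rintro rfl; exact hc (Or.inl rfl)
      have hjs1 : j ≠ s + 1 := by rintro rfl; exact hc (Or.inr rfl)
      have hls : l ≠ s := by rintro rfl; exact hc (Or.inl h3)
      have hls1 : l ≠ s + 1 := by rintro rfl; exact hc (Or.inr h3)
      rcases lt_trichotomy j s with hlt | heq | hgt
      · rcases lt_trichotomy l s with klt | keq | kgt
        · -- both after l : use the label of k
          rcases h2 with h2 | h2
          · have := hnc j hj k hk l hl s hs hjk hkl klt h3 h2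
            left; rw [this, h2]
          · have := hnc j hj k hk l hl (s + 1) hs1 hjk hkl (by omega) h3 h2
            right; rw [this, h2]
        · exact absurd keq hls
        · -- between j and l : use the label of i
          rcases h1 with h1 | h1
          · have := hnc i hi j hj s hs l hl hij hlt kgt h1 h3
            left; rw [← this, h1]
          · have := hnc i hi j hj (s + 1) hs1 l hl hij (by omega) (by omega) h1 h3
            right; rw [← this, h1]
      · exact absurd heq hjs
      · -- before j : use the label of k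
        rcases h2 with h2 | h2
        · have := hnc s hs j hj k hk l hl (by omega) hjk hkl h2.symm h3
          left; exact this.symm
        · have := hnc (s + 1) hs1 j hj k hk l hl (by omega) hjk hkl h2.symm h3
          right; exact this.symm
    · rw [hxy i hi h1, hxy j hj h3]

end H973
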