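import Pool.Agent.H974R2.Circ
import Pool.Agent.H973R2.Main1

/-!
Crossings of long rectangles, and symmetries acting on induced subgraphs.
-/

namespace H973

open H974 Finset

theorem hh_long (k : ℕ) {m : ℤ} (hm : 0 < m) :
    (1/2:ℝ)^(48 * (k + 1)) ≤ hh (1/2) ((8 + 6 * (k : ℤ)) * m) (2 * m) := by
  have h0 : (0:ℝ) ≤ 1/2 := by norm_num
  have h1 : (1/2:ℝ) ≤ 1 := by norm_num
  induction k with
  | zero =>
    have := hh_82 hm
    simp only [Nat.cast_zero, mul_zero, add_zero, zero_add, mul_one]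
    refine le_trans ?_ this
    exact pow_le_pow_of_le_one (by norm_num) (by norm_num) (by norm_num)
  | succ k ih =>
    have g := hh_glue h0 h1 (w1 := (8 + 6 * (k : ℤ)) * m) (w2 := 8 * m) (v := 2 * m) (h := 2 * m)
      (by omega) (by nlinarith [Int.natCast_nonneg k, mul_nonneg (Int.natCast_nonneg k) hm.le])
      (by omega) (by omega)
    have e : (8 + 6 * (k : ℤ)) * m + 8 * m - 2 * m = (8 + 6 * ((k + 1 : ℕ) : ℤ)) * m := by
      push_cast; ring
    rw [e] at g
    refine le_trans ?_ g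
    have a1 := hh_82 hm
    have a2 := hh_square (2 * m) (by omega)
    have p1 : (0:ℝ) < (1/2)^(48 * (k + 1)) := by positivity
    calc (1/2:ℝ)^(48 * (k + 1 + 1)) = (1/2:ℝ)^(48 * (k + 1)) * (1/2:ℝ)^47 * (1/2) := by
          rw [← pow_add, ← pow_succ]; congr 1
      _ ≤ _ := mul_le_mul (mul_le_mul ih a1 (by positivity) (p1.le.trans ih)) a2 (by norm_num)
          (mul_nonneg (p1.le.trans ih) (le_trans (by positivity) a1))

/-- The constant of the long crossings. -/
noncomputable def dlt : ℝ := (1/2:ℝ)^1200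

theorem dlt_pos : 0 < dlt := by unfold dlt; positivity
theorem dlt_le : dlt ≤ 1 := by unfold dlt; exact pow_le_one₀ (by norm_num) (by norm_num)

theorem rswL {m w h : ℤ} (hm : 0 < m) (hw : 0 < w) (hw' : w ≤ 152 * m) (hh2 : 2 * m ≤ h) :
    dlt ≤ hh (1/2) w h := by
  have h1 := hh_long 24 hm
  have e : (8 + 6 * ((24 : ℕ) : ℤ)) * m = 152 * m := by push_cast; ring
  rw [e] at h1
  exact h1.trans (hh_mono (by norm_num) (by norm_num) hw hw' hh2)

/-- Image of a set of vertices under a symmetry. -/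
def LSymV (g : LSym) (T : Finset Vtx) : Finset Vtx := T.map g.ψ.toEmbedding

theorem mem_LSymV {g : LSym} {T : Finset Vtx} {y : Vtx} : y ∈ LSymV g T ↔ g.ψ.symm y ∈ T := by
  unfold LSymV
  rw [Finset.mem_map_equiv]

theorem ES_mp (g : LSym) (T : Finset Vtx) : g.mp (ES T) = ES (LSymV g T) := by
  ext e
  rw [LSym.mem_mp, mem_ES, mem_ES, mem_LSymV, mem_LSymV]
  have h := g.compat (g.φ.symm e)
  rw [Equiv.apply_symm_apply] at h
  rcases h with ⟨h1, h2⟩ | ⟨h1, h2⟩
  · rw [h1, h2, Equiv.symm_apply_apply, Equiv.symm_apply_apply]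
  · rw [h1, h2, Equiv.symm_apply_apply, Equiv.symm_apply_apply]
    exact and_comm

theorem ES_mono {S T : Finset Vtx} (h : S ⊆ T) : ES S ⊆ ES T := by
  intro e he
  rw [mem_ES] at he ⊢
  exact ⟨h he.1, h he.2⟩

theorem okhalf : Ok (fun _ : Edg => (1/2 : ℝ)) := okq (by norm_num) (by norm_num)

theorem reach_incr (S : Finset Edg) (u v : Vtx) :
    IncrE S (fun F => Reach (F : Set Edg) u v) :=
  fun _ _ h _ hF => hF.mono (by exact_mod_cast h)

end H973
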