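import Pool.Agent.H973R2.Comm

/-!
Functionals of a sequence of matrices (one matrix per leg), the flux operator and the operators
describing the addition of a vertex.
-/

namespace H973

open Matrix Finset

/-- Replace the entries `s` and `s + 1`. -/
def upd2 (X : ℕ → M) (s : ℕ) (A B : M) : ℕ → M :=
  fun t => if t = s then A else if t = s + 1 then B else X t

/-- The twisted insertion of the skew derivation at `r`. -/
noncomputable def tw (r : ℕ) (X : ℕ → M) : ℕ → M :=
  fun t => if t < r then K * X t * Ki else if t = r then dl (X t) else X t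

/-- The flux operator. -/
noncomputable def Fl (used : Finset ℕ) (a : ℕ → ℂ) (ψ : (ℕ → M) → ℂ) (X : ℕ → M) : ℂ :=
  ∑ r ∈ used, a r * ψ (tw r X)

/-- Adding a vertex joined to the legs `s`, `s + 1` by random edges. -/
noncomputable def Tint (s : ℕ) (ψ : (ℕ → M) → ℂ) (X : ℕ → M) : ℂ :=
  Tg (fun A B => ψ (upd2 X s A B)) (X s * X (s + 1))

theorem tw_upd_lt {r s : ℕ} (h : r < s) (X : ℕ → M) (A B : M) :
    tw r (upd2 X s A B) = upd2 (tw r X) s A B := by
  funext t
  unfold tw upd2
  by_cases h1 : t = s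
  · subst h1
    have : ¬ t < r := by omega
    have h2 : ¬ t = r := by omega
    simp [this, h2]
  · by_cases h2 : t = s + 1
    · subst h2
      have : ¬ s + 1 < r := by omega
      have h3 : ¬ s + 1 = r := by omega
      simp [this, h3]
    · simp [h1, h2]

theorem tw_upd_gt {r s : ℕ} (h : s + 1 < r) (X : ℕ → M) (A B : M) :
    tw r (upd2 X s A B) = upd2 (tw r X) s (K * A * Ki) (K * B * Ki) := by
  funext t
  unfold tw upd2
  by_cases h1 : t = s
  · subst h1
    have : t < r := by omega
    simp [this]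
  · by_cases h2 : t = s + 1
    · subst h2
      simp [h]
    · simp [h1, h2]

theorem tw_upd_self (s : ℕ) (X : ℕ → M) (A B : M) :
    tw s (upd2 X s A B) = upd2 (tw s X) s (dl A) B := by
  funext t
  unfold tw upd2
  by_cases h1 : t = s
  · subst h1; simp
  · by_cases h2 : t = s + 1
    · subst h2; simp
    · simp [h1, h2]

theorem tw_upd_succ (s : ℕ) (X : ℕ → M) (A B : M) :
    tw (s + 1) (upd2 X s A B) = upd2 (tw s X) s (K * A * Ki) (dl B) := by
  funext t
  unfold tw upd2
  by_cases h1 : t = s
  · subst h1; simp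
  · by_cases h2 : t = s + 1
    · subst h2; simp
    · have h3 : t < s + 1 ↔ t < s := by omega
      simp [h1, h2, h3]

theorem upd_tw_succ (s : ℕ) (X : ℕ → M) (A B : M) :
    upd2 (tw (s + 1) X) s A B = upd2 (tw s X) s A B := by
  funext t
  unfold tw upd2
  by_cases h1 : t = s
  · simp [h1]
  · by_cases h2 : t = s + 1
    · simp [h2]
    · have h3 : t < s + 1 ↔ t < s := by omega
      simp [h1, h2, h3]

theorem Tg_congr_sum {ι : Type*} (S : Finset ι) (c : ι → ℂ) (g : ι → M → M → ℂ) (Z : M) :
    Tg (fun A B => ∑ r ∈ S, c r * g r A B) Z = ∑ r ∈ S, c r * Tg (g r) Z := by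
  unfold Tg
  simp only [Fin.sum_univ_two, Finset.mul_sum, mul_add, Finset.sum_add_distrib]
  simp only [← Finset.mul_sum]
  congr 1
  congr 1
  congr 1
  rw [Finset.mul_sum]
  apply Finset.sum_congr rfl
  intros; ring

/-- The flux operator intertwines with the addition of an interior vertex. -/
theorem Fl_Tint {used : Finset ℕ} {a a' : ℕ → ℂ} {s : ℕ} {ψ : (ℕ → M) → ℂ}
    (hs : s ∈ used) (hs1 : s + 1 ∈ used)
    (ha : ∀ r, r ≠ s → r ≠ s + 1 → a' r = a r)
    (h1 : a (s + 1) = (1 - q) * a s) (h2 : a' s = (1 - q) * a s) (h3 : a' (s + 1) = a s)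
    (hψ : ∀ X, BiLin (fun A B => ψ (upd2 X s A B))) (X : ℕ → M) :
    Fl used a' (Tint s ψ) X = Tint s (Fl used a ψ) X := by
  have hsplit : ∀ f : ℕ → ℂ, ∑ r ∈ used, f r =
      (f s + f (s + 1)) + ∑ r ∈ (used.erase s).erase (s + 1), f r := by
    intro f
    rw [← Finset.add_sum_erase used f hs,
      ← Finset.add_sum_erase (used.erase s) f (Finset.mem_erase.mpr ⟨by omega, hs1⟩)]
    ring
  unfold Fl
  rw [hsplit]
  have hR : Tint s (fun X => ∑ r ∈ used, a r * ψ (tw r X)) X =
      Tg (fun A B => a s * (ψ (upd2 (tw s X) s (dl A) B) +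
        (1 - q) * ψ (upd2 (tw s X) s (K * A * Ki) (dl B)))) (X s * X (s + 1)) +
      ∑ r ∈ (used.erase s).erase (s + 1), a r *
        Tg (fun A B => ψ (tw r (upd2 X s A B))) (X s * X (s + 1)) := by
    rw [← Tg_congr_sum]
    unfold Tint
    have : (fun A B => ∑ r ∈ used, a r * ψ (tw r (upd2 X s A B))) =
        (fun A B => (a s * (ψ (upd2 (tw s X) s (dl A) B) +
        (1 - q) * ψ (upd2 (tw s X) s (K * A * Ki) (dl B)))) +
        ∑ r ∈ (used.erase s).erase (s + 1), a r * ψ (tw r (upd2 X s A B))) := by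
      funext A B
      rw [hsplit, tw_upd_self, tw_upd_succ, h1]
      ring
    rw [this]
    unfold Tg
    simp only [Fin.sum_univ_two]
    ring
  rw [hR]
  congr 1
  · rw [h2, h3]
    have hc := Tg_core (hψ (tw s X)) (X s) (X (s + 1))
    have e1 : Tint s ψ (tw s X) = Tg (fun A B => ψ (upd2 (tw s X) s A B)) (dl (X s) * X (s + 1)) := by
      unfold Tint
      congr 1
      simp [tw]
    have e2 : Tint s ψ (tw (s + 1) X) =
        Tg (fun A B => ψ (upd2 (tw s X) s A B)) (K * X s * Ki * dl (X (s + 1))) := by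
      unfold Tint
      simp only [upd_tw_succ]
      congr 1
      simp [tw]
    rw [e1, e2]
    have e3 : Tg (fun A B => a s * (ψ (upd2 (tw s X) s (dl A) B) +
        (1 - q) * ψ (upd2 (tw s X) s (K * A * Ki) (dl B)))) (X s * X (s + 1)) =
        a s * Tg (fun A B => ψ (upd2 (tw s X) s (dl A) B) +
        (1 - q) * ψ (upd2 (tw s X) s (K * A * Ki) (dl B))) (X s * X (s + 1)) := by
      unfold Tg
      simp only [Fin.sum_univ_two]
      ring
    rw [e3, ← hc]
    ring
  · apply Finset.sum_congr rfl
    intro r hr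
    rw [Finset.mem_erase, Finset.mem_erase] at hr
    rw [ha r hr.2.1 hr.1]
    congr 1
    unfold Tint
    rcases lt_or_gt_of_ne hr.2.1 with h | h
    · simp only [tw_upd_lt h]
      congr 1
      have e1 : tw r X s = X s := by
        unfold tw; rw [if_neg (by omega), if_neg (by omega)]
      have e2 : tw r X (s + 1) = X (s + 1) := by
        unfold tw; rw [if_neg (by omega), if_neg (by omega)]
      rw [e1, e2]
    · have h' : s + 1 < r := by omega
      simp only [tw_upd_gt h']
      have e1 : tw r X s * tw r X (s + 1) = K * (X s * X (s + 1)) * Ki := by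
        unfold tw; rw [if_pos (by omega), if_pos (by omega)]
        calc K * X s * Ki * (K * X (s + 1) * Ki) = K * X s * (Ki * K) * X (s + 1) * Ki := by
              simp only [Matrix.mul_assoc]
          _ = _ := by rw [Ki_mul_K, Matrix.mul_one]; simp only [Matrix.mul_assoc]
      rw [e1, Tg_conj (hψ (tw r X))]

end H973
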