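import Pool.Agent.H973R2.Op

/-!
Adding a vertex joined to a single leg by a random edge: the leg is replaced by three legs.
-/

namespace H973

open Matrix Finset

theorem core_ax (Z : M) (a b : Fin 2) :
    tq ((1 - q) • (E * Z) - q • (K * Z * E)) * (1 : M) a b +
      ((1 - q) • (E * Z) - q • (K * Z * E)) a b =
    tq Z * (dl 1) a b + (dl Z) a b := by
  simp only [dl, tq]
  obtain ⟨z00, z01, z10, z11, rfl⟩ : ∃ z00 z01 z10 z11, Z = !![z00, z01; z10, z11] :=
    ⟨_, _, _, _, Matrix.eta_fin_two Z⟩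
  simp only [one_two, K, E, Matrix.mul_fin_two, sub_two, smul_two]
  fin_cases a <;> fin_cases b <;>
    simp only [Matrix.of_apply, Matrix.cons_val', Matrix.cons_val_zero, Matrix.cons_val_one,
      Matrix.cons_val_fin_one, Fin.zero_eta, Fin.mk_one, Fin.isValue] <;>
    ring_nf <;> (try simp only [q_sq, q_cube]) <;> (try ring_nf)

/-- Linearity, in coordinates. -/
def Lin (g : M → ℂ) : Prop :=
  ∃ β : Fin 2 → Fin 2 → ℂ, ∀ A, g A = ∑ a, ∑ b, β a b * A a b

theorem Lin.add {g : M → ℂ} (h : Lin g) (A B : M) : g (A + B) = g A + g B := by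
  obtain ⟨β, h⟩ := h
  simp only [h, Fin.sum_univ_two, Matrix.add_apply]
  ring

theorem Lin.smul {g : M → ℂ} (h : Lin g) (c : ℂ) (A : M) : g (c • A) = c * g A := by
  obtain ⟨β, h⟩ := h
  simp only [h, Fin.sum_univ_two, Matrix.smul_apply, smul_eq_mul]
  ring

noncomputable def Tg1 (g : M → ℂ) (Z : M) : ℂ := tq Z * g 1 + g Z

theorem Tg1_add {g : M → ℂ} (h : Lin g) (Z Z' : M) : Tg1 g (Z + Z') = Tg1 g Z + Tg1 g Z' := by
  unfold Tg1; rw [h.add, tq_add]; ring

theorem Tg1_smul {g : M → ℂ} (h : Lin g) (c : ℂ) (Z : M) : Tg1 g (c • Z) = c * Tg1 g Z := by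
  unfold Tg1; rw [h.smul, tq_smul]; ring

theorem leibniz3 (x y z : M) :
    (1 - q) • (dl x * y * z) + (K * x * Ki) * dl y * z +
      q • ((K * x * Ki) * (K * y * Ki) * dl z) =
    (1 - q) • (E * (x * y * z)) - q • (K * (x * y * z) * E) := by
  have h1 : (1 - q) • (dl x * y * z) + (K * x * Ki) * dl y * z =
      (1 - q) • (E * (x * y * z)) - K * (x * y) * E * z := by
    have := congrArg (· * z) (leibniz x y)
    simp only [Matrix.add_mul, Matrix.sub_mul, Matrix.smul_mul] at this
    rw [this]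
    simp only [Matrix.mul_assoc]
  have h2 : (K * x * Ki) * (K * y * Ki) = K * (x * y) * Ki := by
    calc K * x * Ki * (K * y * Ki) = K * x * (Ki * K) * y * Ki := by
          simp only [Matrix.mul_assoc]
      _ = _ := by rw [Ki_mul_K, Matrix.mul_one]; simp only [Matrix.mul_assoc]
  have h3 : K * (x * y) * Ki * dl z = (1 - q) • (K * (x * y) * E * z) - K * (x * y * z) * E := by
    unfold dl
    rw [Matrix.mul_sub]
    congr 1
    · calc K * (x * y) * Ki * (E * z) = K * (x * y) * (Ki * E) * z := by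
            simp only [Matrix.mul_assoc]
        _ = _ := by rw [Ki_E, Matrix.mul_smul, Matrix.smul_mul]
    · calc K * (x * y) * Ki * (K * z * E) = K * (x * y) * (Ki * K) * z * E := by
            simp only [Matrix.mul_assoc]
        _ = _ := by rw [Ki_mul_K, Matrix.mul_one]; simp only [Matrix.mul_assoc]
  rw [h1, h2, h3, smul_sub, smul_smul]
  have h4 : q * (1 - q) = 1 := by linear_combination (-1 : ℂ) * q_sq
  rw [h4, one_smul]
  abel

theorem Tg1_core {g : M → ℂ} (h : Lin g) (x y z : M) :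
    (1 - q) * Tg1 g (dl x * y * z) + Tg1 g ((K * x * Ki) * dl y * z) +
      q * Tg1 g ((K * x * Ki) * (K * y * Ki) * dl z) =
    Tg1 (fun A => g (dl A)) (x * y * z) := by
  have h1 : (1 - q) * Tg1 g (dl x * y * z) + Tg1 g ((K * x * Ki) * dl y * z) +
      q * Tg1 g ((K * x * Ki) * (K * y * Ki) * dl z) =
      Tg1 g ((1 - q) • (E * (x * y * z)) - q • (K * (x * y * z) * E)) := by
    rw [← leibniz3, Tg1_add h, Tg1_add h, Tg1_smul h, Tg1_smul h]
  rw [h1]
  generalize x * y * z = Z
  unfold Tg1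
  obtain ⟨β, h⟩ := h
  have hc := fun a b => core_ax Z a b
  simp only [h, Fin.sum_univ_two]
  linear_combination β 0 0 * hc 0 0 + β 0 1 * hc 0 1 + β 1 0 * hc 1 0 + β 1 1 * hc 1 1

theorem Tg1_conj {g : M → ℂ} (Z : M) :
    Tg1 g (K * Z * Ki) = Tg1 (fun A => g (K * A * Ki)) Z := by
  have h1 : K * 1 * Ki = 1 := by rw [Matrix.mul_one, K_mul_Ki]
  unfold Tg1
  rw [tq_conj]
  simp only [h1]

/-- Replace the entry `s`. -/
def upd1 (X : ℕ → M) (s : ℕ) (A : M) : ℕ → M := fun t => if t = s then A else X t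

/-- Adding a vertex joined to the leg `s` by a random edge, with new legs `t1 < t2 < t3`. -/
noncomputable def Tax (s t1 t2 t3 : ℕ) (ψ : (ℕ → M) → ℂ) (X : ℕ → M) : ℂ :=
  Tg1 (fun A => ψ (upd1 X s A)) (X t1 * X t2 * X t3)

theorem Tg1_congr_sum {ι : Type*} (S : Finset ι) (c : ι → ℂ) (g : ι → M → ℂ) (Z : M) :
    Tg1 (fun A => ∑ r ∈ S, c r * g r A) Z = ∑ r ∈ S, c r * Tg1 (g r) Z := by
  unfold Tg1
  rw [Finset.mul_sum, ← Finset.sum_add_distrib]
  apply Finset.sum_congr rfl
  intros; ring

/-- The flux operator intertwines with the addition of a vertex on an axis. -/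
theorem Fl_Tax {used : Finset ℕ} {a a' : ℕ → ℂ} {s t1 t2 t3 : ℕ} {ψ : (ℕ → M) → ℂ}
    (hs : s ∈ used) (h12 : t1 < t2) (h23 : t2 < t3) (hs1 : t1 ≤ s) (hs3 : s ≤ t3)
    (hgap : ∀ r ∈ used, r ≠ s → r < t1 ∨ t3 < r)
    (ha : ∀ r, (r < t1 ∨ t3 < r) → a' r = a r)
    (h1 : a' t1 = (1 - q) * a s) (h2 : a' t2 = a s) (h3 : a' t3 = q * a s)
    (hind : ∀ X Y : ℕ → M, (∀ t, (t < t1 ∨ t3 < t ∨ t = s) → X t = Y t) → ψ X = ψ Y)
    (hψ : ∀ X, Lin (fun A => ψ (upd1 X s A))) (X : ℕ → M) :
    Fl (insert t1 (insert t2 (insert t3 (used.erase s)))) a' (Tax s t1 t2 t3 ψ) X =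
      Tax s t1 t2 t3 (Fl used a ψ) X := by
  have hg : ∀ r ∈ used.erase s, r < t1 ∨ t3 < r := fun r hr => by
    rw [Finset.mem_erase] at hr; exact hgap r hr.2 hr.1
  have n3 : t3 ∉ used.erase s := fun h => by have := hg _ h; omega
  have n2 : t2 ∉ insert t3 (used.erase s) := by
    rw [Finset.mem_insert]
    rintro (h | h)
    · omega
    · have := hg _ h; omega
  have n1 : t1 ∉ insert t2 (insert t3 (used.erase s)) := by
    rw [Finset.mem_insert, Finset.mem_insert]
    rintro (h | h | h)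
    · omega
    · omega
    · have := hg _ h; omega
  unfold Fl
  rw [Finset.sum_insert n1, Finset.sum_insert n2, Finset.sum_insert n3]
  have hR : Tax s t1 t2 t3 (fun X => ∑ r ∈ used, a r * ψ (tw r X)) X =
      a s * Tg1 (fun A => ψ (tw s (upd1 X s A))) (X t1 * X t2 * X t3) +
      ∑ r ∈ used.erase s, a r * Tg1 (fun A => ψ (tw r (upd1 X s A))) (X t1 * X t2 * X t3) := by
    unfold Tax
    rw [Tg1_congr_sum, ← Finset.add_sum_erase used _ hs]
  rw [hR]
  set Y := tw s X with hY
  have k1 : ∀ A, ψ (tw s (upd1 X s A)) = ψ (upd1 Y s (dl A)) := by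
    intro A
    congr 1
    funext t
    unfold tw upd1
    by_cases h : t = s
    · subst h; simp
    · simp [h, hY, tw]
  have kk : ∀ r, (t1 ≤ r ∧ r ≤ t3) → ∀ A, ψ (upd1 (tw r X) s A) = ψ (upd1 Y s A) := by
    intro r hr A
    apply hind
    intro t ht
    unfold upd1
    by_cases h : t = s
    · simp [h]
    · rw [if_neg h, if_neg h, hY]
      unfold tw
      rcases ht with ht | ht | ht
      · rw [if_pos (by omega), if_pos (by omega)]
      · rw [if_neg (by omega), if_neg (by omega), if_neg (by omega), if_neg (by omega)]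
      · exact absurd ht h
  have e1 : Tax s t1 t2 t3 ψ (tw t1 X) =
      Tg1 (fun A => ψ (upd1 Y s A)) (dl (X t1) * X t2 * X t3) := by
    unfold Tax
    simp only [kk t1 ⟨le_refl _, by omega⟩]
    congr 1
    have : tw t1 X t1 = dl (X t1) := by simp [tw]
    have e2 : tw t1 X t2 = X t2 := by unfold tw; rw [if_neg (by omega), if_neg (by omega)]
    have e3 : tw t1 X t3 = X t3 := by unfold tw; rw [if_neg (by omega), if_neg (by omega)]
    rw [this, e2, e3]
  have e2 : Tax s t1 t2 t3 ψ (tw t2 X) =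
      Tg1 (fun A => ψ (upd1 Y s A)) (K * X t1 * Ki * dl (X t2) * X t3) := by
    unfold Tax
    simp only [kk t2 ⟨by omega, by omega⟩]
    congr 1
    have : tw t2 X t2 = dl (X t2) := by simp [tw]
    have e2 : tw t2 X t1 = K * X t1 * Ki := by unfold tw; rw [if_pos h12]
    have e3 : tw t2 X t3 = X t3 := by unfold tw; rw [if_neg (by omega), if_neg (by omega)]
    rw [this, e2, e3]
  have e3 : Tax s t1 t2 t3 ψ (tw t3 X) =
      Tg1 (fun A => ψ (upd1 Y s A)) (K * X t1 * Ki * (K * X t2 * Ki) * dl (X t3)) := by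
    unfold Tax
    simp only [kk t3 ⟨by omega, by omega⟩]
    congr 1
    have : tw t3 X t3 = dl (X t3) := by simp [tw]
    have e2 : tw t3 X t1 = K * X t1 * Ki := by unfold tw; rw [if_pos (by omega)]
    have e3 : tw t3 X t2 = K * X t2 * Ki := by unfold tw; rw [if_pos (by omega)]
    rw [this, e2, e3]
  have hlin : Lin (fun A => ψ (upd1 Y s A)) := hψ Y
  have hc := Tg1_core hlin (X t1) (X t2) (X t3)
  have hfin : ∑ r ∈ used.erase s, a' r * Tax s t1 t2 t3 ψ (tw r X) =
      ∑ r ∈ used.erase s, a r * Tg1 (fun A => ψ (tw r (upd1 X s A))) (X t1 * X t2 * X t3) := by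
    apply Finset.sum_congr rfl
    intro r hr
    rw [ha r (hg r hr)]
    congr 1
    rcases hg r hr with h | h
    · have : ∀ A, tw r (upd1 X s A) = upd1 (tw r X) s A := by
        intro A
        funext t
        unfold tw upd1
        by_cases h' : t = s
        · subst h'
          have : ¬ t < r := by omega
          have h2 : ¬ t = r := by omega
          simp [this, h2]
        · simp [h']
      simp only [this]
      unfold Tax
      congr 1
      have e : ∀ t, t1 ≤ t → tw r X t = X t := by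
        intro t ht
        unfold tw
        rw [if_neg (by omega), if_neg (by omega)]
      rw [e t1 le_rfl, e t2 (by omega), e t3 (by omega)]
    · have : ∀ A, tw r (upd1 X s A) = upd1 (tw r X) s (K * A * Ki) := by
        intro A
        funext t
        unfold tw upd1
        by_cases h' : t = s
        · subst h'
          have : t < r := by omega
          simp [this]
        · simp [h']
      simp only [this]
      unfold Tax
      rw [← Tg1_conj (g := fun A => ψ (upd1 (tw r X) s A))]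
      congr 1
      have e : ∀ t, t ≤ t3 → tw r X t = K * X t * Ki := by
        intro t ht
        unfold tw
        rw [if_pos (by omega)]
      rw [e t1 (by omega), e t2 (by omega), e t3 le_rfl]
      calc K * X t1 * Ki * (K * X t2 * Ki) * (K * X t3 * Ki)
          = K * X t1 * (Ki * K) * X t2 * (Ki * K) * X t3 * Ki := by
            simp only [Matrix.mul_assoc]
        _ = _ := by
            rw [Ki_mul_K, Matrix.mul_one, Matrix.mul_one]; simp only [Matrix.mul_assoc]
  rw [hfin, e1, e2, e3, h1, h2, h3]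
  simp only [k1]
  linear_combination a s * hc

end H973
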