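import Pool.Agent.H973R2.OpAx

/-!
The functional attached to a labelled sequence of legs, and its behaviour when labels are merged.
-/

namespace H973

open Matrix Finset

/-- Ordered product `f 0 * ⋯ * f (n - 1)`. -/
noncomputable def W (f : ℕ → M) : ℕ → M
  | 0 => 1
  | n + 1 => W f n * f n

theorem W_zero (f : ℕ → M) : W f 0 = 1 := rfl
theorem W_succ (f : ℕ → M) (n : ℕ) : W f (n + 1) = W f n * f n := rfl

theorem W_add (f : ℕ → M) (m n : ℕ) : W f (m + n) = W f m * W (fun i => f (m + i)) n := by
  induction n with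
  | zero => simp [W_zero]
  | succ n ih => rw [← Nat.add_assoc, W_succ, ih, W_succ, Matrix.mul_assoc]

theorem W_congr {f g : ℕ → M} {n : ℕ} (h : ∀ i, i < n → f i = g i) : W f n = W g n := by
  induction n with
  | zero => rfl
  | succ n ih => rw [W_succ, W_succ, ih (fun i hi => h i (by omega)), h n (by omega)]

theorem W_one {f : ℕ → M} {n : ℕ} (h : ∀ i, i < n → f i = 1) : W f n = 1 := by
  induction n with
  | zero => rfl
  | succ n ih => rw [W_succ, ih (fun i hi => h i (by omega)), h n (by omega), Matrix.mul_one]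

theorem W_split1 (f : ℕ → M) (s k : ℕ) :
    W f (s + 1 + k) = W f s * f s * W (fun i => f (s + 1 + i)) k := by
  rw [W_add, W_succ]

theorem W_split2 (f : ℕ → M) (s k : ℕ) :
    W f (s + 2 + k) = W f s * (f s * f (s + 1)) * W (fun i => f (s + 2 + i)) k := by
  rw [W_add, show s + 2 = (s + 1) + 1 from rfl, W_succ, W_succ, Matrix.mul_assoc (W f s)]

/-- The factor of the leg `p` in the block `c`. -/
noncomputable def blk (used : Finset ℕ) (lab : ℕ → ℕ) (c : ℕ) (X : ℕ → M) (p : ℕ) : M :=
  if p ∈ used ∧ lab p = c then X p else 1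

/-- Product over the blocks of the quantum trace of the ordered product of the matrices. -/
noncomputable def psi (N C : ℕ) (used : Finset ℕ) (lab : ℕ → ℕ) (X : ℕ → M) : ℂ :=
  ∏ c ∈ Finset.range C, tq (W (blk used lab c X) N)

theorem psi_congr {N C : ℕ} {used : Finset ℕ} {lab : ℕ → ℕ} {X Y : ℕ → M}
    (h : ∀ p ∈ used, X p = Y p) : psi N C used lab X = psi N C used lab Y := by
  unfold psi
  apply Finset.prod_congr rfl
  intro c _
  congr 1
  apply W_congr
  intro p _
  unfold blk
  by_cases hp : p ∈ used ∧ lab p = c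
  · rw [if_pos hp, if_pos hp, h p hp.1]
  · rw [if_neg hp, if_neg hp]

theorem eq_sum_U (A : M) : A = ∑ a, ∑ b, A a b • U a b := by
  simp only [Fin.sum_univ_two, U00, U01, U10, U11]
  ext i j
  fin_cases i <;> fin_cases j <;> simp

theorem lin_of {g : M → ℂ} (h1 : ∀ A B, g (A + B) = g A + g B)
    (h2 : ∀ (c : ℂ) A, g (c • A) = c * g A) : Lin g := by
  refine ⟨fun a b => g (U a b), fun A => ?_⟩
  conv_lhs => rw [eq_sum_U A]
  simp only [Fin.sum_univ_two, h1, h2]
  ring

theorem bilin_of {g : M → M → ℂ} (h1 : ∀ B, Lin (fun A => g A B)) (h2 : ∀ A, Lin (fun B => g A B)) :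
    BiLin g := by
  refine ⟨fun a b c d => g (U a b) (U c d), fun A B => ?_⟩
  have e1 : g A B = ∑ a, ∑ b, A a b * g (U a b) B := by
    conv_lhs => rw [eq_sum_U A]
    have ha := fun A A' => (h1 B).add A A'
    have hs := fun c A => (h1 B).smul c A
    simp only [Fin.sum_univ_two, ha, hs]
  have e2 : ∀ a b, g (U a b) B = ∑ c, ∑ d, B c d * g (U a b) (U c d) := by
    intro a b
    conv_lhs => rw [eq_sum_U B]
    have ha := fun A A' => (h2 (U a b)).add A A'
    have hs := fun c A => (h2 (U a b)).smul c A
    simp only [Fin.sum_univ_two, ha, hs]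
  rw [e1]
  simp only [e2, Fin.sum_univ_two]
  ring

theorem lin_tq (c : ℂ) (P Q : M) : Lin (fun A => c * tq (P * A * Q)) := by
  apply lin_of
  · intro A B
    rw [Matrix.mul_add, Matrix.add_mul, tq_add]; ring
  · intro r A
    rw [Matrix.mul_smul, Matrix.smul_mul, tq_smul]; ring

theorem psi_lin {N C : ℕ} {used : Finset ℕ} {lab : ℕ → ℕ} {s : ℕ} (hs : s ∈ used) (hN : s < N)
    (hC : lab s < C) (X : ℕ → M) : Lin (fun A => psi N C used lab (upd1 X s A)) := by
  obtain ⟨k, rfl⟩ : ∃ k, N = s + 1 + k := ⟨N - (s + 1), by omega⟩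
  have key : ∀ A, psi (s + 1 + k) C used lab (upd1 X s A) =
      (∏ c ∈ (Finset.range C).erase (lab s), tq (W (blk used lab c X) (s + 1 + k))) *
      tq (W (blk used lab (lab s) X) s * A *
        W (fun i => blk used lab (lab s) X (s + 1 + i)) k) := by
    intro A
    unfold psi
    rw [← Finset.mul_prod_erase _ _ (Finset.mem_range.mpr hC), mul_comm]
    congr 1
    · apply Finset.prod_congr rfl
      intro c hc
      rw [Finset.mem_erase] at hc
      congr 1
      apply W_congr
      intro p _
      unfold blk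
      by_cases hp : p ∈ used ∧ lab p = c
      · rw [if_pos hp, if_pos hp]
        unfold upd1
        rw [if_neg]
        rintro rfl
        exact hc.1 hp.2.symm
      · rw [if_neg hp, if_neg hp]
    · rw [W_split1]
      congr 2
      · congr 1
        · apply W_congr
          intro p hp
          unfold blk upd1
          rw [if_neg (show ¬ p = s by omega)]
        · unfold blk upd1
          simp [hs]
      · apply W_congr
        intro i _
        unfold blk upd1
        rw [if_neg (show ¬ s + 1 + i = s by omega)]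
  simp only [key]
  exact lin_tq _ _ _

theorem upd2_eq (X : ℕ → M) (s : ℕ) (A B : M) :
    upd2 X s A B = upd1 (upd1 X (s + 1) B) s A := by
  funext t
  unfold upd2 upd1
  rfl

theorem upd2_eq' (X : ℕ → M) (s : ℕ) (A B : M) :
    upd2 X s A B = upd1 (upd1 X s A) (s + 1) B := by
  funext t
  unfold upd2 upd1
  by_cases h : t = s
  · subst h; simp
  · simp [h]

theorem psi_bilin {N C : ℕ} {used : Finset ℕ} {lab : ℕ → ℕ} {s : ℕ} (hs : s ∈ used)
    (hs1 : s + 1 ∈ used) (hN : s + 1 < N) (hC : lab s < C) (hC1 : lab (s + 1) < C) (X : ℕ → M) :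
    BiLin (fun A B => psi N C used lab (upd2 X s A B)) := by
  apply bilin_of
  · intro B
    simp only [upd2_eq]
    exact psi_lin hs (by omega) hC _
  · intro A
    simp only [upd2_eq']
    exact psi_lin hs1 hN hC1 _

/-- Noncrossing labellings. -/
def NC (used : Finset ℕ) (lab : ℕ → ℕ) : Prop :=
  ∀ i ∈ used, ∀ j ∈ used, ∀ k ∈ used, ∀ l ∈ used, i < j → j < k → k < l →
    lab i = lab k → lab j = lab l → lab i = lab j

theorem psi_succ {N C : ℕ} {used : Finset ℕ} {lab : ℕ → ℕ} (h : ∀ p ∈ used, lab p ≠ C)
    (X : ℕ → M) : psi N (C + 1) used lab X = psi N C used lab X := by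
  unfold psi
  rw [Finset.prod_range_succ, W_one, tq_one, mul_one]
  intro p _
  unfold blk
  rw [if_neg]
  exact fun hp => h p hp.1 hp.2

theorem W_pair {f g : ℕ → M} {s N : ℕ} (hN : s + 1 < N) (h : ∀ p, p ≠ s → p ≠ s + 1 → f p = g p)
    (h2 : f s * f (s + 1) = g s * g (s + 1)) : W f N = W g N := by
  obtain ⟨k, rfl⟩ : ∃ k, N = s + 2 + k := ⟨N - (s + 2), by omega⟩
  rw [W_split2, W_split2, h2]
  congr 1
  · congr 1
    exact W_congr (fun i hi => h i (by omega) (by omega))
  · exact W_congr (fun i hi => h _ (by omega) (by omega))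

/-- Both edges closed: the new vertex is isolated. -/
theorem psi_closed {N C : ℕ} {used : Finset ℕ} {lab lab' : ℕ → ℕ} {s : ℕ} (hs : s ∈ used)
    (hs1 : s + 1 ∈ used) (hN : s + 1 < N) (hlt : ∀ p ∈ used, lab p < C)
    (h0 : lab' s = C) (h1 : lab' (s + 1) = C)
    (h : ∀ p ∈ used, p ≠ s → p ≠ s + 1 → lab' p = lab p) (X : ℕ → M) :
    psi N (C + 1) used lab' X =
      tq (X s * X (s + 1)) * psi N C used lab (upd2 X s 1 1) := by
  unfold psi
  rw [Finset.prod_range_succ, mul_comm]
  congr 1
  · congr 1
    obtain ⟨k, rfl⟩ : ∃ k, N = s + 2 + k := ⟨N - (s + 2), by omega⟩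
    rw [W_split2, W_one, W_one (n := k)]
    · rw [Matrix.one_mul, Matrix.mul_one]
      unfold blk
      rw [if_pos ⟨hs, h0⟩, if_pos ⟨hs1, h1⟩]
    · intro i hi
      unfold blk
      rw [if_neg]
      rintro ⟨hu, hl⟩
      rw [h _ hu (by omega) (by omega)] at hl
      exact absurd (hlt _ hu) (by omega)
    · intro i hi
      unfold blk
      rw [if_neg]
      rintro ⟨hu, hl⟩
      rw [h _ hu (by omega) (by omega)] at hl
      exact absurd (hlt _ hu) (by omega)
  · apply Finset.prod_congr rfl
    intro c hc
    rw [Finset.mem_range] at hc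
    congr 1
    apply W_congr
    intro p _
    unfold blk upd2
    by_cases e1 : p = s
    · subst e1
      rw [if_neg (by rw [h0]; omega)]
      simp
    · by_cases e2 : p = s + 1
      · subst e2
        rw [if_neg (by rw [h1]; omega)]
        simp
      · by_cases hp : p ∈ used ∧ lab p = c
        · rw [if_pos ⟨hp.1, by rw [h p hp.1 e1 e2]; exact hp.2⟩, if_pos hp]
          simp [e1, e2]
        · rw [if_neg, if_neg hp]
          rintro ⟨a1, a2⟩
          exact hp ⟨a1, by rw [← h p a1 e1 e2]; exact a2⟩

/-- First edge open, second closed. -/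
theorem psi_open1 {N C : ℕ} {used : Finset ℕ} {lab lab' : ℕ → ℕ} {s : ℕ} (hs : s ∈ used)
    (hs1 : s + 1 ∈ used) (hN : s + 1 < N)
    (h0 : lab' s = lab s) (h1 : lab' (s + 1) = lab s)
    (h : ∀ p ∈ used, p ≠ s → p ≠ s + 1 → lab' p = lab p) (X : ℕ → M) :
    psi N C used lab' X = psi N C used lab (upd2 X s (X s * X (s + 1)) 1) := by
  unfold psi
  apply Finset.prod_congr rfl
  intro c _
  congr 1
  apply W_pair hN
  · intro p e1 e2
    unfold blk upd2
    by_cases hp : p ∈ used ∧ lab p = c
    · rw [if_pos ⟨hp.1, by rw [h p hp.1 e1 e2]; exact hp.2⟩, if_pos hp]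
      simp [e1, e2]
    · rw [if_neg, if_neg hp]
      rintro ⟨a1, a2⟩
      exact hp ⟨a1, by rw [← h p a1 e1 e2]; exact a2⟩
  · unfold blk upd2
    simp only [h0, h1, hs, hs1, true_and]
    by_cases hc : lab s = c
    · simp [hc]
    · simp [hc]

/-- First edge closed, second open. -/
theorem psi_open2 {N C : ℕ} {used : Finset ℕ} {lab lab' : ℕ → ℕ} {s : ℕ} (hs : s ∈ used)
    (hs1 : s + 1 ∈ used) (hN : s + 1 < N)
    (h0 : lab' s = lab (s + 1)) (h1 : lab' (s + 1) = lab (s + 1))
    (h : ∀ p ∈ used, p ≠ s → p ≠ s + 1 → lab' p = lab p) (X : ℕ → M) :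
    psi N C used lab' X = psi N C used lab (upd2 X s 1 (X s * X (s + 1))) := by
  unfold psi
  apply Finset.prod_congr rfl
  intro c _
  congr 1
  apply W_pair hN
  · intro p e1 e2
    unfold blk upd2
    by_cases hp : p ∈ used ∧ lab p = c
    · rw [if_pos ⟨hp.1, by rw [h p hp.1 e1 e2]; exact hp.2⟩, if_pos hp]
      simp [e1, e2]
    · rw [if_neg, if_neg hp]
      rintro ⟨a1, a2⟩
      exact hp ⟨a1, by rw [← h p a1 e1 e2]; exact a2⟩
  · unfold blk upd2
    simp only [h0, h1, hs, hs1, true_and]
    by_cases hc : lab (s + 1) = c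
    · simp [hc]
    · simp [hc]

theorem W_merge {f fx fy : ℕ → M} {n : ℕ}
    (h : ∀ i, i < n → (f i = fx i ∧ fy i = 1) ∨
      (f i = fy i ∧ fx i = 1 ∧ ∀ j, j < i → fx j = 1)) :
    W f n = W fy n * W fx n := by
  induction n with
  | zero => simp [W_zero]
  | succ n ih =>
    have ih' := ih (fun i hi => h i (by omega))
    rw [W_succ, W_succ, W_succ]
    rcases h n (by omega) with ⟨h1, h2⟩ | ⟨h1, h2, h3⟩
    · rw [h1, h2, ih', Matrix.mul_one, Matrix.mul_assoc]
    · rw [h1, h2, ih', W_one h3, Matrix.mul_one, Matrix.mul_one, Matrix.mul_one]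

theorem U_trace (A B : M) :
    ∑ i, ∑ j, Matrix.trace (A * U i j) * Matrix.trace (B * U j i) = Matrix.trace (A * B) := by
  obtain ⟨a, b, c, d, rfl⟩ : ∃ z00 z01 z10 z11, A = !![z00, z01; z10, z11] :=
    ⟨_, _, _, _, Matrix.eta_fin_two A⟩
  obtain ⟨a', b', c', d', rfl⟩ : ∃ z00 z01 z10 z11, B = !![z00, z01; z10, z11] :=
    ⟨_, _, _, _, Matrix.eta_fin_two B⟩
  simp only [Fin.sum_univ_two, U00, U01, U10, U11, Matrix.mul_fin_two, Matrix.trace_fin_two]
  simp
  ring

theorem tq_eq (X : M) : tq X = Matrix.trace (K * X) := by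
  obtain ⟨a, b, c, d, rfl⟩ : ∃ z00 z01 z10 z11, X = !![z00, z01; z10, z11] :=
    ⟨_, _, _, _, Matrix.eta_fin_two X⟩
  simp only [tq, K, Matrix.trace_fin_two, Matrix.mul_fin_two]
  simp

theorem U_Ki (Z : M) : ∑ i, ∑ j, Z * U i j * (Ki * U j i) = Z := by
  have h : ∀ i j, Z * U i j * (Ki * U j i) = Z * (U i j * Ki * U j i) := by
    intro i j; simp only [Matrix.mul_assoc]
  simp only [h]
  simp only [Fin.sum_univ_two, ← Matrix.mul_add]
  have : U 0 0 * Ki * U 0 0 + U 0 1 * Ki * U 1 0 + (U 1 0 * Ki * U 0 1 + U 1 1 * Ki * U 1 1) = 1 := by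
    simp only [U00, U01, U10, U11, Ki, Matrix.mul_fin_two, one_two]
    ext i j
    fin_cases i <;> fin_cases j <;> simp
  rw [this, Matrix.mul_one]

/-- The gluing identity. -/
theorem glue {Px Py Qx Qy Z : M} (h : Py = 1 ∨ Qx = 1) :
    ∑ i, ∑ j, tq (Px * (Z * U i j) * Qx) * tq (Py * (Ki * U j i) * Qy) =
      tq (Py * Px * Z * (Qy * Qx)) := by
  have h1 : ∀ i j, tq (Px * (Z * U i j) * Qx) = Matrix.trace (Qx * K * Px * Z * U i j) := by
    intro i j
    rw [tq_eq, ← Matrix.mul_assoc, Matrix.trace_mul_comm]
    simp only [Matrix.mul_assoc]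
  have h2 : ∀ i j, tq (Py * (Ki * U j i) * Qy) = Matrix.trace (Qy * K * Py * Ki * U j i) := by
    intro i j
    rw [tq_eq, ← Matrix.mul_assoc, Matrix.trace_mul_comm]
    simp only [Matrix.mul_assoc]
  simp only [h1, h2]
  rw [U_trace, tq_eq]
  rcases h with h | h
  · subst h
    calc Matrix.trace (Qx * K * Px * Z * (Qy * K * 1 * Ki))
        = Matrix.trace (Qx * (K * Px * Z * Qy * (K * Ki))) := by
          simp only [Matrix.mul_assoc, Matrix.one_mul]
      _ = Matrix.trace ((K * Px * Z * Qy * (K * Ki)) * Qx) := Matrix.trace_mul_comm _ _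
      _ = _ := by
          rw [K_mul_Ki, Matrix.mul_one]
          simp only [Matrix.mul_assoc, Matrix.one_mul]
  · subst h
    calc Matrix.trace (1 * K * Px * Z * (Qy * K * Py * Ki))
        = Matrix.trace ((K * Px * Z * Qy * K * Py) * Ki) := by
          simp only [Matrix.mul_assoc, Matrix.one_mul]
      _ = Matrix.trace (Ki * (K * Px * Z * Qy * K * Py)) := Matrix.trace_mul_comm _ _
      _ = Matrix.trace ((Ki * K) * Px * Z * Qy * (K * Py)) := by
          simp only [Matrix.mul_assoc]
      _ = Matrix.trace ((Px * Z * Qy) * (K * Py)) := by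
          rw [Ki_mul_K, Matrix.one_mul]
      _ = Matrix.trace ((K * Py) * (Px * Z * Qy)) := Matrix.trace_mul_comm _ _
      _ = _ := by
          simp only [Matrix.mul_assoc, Matrix.mul_one]

theorem W_upd2 {used : Finset ℕ} {lab : ℕ → ℕ} {s : ℕ} (hs : s ∈ used)
    (hs1 : s + 1 ∈ used) (X : ℕ → M) (A B : M) (c k : ℕ) :
    W (blk used lab c (upd2 X s A B)) (s + 2 + k) =
      W (blk used lab c X) s * ((if lab s = c then A else 1) * (if lab (s + 1) = c then B else 1)) *
        W (fun i => blk used lab c X (s + 2 + i)) k := by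
  rw [W_split2]
  congr 1
  · congr 1
    · apply W_congr
      intro p hp
      unfold blk upd2
      rw [if_neg (show ¬ p = s by omega), if_neg (show ¬ p = s + 1 by omega)]
    · unfold blk upd2
      simp [hs, hs1]
  · apply W_congr
    intro i _
    unfold blk upd2
    rw [if_neg (show ¬ s + 2 + i = s by omega), if_neg (show ¬ s + 2 + i = s + 1 by omega)]

theorem W_self2 {used : Finset ℕ} {lab : ℕ → ℕ} {s : ℕ} (hs : s ∈ used)
    (hs1 : s + 1 ∈ used) (X : ℕ → M) (c k : ℕ) :
    W (blk used lab c X) (s + 2 + k) =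
      W (blk used lab c X) s * ((if lab s = c then X s else 1) *
        (if lab (s + 1) = c then X (s + 1) else 1)) *
        W (fun i => blk used lab c X (s + 2 + i)) k := by
  rw [W_split2]
  congr 2
  unfold blk
  simp [hs, hs1]

/-- Both edges open: the clusters of the two legs are joined at the new vertex. -/
theorem psi_both {N C : ℕ} {used : Finset ℕ} {lab lab' : ℕ → ℕ} {s : ℕ} (hs : s ∈ used)
    (hs1 : s + 1 ∈ used) (hN : s + 1 < N) (hC : lab s < C) (hC1 : lab (s + 1) < C)
    (hnc : NC used lab)
    (h : ∀ p ∈ used, lab' p = if lab p = lab (s + 1) then lab s else lab p) (X : ℕ → M) :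
    psi N C used lab' X =
      ∑ i, ∑ j, psi N C used lab (upd2 X s (X s * X (s + 1) * U i j) (Ki * U j i)) := by
  obtain ⟨k, rfl⟩ : ∃ k, N = s + 2 + k := ⟨N - (s + 2), by omega⟩
  set Z := X s * X (s + 1) with hZ
  by_cases hxy : lab s = lab (s + 1)
  · -- same block
    have hl : ∀ p ∈ used, lab' p = lab p := by
      intro p hp
      rw [h p hp]
      split_ifs with h1
      · rw [hxy, h1]
      · rfl
    have e0 : psi (s + 2 + k) C used lab' X = psi (s + 2 + k) C used lab X := by
      unfold psi
      apply Finset.prod_congr rfl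
      intro c _
      congr 1
      apply W_congr
      intro p _
      unfold blk
      by_cases hp : p ∈ used
      · rw [hl p hp]
      · rw [if_neg (fun h => hp h.1), if_neg (fun h => hp h.1)]
    rw [e0]
    have e1 : ∀ i j, psi (s + 2 + k) C used lab (upd2 X s (Z * U i j) (Ki * U j i)) =
        tq (W (blk used lab (lab s) X) s * (Z * U i j * (Ki * U j i)) *
          W (fun i => blk used lab (lab s) X (s + 2 + i)) k) *
        ∏ c ∈ (Finset.range C).erase (lab s),
          tq (W (blk used lab c X) s * W (fun i => blk used lab c X (s + 2 + i)) k) := by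
      intro i j
      unfold psi
      rw [← Finset.mul_prod_erase _ _ (Finset.mem_range.mpr hC)]
      congr 1
      · rw [W_upd2 hs hs1, if_pos rfl, if_pos hxy.symm]
      · apply Finset.prod_congr rfl
        intro c hc
        rw [Finset.mem_erase] at hc
        rw [W_upd2 hs hs1, if_neg (fun h => hc.1 h.symm), if_neg (fun h => hc.1 (by rw [hxy, h])),
          Matrix.mul_one, Matrix.mul_one]
    have e2 : psi (s + 2 + k) C used lab X =
        tq (W (blk used lab (lab s) X) s * Z *
          W (fun i => blk used lab (lab s) X (s + 2 + i)) k) *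
        ∏ c ∈ (Finset.range C).erase (lab s),
          tq (W (blk used lab c X) s * W (fun i => blk used lab c X (s + 2 + i)) k) := by
      unfold psi
      rw [← Finset.mul_prod_erase _ _ (Finset.mem_range.mpr hC)]
      congr 1
      · rw [W_self2 hs hs1, if_pos rfl, if_pos hxy.symm]
      · apply Finset.prod_congr rfl
        intro c hc
        rw [Finset.mem_erase] at hc
        rw [W_self2 hs hs1, if_neg (fun h => hc.1 h.symm), if_neg (fun h => hc.1 (by rw [hxy, h])),
          Matrix.mul_one, Matrix.mul_one]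
    rw [e2]
    simp only [e1, ← Finset.sum_mul]
    congr 1
    have e3 := U_Ki Z
    have hadd : ∀ P Q A B : M, tq (P * (A + B) * Q) = tq (P * A * Q) + tq (P * B * Q) := by
      intro P Q A B
      rw [Matrix.mul_add, Matrix.add_mul, tq_add]
    conv_lhs => rw [← e3]
    simp only [Fin.sum_univ_two, hadd]
  · -- different blocks
    set x := lab s with hx
    set y := lab (s + 1) with hy
    have hyx : y ≠ x := fun h => hxy h.symm
    have hy' : y ∈ (Finset.range C).erase x :=
      Finset.mem_erase.mpr ⟨hyx, Finset.mem_range.mpr hC1⟩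
    have e1 : ∀ i j, psi (s + 2 + k) C used lab (upd2 X s (Z * U i j) (Ki * U j i)) =
        tq (W (blk used lab x X) s * (Z * U i j) *
          W (fun i => blk used lab x X (s + 2 + i)) k) *
        tq (W (blk used lab y X) s * (Ki * U j i) *
          W (fun i => blk used lab y X (s + 2 + i)) k) *
        ∏ c ∈ ((Finset.range C).erase x).erase y,
          tq (W (blk used lab c X) s * W (fun i => blk used lab c X (s + 2 + i)) k) := by
      intro i j
      unfold psi
      rw [← Finset.mul_prod_erase _ _ (Finset.mem_range.mpr hC),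
        ← Finset.mul_prod_erase _ _ hy', ← mul_assoc]
      congr 1
      · congr 1
        · rw [W_upd2 hs hs1, if_pos rfl, if_neg hyx, Matrix.mul_one]
        · rw [W_upd2 hs hs1, if_neg hxy, if_pos rfl, Matrix.one_mul]
      · apply Finset.prod_congr rfl
        intro c hc
        rw [Finset.mem_erase, Finset.mem_erase] at hc
        rw [W_upd2 hs hs1, if_neg (fun h => hc.2.1 h.symm), if_neg (fun h => hc.1 h.symm),
          Matrix.mul_one, Matrix.mul_one]
    simp only [e1, ← Finset.sum_mul]
    have hPQ : W (blk used lab y X) s = 1 ∨ W (fun i => blk used lab x X (s + 2 + i)) k = 1 := by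
      by_cases hA : ∃ j ∈ used, j < s ∧ lab j = y
      · right
        obtain ⟨j, hj, hjs, hjy⟩ := hA
        apply W_one
        intro i _
        unfold blk
        rw [if_neg]
        rintro ⟨h1, h2⟩
        have := hnc j hj s hs (s + 1) hs1 (s + 2 + i) h1 hjs (by omega) (by omega) hjy h2.symm
        exact hyx (by rw [← hjy, this])
      · left
        apply W_one
        intro i hi
        unfold blk
        rw [if_neg]
        rintro ⟨h1, h2⟩
        exact hA ⟨i, h1, hi, h2⟩
    rw [glue hPQ]
    unfold psi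
    rw [← Finset.mul_prod_erase _ _ (Finset.mem_range.mpr hC),
        ← Finset.mul_prod_erase _ _ hy', ← mul_assoc]
    have hls : lab' s = x := by
      rw [h s hs, if_neg hxy]
    have hls1 : lab' (s + 1) = x := by
      rw [h (s + 1) hs1, if_pos rfl]
    congr 1
    · have f1 : W (blk used lab' y X) (s + 2 + k) = 1 := by
        apply W_one
        intro p _
        unfold blk
        rw [if_neg]
        rintro ⟨h1, h2⟩
        rw [h p h1] at h2
        split_ifs at h2 with h3
        · exact hxy h2
        · exact h3 h2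
      rw [f1, tq_one, mul_one, W_self2 hs hs1, if_pos hls, if_pos hls1]
      have f2 : W (blk used lab' x X) s = W (blk used lab y X) s * W (blk used lab x X) s := by
        apply W_merge
        intro i hi
        unfold blk
        by_cases hu : i ∈ used
        · rw [h i hu]
          by_cases h1 : lab i = y
          · right
            rw [if_pos h1]
            refine ⟨?_, ?_, ?_⟩
            · simp [hu, h1]
            · rw [if_neg]; rintro ⟨_, h2⟩; exact hyx (by rw [← h1, h2])
            · intro j hj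
              rw [if_neg]
              rintro ⟨h2, h3⟩
              have := hnc j h2 i hu s hs (s + 1) hs1 hj hi (by omega) h3 h1
              exact hyx (by rw [← h1, ← this, h3])
          · left
            rw [if_neg h1]
            refine ⟨rfl, ?_⟩
            rw [if_neg]; rintro ⟨_, h2⟩; exact h1 h2
        · left
          simp [hu]
      have f3 : W (fun i => blk used lab' x X (s + 2 + i)) k =
          W (fun i => blk used lab y X (s + 2 + i)) k *
            W (fun i => blk used lab x X (s + 2 + i)) k := by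
        apply W_merge
        intro i hi
        unfold blk
        by_cases hu : s + 2 + i ∈ used
        · rw [h _ hu]
          by_cases h1 : lab (s + 2 + i) = y
          · right
            rw [if_pos h1]
            refine ⟨?_, ?_, ?_⟩
            · simp [hu, h1]
            · rw [if_neg]; rintro ⟨_, h2⟩; exact hyx (by rw [← h1, h2])
            · intro j hj
              rw [if_neg]
              rintro ⟨h2, h3⟩
              have := hnc s hs (s + 1) hs1 (s + 2 + j) h2 (s + 2 + i) hu (by omega) (by omega)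
                (by omega) h3.symm h1.symm
              exact hxy this
          · left
            rw [if_neg h1]
            refine ⟨rfl, ?_⟩
            rw [if_neg]; rintro ⟨_, h2⟩; exact h1 h2
        · left
          simp [hu]
      rw [f2, f3]
    · apply Finset.prod_congr rfl
      intro c hc
      rw [Finset.mem_erase, Finset.mem_erase] at hc
      have g1 : ∀ p, blk used lab' c X p = blk used lab c X p := by
        intro p
        unfold blk
        by_cases hu : p ∈ used
        · rw [h p hu]
          by_cases h1 : lab p = y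
          · rw [if_pos h1, if_neg (fun h => hc.2.1 h.2.symm), if_neg]
            rintro ⟨_, h2⟩
            exact hc.1 (by rw [← h1, h2])
          · rw [if_neg h1]
        · simp [hu]
      rw [W_congr (fun i _ => g1 i), W_self2 hs hs1, if_neg (fun h => hc.2.1 h.symm),
        if_neg (fun h => hc.1 h.symm), Matrix.mul_one, Matrix.mul_one]

end H973
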