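import Pool.Agent.H973R2.Young

/-!
The three induction steps.
-/

namespace H973

open H974 Finset

variable {n : ℕ} {S : Finset Vtx} {used : Finset ℕ} {ep : ℕ → Vtx} {a : ℕ → ℂ}

theorem step_interior (h : Legs n S used ep a) (hf : FluxZero (4 * n + 1) S used ep a) {i j : ℤ}
    (hv : ((i, j) : Vtx) ∉ S) (hi : 0 < i) (hj : 0 < j) (hin : i < n) (hjn : j < n)
    (hu : ((i - 1, j) : Vtx) ∈ S) (hw : ((i, j - 1) : Vtx) ∈ S) :
    ∃ used' ep' a', Legs n (insert (i, j) S) used' ep' a' ∧
      FluxZero (4 * n + 1) (insert (i, j) S) used' ep' a' := by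
  obtain ⟨s, hs⟩ : ∃ s : ℕ, (s : ℤ) = 2 * n + i - j - 1 := ⟨(2 * n + i - j - 1).toNat, by omega⟩
  have hru : pR n (i - 1, j) = s := by unfold pR; simp only; omega
  have huw : pU n (i, j - 1) = s + 1 := by unfold pU; simp only; omega
  have hrv : pR n (i, j) = s + 1 := by unfold pR; simp only; omega
  have huv : pU n (i, j) = s := by unfold pU; simp only; omega
  have hu' : (((i - 1, j) : Vtx).1 + 1, ((i - 1, j) : Vtx).2) ∉ S := by
    simpa only [sub_add_cancel] using hv
  have hw' : (((i, j - 1) : Vtx).1, ((i, j - 1) : Vtx).2 + 1) ∉ S := by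
    simpa only [sub_add_cancel] using hv
  obtain ⟨s1, s2, s3⟩ := h.l3 _ hu hu'
  obtain ⟨w1, w2, w3⟩ := h.l2 _ hw hw'
  rw [hru] at s1 s2 s3
  rw [huw] at w1 w2 w3
  have nv1 : ((i + 1, j) : Vtx) ∉ insert (i, j) S := by
    rw [Finset.mem_insert]
    rintro (h' | h')
    · simp at h'
    · exact hv (h.dc _ h' (i, j) hi.le hj.le (by simp) (by simp))
  have nv2 : ((i, j + 1) : Vtx) ∉ insert (i, j) S := by
    rw [Finset.mem_insert]
    rintro (h' | h')
    · simp at h'
    · exact hv (h.dc _ h' (i, j) hi.le hj.le (by simp) (by simp))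
  have hbd : ∀ x ∈ insert (i, j) S, 0 ≤ x.1 ∧ 0 ≤ x.2 ∧ x.1 < n ∧ x.2 < n := by
    intro x hx
    rcases Finset.mem_insert.mp hx with rfl | hx
    · exact ⟨hi.le, hj.le, hin, hjn⟩
    · exact h.bd x hx
  refine ⟨used, fun p => if p = s ∨ p = s + 1 then (i, j) else ep p,
    fun p => if p = s then 1 - q else if p = s + 1 then 1 else a p, ?_, ?_⟩
  · have keep : ∀ p, p ≠ s → p ≠ s + 1 →
        ((fun p => if p = s ∨ p = s + 1 then ((i, j) : Vtx) else ep p) p = ep p ∧
        (fun p => if p = s then 1 - q else if p = s + 1 then 1 else a p) p = a p) := by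
      intro p h1 h2
      simp only [h1, h2, or_self, if_false, and_self]
    constructor
    · exact hbd
    · intro x hx y h1 h2 h3 h4
      rw [Finset.mem_insert]
      rcases Finset.mem_insert.mp hx with rfl | hx
      · simp only at h3 h4
        by_cases e1 : y.1 ≤ i - 1
        · right; exact h.dc _ hu y h1 h2 e1 h4
        · by_cases e2 : y.2 ≤ j - 1
          · right; exact h.dc _ hw y h1 h2 h3 e2
          · left
            ext <;> simp only <;> omega
      · right; exact h.dc x hx y h1 h2 h3 h4
    · intro x hx hx0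
      have hx' : x ∈ S := by
        rcases Finset.mem_insert.mp hx with rfl | hx
        · simp only at hx0; omega
        · exact hx
      have hb := h.bd x hx'
      have hp : pL x ≠ s ∧ pL x ≠ s + 1 := by unfold pL; omega
      obtain ⟨k1, k2⟩ := keep _ hp.1 hp.2
      obtain ⟨m1, m2, m3⟩ := h.l1 x hx' hx0
      exact ⟨m1, k1.trans m2, k2.trans m3⟩
    · intro x hx hx0
      by_cases hxv : x = (i, j)
      · subst hxv
        rw [huv]
        refine ⟨s1, ?_, ?_⟩ <;> simp
      · have hx' : x ∈ S := (Finset.mem_insert.mp hx).resolve_left hxv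
        have hx0' : (x.1, x.2 + 1) ∉ S := fun h' => hx0 (Finset.mem_insert_of_mem h')
        obtain ⟨m1, m2, m3⟩ := h.l2 x hx' hx0'
        have hp1 : pU n x ≠ s := by
          intro h'
          rw [h', s3] at m3
          exact one_sub_q_ne_one m3.symm
        have hp2 : pU n x ≠ s + 1 := by
          intro h'
          rw [h', w2] at m2
          subst m2
          apply hx0
          simp
        obtain ⟨k1, k2⟩ := keep _ hp1 hp2
        exact ⟨m1, k1.trans m2, k2.trans m3⟩
    · intro x hx hx0
      by_cases hxv : x = (i, j)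
      · subst hxv
        rw [hrv]
        refine ⟨w1, ?_, ?_⟩ <;> simp
      · have hx' : x ∈ S := (Finset.mem_insert.mp hx).resolve_left hxv
        have hx0' : (x.1 + 1, x.2) ∉ S := fun h' => hx0 (Finset.mem_insert_of_mem h')
        obtain ⟨m1, m2, m3⟩ := h.l3 x hx' hx0'
        have hp1 : pR n x ≠ s + 1 := by
          intro h'
          rw [h', w3] at m3
          exact one_sub_q_ne_one m3
        have hp2 : pR n x ≠ s := by
          intro h'
          rw [h', s2] at m2
          subst m2
          apply hx0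
          simp
        obtain ⟨k1, k2⟩ := keep _ hp2 hp1
        exact ⟨m1, k1.trans m2, k2.trans m3⟩
    · intro x hx hx0
      have hx' : x ∈ S := by
        rcases Finset.mem_insert.mp hx with rfl | hx
        · simp only at hx0; omega
        · exact hx
      have hb := h.bd x hx'
      have hp : pD n x ≠ s ∧ pD n x ≠ s + 1 := by unfold pD; omega
      obtain ⟨k1, k2⟩ := keep _ hp.1 hp.2
      obtain ⟨m1, m2, m3⟩ := h.l4 x hx' hx0
      exact ⟨m1, k1.trans m2, k2.trans m3⟩
    · intro r hr
      rcases h.l5 r hr with ⟨x, hx, h1, h2⟩ | ⟨x, hx, h1, h2⟩ | ⟨x, hx, h1, h2⟩ | ⟨x, hx, h1, h2⟩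
      · left; exact ⟨x, Finset.mem_insert_of_mem hx, h1, h2⟩
      · by_cases e : (x.1, x.2 + 1) = ((i, j) : Vtx)
        · right; right; left
          refine ⟨(i, j), Finset.mem_insert_self _ _, nv1, ?_⟩
          rw [h2, hrv]
          rw [Prod.mk.injEq] at e
          unfold pU; omega
        · right; left
          refine ⟨x, Finset.mem_insert_of_mem hx, ?_, h2⟩
          rw [Finset.mem_insert]
          rintro (h' | h')
          · exact e h'
          · exact h1 h'
      · by_cases e : (x.1 + 1, x.2) = ((i, j) : Vtx)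
        · right; left
          refine ⟨(i, j), Finset.mem_insert_self _ _, nv2, ?_⟩
          rw [h2, huv]
          rw [Prod.mk.injEq] at e
          unfold pR; omega
        · right; right; left
          refine ⟨x, Finset.mem_insert_of_mem hx, ?_, h2⟩
          rw [Finset.mem_insert]
          rintro (h' | h')
          · exact e h'
          · exact h1 h'
      · right; right; right; exact ⟨x, Finset.mem_insert_of_mem hx, h1, h2⟩
  · refine hf.interior (v := (i, j)) (u := (i - 1, j)) (w := (i, j - 1)) (e1 := (i - 1, j, true))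
      (e2 := (i, j - 1, false)) (s := s) hv hu hw ⟨rfl, by simp⟩ ⟨rfl, by simp⟩ (by simp)
      (ES_insert_interior h hv hi hj hu hw) s1 w1 (by omega) s2 w2 h.epS ?_ ?_ ?_ ?_ ?_ ?_ ?_
    · intro p h1 h2
      simp only [h1, h2, or_self, if_false]
    · simp
    · simp
    · intro r h1 h2
      simp only [h1, h2, if_false]
    · rw [w3, s3, mul_one]
    · simp [s3]
    · simp [s3]

theorem step_bottom (h : Legs n S used ep a) (hf : FluxZero (4 * n + 1) S used ep a) {i : ℤ}
    (hv : ((i, 0) : Vtx) ∉ S) (hi : 0 < i) (hin : i < n)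
    (hu : ((i - 1, 0) : Vtx) ∈ S) :
    ∃ used' ep' a', Legs n (insert (i, 0) S) used' ep' a' ∧
      FluxZero (4 * n + 1) (insert (i, 0) S) used' ep' a' := by
  obtain ⟨s, hs⟩ : ∃ s : ℕ, (s : ℤ) = 2 * n + i - 1 := ⟨(2 * n + i - 1).toNat, by omega⟩
  obtain ⟨t, ht⟩ : ∃ t : ℕ, (t : ℤ) = 4 * n - i := ⟨(4 * n - i).toNat, by omega⟩
  have hru : pR n (i - 1, 0) = s := by unfold pR; simp only; omega
  have hrv : pR n (i, 0) = s + 1 := by unfold pR; simp only; omega
  have huv : pU n (i, 0) = s := by unfold pU; simp only; omega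
  have hdv : pD n (i, 0) = t := by unfold pD; simp only; omega
  have hu' : (((i - 1, 0) : Vtx).1 + 1, ((i - 1, 0) : Vtx).2) ∉ S := by
    simpa only [sub_add_cancel] using hv
  obtain ⟨s1, s2, s3⟩ := h.l3 _ hu hu'
  rw [hru] at s1 s2 s3
  have nv1 : ((i + 1, 0) : Vtx) ∉ insert (i, 0) S := by
    rw [Finset.mem_insert]
    rintro (h' | h')
    · simp at h'
    · exact hv (h.dc _ h' (i, 0) hi.le le_rfl (by simp) (by simp))
  have nv2 : ((i, 0 + 1) : Vtx) ∉ insert (i, 0) S := by
    rw [Finset.mem_insert]
    rintro (h' | h')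
    · simp at h'
    · exact hv (h.dc _ h' (i, 0) hi.le le_rfl (by simp) (by simp))
  have hxi : ∀ x ∈ S, x.1 < i := by
    intro x hx
    by_contra hc
    have hb := h.bd x hx
    exact hv (h.dc x hx (i, 0) hi.le le_rfl (by simp only; omega) hb.2.1)
  have hgap : ∀ r ∈ used, r ≠ s → r < s ∨ t < r := by
    intro r hr hrs
    rcases h.l5 r hr with ⟨x, hx, h1, h2⟩ | ⟨x, hx, h1, h2⟩ | ⟨x, hx, h1, h2⟩ | ⟨x, hx, h1, h2⟩
    · have hb := h.bd x hx
      unfold pL at h2
      omega
    · have hb := h.bd x hx
      have := hxi x hx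
      unfold pU at h2
      omega
    · have hb := h.bd x hx
      have := hxi x hx
      unfold pR at h2
      omega
    · have hb := h.bd x hx
      have := hxi x hx
      unfold pD at h2
      omega
  refine ⟨insert s (insert (s + 1) (insert t (used.erase s))),
    fun p => if p = s ∨ p = s + 1 ∨ p = t then (i, 0) else ep p,
    fun p => if p = s then 1 - q else if p = s + 1 then 1 else if p = t then q else a p, ?_, ?_⟩
  · have keep : ∀ p ∈ used, p ≠ s → (p ∈ insert s (insert (s + 1) (insert t (used.erase s))) ∧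
        (fun p => if p = s ∨ p = s + 1 ∨ p = t then ((i, 0) : Vtx) else ep p) p = ep p ∧
        (fun p => if p = s then 1 - q else if p = s + 1 then 1 else if p = t then q else a p) p
          = a p) := by
      intro p hp h1
      have h2 : p ≠ s + 1 := by have := hgap p hp h1; omega
      have h3 : p ≠ t := by have := hgap p hp h1; omega
      refine ⟨mem_ins3.mpr (Or.inr (Or.inr (Or.inr ⟨h1, hp⟩))), ?_, ?_⟩
      · simp only [h1, h2, h3, or_self, if_false]
      · simp only [h1, h2, h3, if_false]
    constructor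
    · intro x hx
      rcases Finset.mem_insert.mp hx with rfl | hx
      · exact ⟨hi.le, le_rfl, hin, by simp only; omega⟩
      · exact h.bd x hx
    · intro x hx y h1 h2 h3 h4
      rw [Finset.mem_insert]
      rcases Finset.mem_insert.mp hx with rfl | hx
      · simp only at h3 h4
        by_cases e1 : y.1 ≤ i - 1
        · right; exact h.dc _ hu y h1 h2 e1 h4
        · left
          ext <;> simp only <;> omega
      · right; exact h.dc x hx y h1 h2 h3 h4
    · intro x hx hx0
      have hx' : x ∈ S := by
        rcases Finset.mem_insert.mp hx with rfl | hx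
        · simp only at hx0; omega
        · exact hx
      have hb := h.bd x hx'
      obtain ⟨m1, m2, m3⟩ := h.l1 x hx' hx0
      have hp : pL x ≠ s := by unfold pL; omega
      obtain ⟨k0, k1, k2⟩ := keep _ m1 hp
      exact ⟨k0, k1.trans m2, k2.trans m3⟩
    · intro x hx hx0
      by_cases hxv : x = (i, 0)
      · subst hxv
        rw [huv]
        refine ⟨mem_ins3.mpr (Or.inl rfl), ?_, ?_⟩ <;> simp
      · have hx' : x ∈ S := (Finset.mem_insert.mp hx).resolve_left hxv
        have hx0' : (x.1, x.2 + 1) ∉ S := fun h' => hx0 (Finset.mem_insert_of_mem h')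
        obtain ⟨m1, m2, m3⟩ := h.l2 x hx' hx0'
        have hp1 : pU n x ≠ s := by
          intro h'
          rw [h', s3] at m3
          exact one_sub_q_ne_one m3.symm
        obtain ⟨k0, k1, k2⟩ := keep _ m1 hp1
        exact ⟨k0, k1.trans m2, k2.trans m3⟩
    · intro x hx hx0
      by_cases hxv : x = (i, 0)
      · subst hxv
        rw [hrv]
        refine ⟨mem_ins3.mpr (Or.inr (Or.inl rfl)), ?_, ?_⟩ <;> simp
      · have hx' : x ∈ S := (Finset.mem_insert.mp hx).resolve_left hxv
        have hx0' : (x.1 + 1, x.2) ∉ S := fun h' => hx0 (Finset.mem_insert_of_mem h')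
        obtain ⟨m1, m2, m3⟩ := h.l3 x hx' hx0'
        have hp2 : pR n x ≠ s := by
          intro h'
          rw [h', s2] at m2
          subst m2
          apply hx0
          simp
        obtain ⟨k0, k1, k2⟩ := keep _ m1 hp2
        exact ⟨k0, k1.trans m2, k2.trans m3⟩
    · intro x hx hx0
      by_cases hxv : x = (i, 0)
      · subst hxv
        rw [hdv]
        refine ⟨mem_ins3.mpr (Or.inr (Or.inr (Or.inl rfl))), ?_, ?_⟩
        · simp
        · have e1 : t ≠ s := by omega
          have e2 : t ≠ s + 1 := by omega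
          simp [e1, e2]
      · have hx' : x ∈ S := (Finset.mem_insert.mp hx).resolve_left hxv
        have hb := h.bd x hx'
        obtain ⟨m1, m2, m3⟩ := h.l4 x hx' hx0
        have hp : pD n x ≠ s := by unfold pD; omega
        obtain ⟨k0, k1, k2⟩ := keep _ m1 hp
        exact ⟨k0, k1.trans m2, k2.trans m3⟩
    · intro r hr
      rcases mem_ins3.mp hr with rfl | rfl | rfl | ⟨hrs, hr⟩
      · right; left; exact ⟨(i, 0), Finset.mem_insert_self _ _, nv2, huv.symm⟩
      · right; right; left; exact ⟨(i, 0), Finset.mem_insert_self _ _, nv1, hrv.symm⟩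
      · right; right; right; exact ⟨(i, 0), Finset.mem_insert_self _ _, rfl, hdv.symm⟩
      · rcases h.l5 r hr with ⟨x, hx, h1, h2⟩ | ⟨x, hx, h1, h2⟩ | ⟨x, hx, h1, h2⟩ |
          ⟨x, hx, h1, h2⟩
        · left; exact ⟨x, Finset.mem_insert_of_mem hx, h1, h2⟩
        · right; left
          refine ⟨x, Finset.mem_insert_of_mem hx, ?_, h2⟩
          rw [Finset.mem_insert]
          rintro (h' | h')
          · rw [Prod.mk.injEq] at h'
            have := h.bd x hx
            omega
          · exact h1 h'
        · right; right; left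
          refine ⟨x, Finset.mem_insert_of_mem hx, ?_, h2⟩
          rw [Finset.mem_insert]
          rintro (h' | h')
          · rw [Prod.mk.injEq] at h'
            apply hrs
            rw [h2]
            unfold pR
            omega
          · exact h1 h'
        · right; right; right; exact ⟨x, Finset.mem_insert_of_mem hx, h1, h2⟩
  · refine hf.axis (v := (i, 0)) (u := (i - 1, 0)) (e := (i - 1, 0, true))
      (s := s) (t1 := s) (t2 := s + 1) (t3 := t) hv hu ⟨rfl, by simp⟩
      (ES_insert_bottom h hv hi hu) s1 (by omega) (by omega) le_rfl (by omega) (by omega)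
      hgap s2 h.epS ?_ ?_ ?_ ?_ ?_ ?_ ?_ ?_
    · intro p hp h1
      have h2 : p ≠ s + 1 := by have := hgap p hp h1; omega
      have h3 : p ≠ t := by have := hgap p hp h1; omega
      simp only [h1, h2, h3, or_self, if_false]
    · simp
    · simp
    · simp
    · intro r hr
      have h1 : r ≠ s := by omega
      have h2 : r ≠ s + 1 := by omega
      have h3 : r ≠ t := by omega
      simp only [h1, h2, h3, if_false]
    · simp [s3]
    · simp [s3]
    · have e1 : t ≠ s := by omega
      have e2 : t ≠ s + 1 := by omega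
      simp [e1, e2, s3]

theorem step_left (h : Legs n S used ep a) (hf : FluxZero (4 * n + 1) S used ep a) {j : ℤ}
    (hv : ((0, j) : Vtx) ∉ S) (hj : 0 < j) (hjn : j < n)
    (hw : ((0, j - 1) : Vtx) ∈ S) :
    ∃ used' ep' a', Legs n (insert (0, j) S) used' ep' a' ∧
      FluxZero (4 * n + 1) (insert (0, j) S) used' ep' a' := by
  obtain ⟨s, hs⟩ : ∃ s : ℕ, (s : ℤ) = 2 * n - j - 1 := ⟨(2 * n - j - 1).toNat, by omega⟩
  obtain ⟨t, ht⟩ : ∃ t : ℕ, (t : ℤ) = j := ⟨j.toNat, by omega⟩
  have huw : pU n (0, j - 1) = s + 1 := by unfold pU; simp only; omega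
  have hrv : pR n (0, j) = s + 1 := by unfold pR; simp only; omega
  have huv : pU n (0, j) = s := by unfold pU; simp only; omega
  have hlv : pL (0, j) = t := by unfold pL; simp only; omega
  have hw' : (((0, j - 1) : Vtx).1, ((0, j - 1) : Vtx).2 + 1) ∉ S := by
    simpa only [sub_add_cancel] using hv
  obtain ⟨s1, s2, s3⟩ := h.l2 _ hw hw'
  rw [huw] at s1 s2 s3
  have nv1 : ((0 + 1, j) : Vtx) ∉ insert (0, j) S := by
    rw [Finset.mem_insert]
    rintro (h' | h')
    · simp at h'
    · exact hv (h.dc _ h' (0, j) le_rfl hj.le (by simp) (by simp))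
  have nv2 : ((0, j + 1) : Vtx) ∉ insert (0, j) S := by
    rw [Finset.mem_insert]
    rintro (h' | h')
    · simp at h'
    · exact hv (h.dc _ h' (0, j) le_rfl hj.le (by simp) (by simp))
  have hxj : ∀ x ∈ S, x.2 < j := by
    intro x hx
    by_contra hc
    have hb := h.bd x hx
    exact hv (h.dc x hx (0, j) le_rfl hj.le hb.1 (by simp only; omega))
  have hgap : ∀ r ∈ used, r ≠ s + 1 → r < t ∨ s + 1 < r := by
    intro r hr hrs
    rcases h.l5 r hr with ⟨x, hx, h1, h2⟩ | ⟨x, hx, h1, h2⟩ | ⟨x, hx, h1, h2⟩ | ⟨x, hx, h1, h2⟩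
    · have hb := h.bd x hx
      have := hxj x hx
      unfold pL at h2
      omega
    · have hb := h.bd x hx
      have := hxj x hx
      unfold pU at h2
      omega
    · have hb := h.bd x hx
      have := hxj x hx
      unfold pR at h2
      omega
    · have hb := h.bd x hx
      unfold pD at h2
      omega
  refine ⟨insert t (insert s (insert (s + 1) (used.erase (s + 1)))),
    fun p => if p = t ∨ p = s ∨ p = s + 1 then (0, j) else ep p,
    fun p => if p = t then -q else if p = s then 1 - q else if p = s + 1 then 1 else a p, ?_, ?_⟩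
  · have keep : ∀ p ∈ used, p ≠ s + 1 →
        (p ∈ insert t (insert s (insert (s + 1) (used.erase (s + 1)))) ∧
        (fun p => if p = t ∨ p = s ∨ p = s + 1 then ((0, j) : Vtx) else ep p) p = ep p ∧
        (fun p => if p = t then -q else if p = s then 1 - q else if p = s + 1 then 1 else a p) p
          = a p) := by
      intro p hp h1
      have h2 : p ≠ s := by have := hgap p hp h1; omega
      have h3 : p ≠ t := by have := hgap p hp h1; omega
      refine ⟨mem_ins3.mpr (Or.inr (Or.inr (Or.inr ⟨h1, hp⟩))), ?_, ?_⟩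
      · simp only [h1, h2, h3, or_self, if_false]
      · simp only [h1, h2, h3, if_false]
    have hts : t ≠ s := by omega
    have hts1 : t ≠ s + 1 := by omega
    constructor
    · intro x hx
      rcases Finset.mem_insert.mp hx with rfl | hx
      · exact ⟨le_rfl, hj.le, by simp only; omega, hjn⟩
      · exact h.bd x hx
    · intro x hx y h1 h2 h3 h4
      rw [Finset.mem_insert]
      rcases Finset.mem_insert.mp hx with rfl | hx
      · simp only at h3 h4
        by_cases e1 : y.2 ≤ j - 1
        · right; exact h.dc _ hw y h1 h2 h3 e1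
        · left
          ext <;> simp only <;> omega
      · right; exact h.dc x hx y h1 h2 h3 h4
    · intro x hx hx0
      by_cases hxv : x = (0, j)
      · subst hxv
        rw [hlv]
        refine ⟨mem_ins3.mpr (Or.inl rfl), ?_, ?_⟩ <;> simp
      · have hx' : x ∈ S := (Finset.mem_insert.mp hx).resolve_left hxv
        have hb := h.bd x hx'
        obtain ⟨m1, m2, m3⟩ := h.l1 x hx' hx0
        have hp : pL x ≠ s + 1 := by unfold pL; omega
        obtain ⟨k0, k1, k2⟩ := keep _ m1 hp
        exact ⟨k0, k1.trans m2, k2.trans m3⟩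
    · intro x hx hx0
      by_cases hxv : x = (0, j)
      · subst hxv
        rw [huv]
        refine ⟨mem_ins3.mpr (Or.inr (Or.inl rfl)), ?_, ?_⟩
        · simp
        · simp [hts.symm]
      · have hx' : x ∈ S := (Finset.mem_insert.mp hx).resolve_left hxv
        have hx0' : (x.1, x.2 + 1) ∉ S := fun h' => hx0 (Finset.mem_insert_of_mem h')
        obtain ⟨m1, m2, m3⟩ := h.l2 x hx' hx0'
        have hp1 : pU n x ≠ s + 1 := by
          intro h'
          rw [h', s2] at m2
          subst m2
          apply hx0
          simp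
        obtain ⟨k0, k1, k2⟩ := keep _ m1 hp1
        exact ⟨k0, k1.trans m2, k2.trans m3⟩
    · intro x hx hx0
      by_cases hxv : x = (0, j)
      · subst hxv
        rw [hrv]
        refine ⟨mem_ins3.mpr (Or.inr (Or.inr (Or.inl rfl))), ?_, ?_⟩
        · simp
        · simp [hts1.symm]
      · have hx' : x ∈ S := (Finset.mem_insert.mp hx).resolve_left hxv
        have hx0' : (x.1 + 1, x.2) ∉ S := fun h' => hx0 (Finset.mem_insert_of_mem h')
        obtain ⟨m1, m2, m3⟩ := h.l3 x hx' hx0'
        have hp2 : pR n x ≠ s + 1 := by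
          intro h'
          rw [h', s3] at m3
          exact one_sub_q_ne_one m3
        obtain ⟨k0, k1, k2⟩ := keep _ m1 hp2
        exact ⟨k0, k1.trans m2, k2.trans m3⟩
    · intro x hx hx0
      have hx' : x ∈ S := by
        rcases Finset.mem_insert.mp hx with rfl | hx
        · simp only at hx0; omega
        · exact hx
      have hb := h.bd x hx'
      obtain ⟨m1, m2, m3⟩ := h.l4 x hx' hx0
      have hp : pD n x ≠ s + 1 := by unfold pD; omega
      obtain ⟨k0, k1, k2⟩ := keep _ m1 hp
      exact ⟨k0, k1.trans m2, k2.trans m3⟩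
    · intro r hr
      rcases mem_ins3.mp hr with rfl | rfl | rfl | ⟨hrs, hr⟩
      · left; exact ⟨(0, j), Finset.mem_insert_self _ _, rfl, hlv.symm⟩
      · right; left; exact ⟨(0, j), Finset.mem_insert_self _ _, nv2, huv.symm⟩
      · right; right; left; exact ⟨(0, j), Finset.mem_insert_self _ _, nv1, hrv.symm⟩
      · rcases h.l5 r hr with ⟨x, hx, h1, h2⟩ | ⟨x, hx, h1, h2⟩ | ⟨x, hx, h1, h2⟩ |
          ⟨x, hx, h1, h2⟩
        · left; exact ⟨x, Finset.mem_insert_of_mem hx, h1, h2⟩
        · right; left
          refine ⟨x, Finset.mem_insert_of_mem hx, ?_, h2⟩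
          rw [Finset.mem_insert]
          rintro (h' | h')
          · rw [Prod.mk.injEq] at h'
            apply hrs
            rw [h2]
            unfold pU
            omega
          · exact h1 h'
        · right; right; left
          refine ⟨x, Finset.mem_insert_of_mem hx, ?_, h2⟩
          rw [Finset.mem_insert]
          rintro (h' | h')
          · rw [Prod.mk.injEq] at h'
            have := h.bd x hx
            omega
          · exact h1 h'
        · right; right; right; exact ⟨x, Finset.mem_insert_of_mem hx, h1, h2⟩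
  · have hts : t ≠ s := by omega
    have hts1 : t ≠ s + 1 := by omega
    refine hf.axis (v := (0, j)) (u := (0, j - 1)) (e := (0, j - 1, false))
      (s := s + 1) (t1 := t) (t2 := s) (t3 := s + 1) hv hw ⟨rfl, by simp⟩
      (ES_insert_left h hv hj hw) s1 (by omega) (by omega) (by omega) le_rfl (by omega)
      hgap s2 h.epS ?_ ?_ ?_ ?_ ?_ ?_ ?_ ?_
    · intro p hp h1
      have h2 : p ≠ s := by have := hgap p hp h1; omega
      have h3 : p ≠ t := by have := hgap p hp h1; omega
      simp only [h1, h2, h3, or_self, if_false]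
    · simp
    · simp
    · simp
    · intro r hr
      have h1 : r ≠ s := by omega
      have h2 : r ≠ s + 1 := by omega
      have h3 : r ≠ t := by omega
      simp only [h1, h2, h3, if_false]
    · simp only [if_true, s3]
      linear_combination (-1 : ℂ) * q_sq
    · simp [s3, hts.symm]
    · simp only [hts1.symm, if_false, if_true, s3]
      rw [if_neg (by omega)]
      linear_combination q_sq

end H973
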