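import Pool.Agent.H973R2.Main1

/-!
Exact two-point identities for every boundary edge of a Young diagram.
-/

namespace H973

open H974 Finset Matrix

/-- The test sequence: `Y21` on the leg `m`, identity elsewhere. -/
noncomputable def XM (m : ℕ) : ℕ → M := fun t => if t = m then Y21 else 1

theorem tq_Y : tq Y21 = 0 := by
  simp [tq, Y21]

theorem tq_dl_one_Y : tq (dl 1 * Y21) = 1 := by
  simp only [tq, dl, E, K, Y21, Matrix.sub_apply, Matrix.mul_apply, Fin.sum_univ_two]
  simp
  linear_combination (-1 : ℂ) * q_sq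

theorem conj_one : K * 1 * Ki = 1 := by rw [Matrix.mul_one, K_mul_Ki]

theorem tw_m_self (m : ℕ) : tw m (XM m) m = dl Y21 := by
  unfold tw XM
  rw [if_neg (lt_irrefl _), if_pos rfl, if_pos rfl]

theorem tw_m_other {m t : ℕ} (h : t ≠ m) : tw m (XM m) t = 1 := by
  unfold tw XM
  rw [if_neg h, if_neg h, conj_one, ite_self]

theorem tw_gt_m {m r : ℕ} (h : m < r) : tw r (XM m) m = K * Y21 * Ki := by
  unfold tw XM
  rw [if_pos h, if_pos rfl]

theorem tw_gt_r {m r : ℕ} (h : m < r) : tw r (XM m) r = dl 1 := by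
  unfold tw XM
  rw [if_neg (lt_irrefl _), if_pos rfl, if_neg (by omega)]

theorem tw_lt_m {m r : ℕ} (h : r < m) : tw r (XM m) m = Y21 := by
  unfold tw XM
  rw [if_neg (by omega), if_neg (by omega), if_pos rfl]

theorem tw_lt_r {m r : ℕ} (h : r < m) : tw r (XM m) r = dl 1 := by
  unfold tw XM
  rw [if_neg (lt_irrefl _), if_pos rfl, if_neg (by omega)]

theorem tw_other {m r t : ℕ} (h1 : t ≠ m) (h2 : t ≠ r) : tw r (XM m) t = 1 := by
  unfold tw XM
  rw [if_neg h1, if_neg h2, conj_one, ite_self]

theorem psi_m_eval {N C m : ℕ} {used : Finset ℕ} {lab : ℕ → ℕ} (h0 : m ∈ used) (hN : m < N)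
    (hC : lab m < C) : psi N C used lab (tw m (XM m)) = 2 * q := by
  unfold psi
  rw [Finset.prod_eq_single (lab m)]
  · rw [W_single (s := m) hN]
    · unfold blk
      rw [if_pos ⟨h0, rfl⟩, tw_m_self, tq_dl_Y]
    · intro i _ hi
      unfold blk
      split_ifs
      · exact tw_m_other hi
      · rfl
  · intro c _ hc
    rw [W_one, tq_one]
    intro i _
    unfold blk
    split_ifs with h
    · refine tw_m_other ?_
      rintro rfl
      exact hc h.2.symm
    · rfl
  · intro h
    exact absurd (Finset.mem_range.mpr hC) h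

theorem psi_gt_eval {N C m : ℕ} {used : Finset ℕ} {lab : ℕ → ℕ} {r : ℕ} (h0 : m ∈ used)
    (hmr : m < r) (hr : r ∈ used) (hN : r < N) (hC : lab m < C) :
    psi N C used lab (tw r (XM m)) = if lab r = lab m then -(1 - q) else 0 := by
  unfold psi
  split_ifs with h
  · rw [Finset.prod_eq_single (lab m)]
    · rw [W_double (a := m) (b := r) hmr hN]
      · unfold blk
        rw [if_pos ⟨h0, rfl⟩, if_pos ⟨hr, h⟩, tw_gt_m hmr, tw_gt_r hmr, tq_KYKi_dl]
      · intro i _ h1 h2
        unfold blk
        split_ifs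
        · exact tw_other h1 h2
        · rfl
    · intro c _ hc
      rw [W_one, tq_one]
      intro i _
      unfold blk
      split_ifs with h'
      · refine tw_other ?_ ?_
        · rintro rfl
          exact hc h'.2.symm
        · rintro rfl
          exact hc (h'.2.symm.trans h)
      · rfl
    · intro h'
      exact absurd (Finset.mem_range.mpr hC) h'
  · apply Finset.prod_eq_zero (Finset.mem_range.mpr hC)
    rw [W_single (s := m) (by omega)]
    · unfold blk
      rw [if_pos ⟨h0, rfl⟩, tw_gt_m hmr, tq_KYKi]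
    · intro i _ hi
      unfold blk
      split_ifs with h'
      · refine tw_other hi ?_
        rintro rfl
        exact h h'.2
      · rfl

theorem psi_lt_eval {N C m : ℕ} {used : Finset ℕ} {lab : ℕ → ℕ} {r : ℕ} (h0 : m ∈ used)
    (hmr : r < m) (hr : r ∈ used) (hN : m < N) (hC : lab m < C) :
    psi N C used lab (tw r (XM m)) = if lab r = lab m then 1 else 0 := by
  unfold psi
  split_ifs with h
  · rw [Finset.prod_eq_single (lab m)]
    · rw [W_double (a := r) (b := m) hmr hN]
      · unfold blk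
        rw [if_pos ⟨hr, h⟩, if_pos ⟨h0, rfl⟩, tw_lt_m hmr, tw_lt_r hmr, tq_dl_one_Y]
      · intro i _ h1 h2
        unfold blk
        split_ifs
        · exact tw_other h2 h1
        · rfl
    · intro c _ hc
      rw [W_one, tq_one]
      intro i _
      unfold blk
      split_ifs with h'
      · refine tw_other ?_ ?_
        · rintro rfl
          exact hc h'.2.symm
        · rintro rfl
          exact hc (h'.2.symm.trans h)
      · rfl
    · intro h'
      exact absurd (Finset.mem_range.mpr hC) h'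
  · apply Finset.prod_eq_zero (Finset.mem_range.mpr hC)
    rw [W_single (s := m) (by omega)]
    · unfold blk
      rw [if_pos ⟨h0, rfl⟩, tw_lt_m hmr, tq_Y]
    · intro i _ hi
      unfold blk
      split_ifs with h'
      · refine tw_other hi ?_
        rintro rfl
        exact h h'.2
      · rfl

/-- Probability that `u` is connected to `x` inside `S` in critical bond percolation. -/
noncomputable def PC (S : Finset Vtx) (u x : Vtx) : ℝ :=
  Pr (fun _ => (1 / 2 : ℝ)) (ES S) (fun F => Reach (F : Set Edg) u x)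

theorem Legs.lt {n : ℕ} {S : Finset Vtx} {used : Finset ℕ} {ep : ℕ → Vtx} {a : ℕ → ℂ}
    (h : Legs n S used ep a) : ∀ r ∈ used, r < 4 * n + 1 := by
  intro r hr
  rcases h.l5 r hr with ⟨x, hx, h1, h2⟩ | ⟨x, hx, h1, h2⟩ | ⟨x, hx, h1, h2⟩ | ⟨x, hx, h1, h2⟩
  · have := h.bd x hx; unfold pL at h2; omega
  · have := h.bd x hx; unfold pU at h2; omega
  · have := h.bd x hx; unfold pR at h2; omega
  · have := h.bd x hx; unfold pD at h2; omega

theorem flux_eval_m {n C : ℕ} {S : Finset Vtx} {used : Finset ℕ} {ep : ℕ → Vtx} {a : ℕ → ℂ}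
    (h : Legs n S used ep a) {F : Finset Edg} {ν : Vtx → ℕ}
    (hB : Rep S F ν C) {m : ℕ} (hm : m ∈ used) :
    Fl used a (psi (4 * n + 1) C used (fun p => ν (ep p))) (XM m) =
      ∑ r ∈ used.filter (fun r => r < m), a r * (ind (Reach (F : Set Edg) (ep m) (ep r)) : ℂ)
      + 2 * q * a m
      + q ^ 2 * ∑ r ∈ used.filter (fun r => m < r),
          a r * (ind (Reach (F : Set Edg) (ep m) (ep r)) : ℂ) := by
  have hC : ν (ep m) < C := hB.1 _ (h.epS m hm)
  have hlab : ∀ r ∈ used, (ν (ep r) = ν (ep m) ↔ Reach (F : Set Edg) (ep m) (ep r)) := by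
    intro r hr
    rw [← hB.2 _ (h.epS m hm) _ (h.epS r hr)]
    exact eq_comm
  have hsplit : used = used.filter (fun r => r < m) ∪ (insert m (used.filter (fun r => m < r))) := by
    ext r
    simp only [Finset.mem_union, Finset.mem_insert, Finset.mem_filter]
    constructor
    · intro hr
      rcases lt_trichotomy r m with h1 | h1 | h1
      · left; exact ⟨hr, h1⟩
      · right; left; exact h1
      · right; right; exact ⟨hr, h1⟩
    · rintro (h1 | rfl | h1)
      · exact h1.1
      · exact hm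
      · exact h1.1
  unfold Fl
  conv_lhs => rw [hsplit]
  rw [Finset.sum_union, Finset.sum_insert]
  · rw [← hsplit, psi_m_eval hm (h.lt m hm) hC]
    have e1 : ∑ r ∈ used.filter (fun r => r < m),
        a r * psi (4 * n + 1) C used (fun p => ν (ep p)) (tw r (XM m)) =
        ∑ r ∈ used.filter (fun r => r < m),
          a r * (ind (Reach (F : Set Edg) (ep m) (ep r)) : ℂ) := by
      apply Finset.sum_congr rfl
      intro r hr
      rw [Finset.mem_filter] at hr
      rw [psi_lt_eval hm hr.2 hr.1 (h.lt m hm) hC]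
      congr 1
      by_cases hc : ν (ep r) = ν (ep m)
      · rw [if_pos hc, ind_of ((hlab r hr.1).mp hc)]; simp
      · rw [if_neg hc, ind_not_of (fun hh => hc ((hlab r hr.1).mpr hh))]; simp
    have e2 : ∑ r ∈ used.filter (fun r => m < r),
        a r * psi (4 * n + 1) C used (fun p => ν (ep p)) (tw r (XM m)) =
        ∑ r ∈ used.filter (fun r => m < r),
          q ^ 2 * (a r * (ind (Reach (F : Set Edg) (ep m) (ep r)) : ℂ)) := by
      apply Finset.sum_congr rfl
      intro r hr
      rw [Finset.mem_filter] at hr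
      rw [psi_gt_eval hm hr.2 hr.1 (h.lt r hr.1) hC]
      by_cases hc : ν (ep r) = ν (ep m)
      · rw [if_pos hc, ind_of ((hlab r hr.1).mp hc), q_sq]; push_cast; ring
      · rw [if_neg hc, ind_not_of (fun hh => hc ((hlab r hr.1).mpr hh))]; simp
    rw [e1, e2, ← Finset.mul_sum]
    ring
  · rw [Finset.mem_filter]; rintro ⟨_, h'⟩; exact lt_irrefl _ h'
  · rw [Finset.disjoint_left]
    intro r h1 h2
    rw [Finset.mem_filter] at h1
    rcases Finset.mem_insert.mp h2 with rfl | h2
    · exact lt_irrefl _ h1.2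
    · rw [Finset.mem_filter] at h2
      exact lt_asymm h1.2 h2.2

theorem two_point_aux {n : ℕ} {S : Finset Vtx} {used : Finset ℕ} {ep : ℕ → Vtx} {a : ℕ → ℂ}
    (hL : Legs n S used ep a) (hF : FluxZero (4 * n + 1) S used ep a) {m : ℕ} (hm : m ∈ used) :
    ∑ r ∈ used.filter (fun r => r < m), a r * (PC S (ep m) (ep r) : ℂ) + 2 * q * a m +
      q ^ 2 * ∑ r ∈ used.filter (fun r => m < r), a r * (PC S (ep m) (ep r) : ℂ) = 0 := by
  obtain ⟨C, ν, hB, hC⟩ := hF
  have h1 := hC (XM m)
  rw [Finset.sum_congr rfl (fun F hF => flux_eval_m hL (hB F (Finset.mem_powerset.mp hF)).1 hm)]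
    at h1
  rw [Finset.sum_add_distrib, Finset.sum_add_distrib, Finset.sum_comm,
    Finset.sum_const, Finset.card_powerset, nsmul_eq_mul, ← Finset.mul_sum] at h1
  have hcomm : ∑ F ∈ (ES S).powerset, ∑ r ∈ used.filter (fun r => m < r),
      a r * (ind (Reach (F : Set Edg) (ep m) (ep r)) : ℂ) =
      ∑ r ∈ used.filter (fun r => m < r), ∑ F ∈ (ES S).powerset,
      a r * (ind (Reach (F : Set Edg) (ep m) (ep r)) : ℂ) := Finset.sum_comm
  rw [hcomm] at h1
  have h4 : ∀ x, (PC S (ep m) x : ℂ) = (1 / 2) ^ (ES S).card *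
      ∑ F ∈ (ES S).powerset, (ind (Reach (F : Set Edg) (ep m) x) : ℂ) := by
    intro x
    unfold PC Pr
    rw [Ex_half]
    push_cast
    rfl
  have h5 : ∀ T : Finset ℕ, ∑ r ∈ T, a r * (PC S (ep m) (ep r) : ℂ) = (1 / 2) ^ (ES S).card *
      ∑ r ∈ T, ∑ F ∈ (ES S).powerset,
        a r * (ind (Reach (F : Set Edg) (ep m) (ep r)) : ℂ) := by
    intro T
    rw [Finset.mul_sum]
    apply Finset.sum_congr rfl
    intro r _
    rw [h4, ← Finset.mul_sum]
    ring
  have h6 : ((1 : ℂ) / 2) ^ (ES S).card * (2 ^ (ES S).card) = 1 := by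
    rw [← mul_pow]; norm_num
  rw [h5, h5]
  push_cast at h1
  linear_combination (1 / 2) ^ (ES S).card * h1 - 2 * q * a m * h6

end H973
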