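import Pool.Agent.H973R2.Grow

/-!
Young diagrams: bookkeeping of the dangling legs and induction on the diagram.
-/

namespace H973

open H974 Finset

/-- Position of the leg pointing to the left of a vertex of the left axis. -/
def pL (x : Vtx) : ℕ := x.2.toNat
/-- Position of the leg pointing up. -/
def pU (n : ℕ) (x : Vtx) : ℕ := (2 * n + x.1 - x.2 - 1).toNat
/-- Position of the leg pointing to the right. -/
def pR (n : ℕ) (x : Vtx) : ℕ := (2 * n + x.1 - x.2).toNat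
/-- Position of the leg pointing down from a vertex of the bottom axis. -/
def pD (n : ℕ) (x : Vtx) : ℕ := (4 * n - x.1).toNat

/-- A finite order ideal of `ℕ × ℕ` (a Young diagram). -/
structure Young (S : Finset Vtx) : Prop where
  nn : ∀ x ∈ S, 0 ≤ x.1 ∧ 0 ≤ x.2
  dc : ∀ x ∈ S, ∀ y : Vtx, 0 ≤ y.1 → 0 ≤ y.2 → y.1 ≤ x.1 → y.2 ≤ x.2 → y ∈ S
  zero : ((0, 0) : Vtx) ∈ S

/-- Bookkeeping of the legs of a Young diagram. -/
structure Legs (n : ℕ) (S : Finset Vtx) (used : Finset ℕ) (ep : ℕ → Vtx) (a : ℕ → ℂ) : Prop where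
  bd : ∀ x ∈ S, 0 ≤ x.1 ∧ 0 ≤ x.2 ∧ x.1 < n ∧ x.2 < n
  dc : ∀ x ∈ S, ∀ y : Vtx, 0 ≤ y.1 → 0 ≤ y.2 → y.1 ≤ x.1 → y.2 ≤ x.2 → y ∈ S
  l1 : ∀ x ∈ S, x.1 = 0 → pL x ∈ used ∧ ep (pL x) = x ∧ a (pL x) = -q
  l2 : ∀ x ∈ S, (x.1, x.2 + 1) ∉ S → pU n x ∈ used ∧ ep (pU n x) = x ∧ a (pU n x) = 1 - q
  l3 : ∀ x ∈ S, (x.1 + 1, x.2) ∉ S → pR n x ∈ used ∧ ep (pR n x) = x ∧ a (pR n x) = 1
  l4 : ∀ x ∈ S, x.2 = 0 → pD n x ∈ used ∧ ep (pD n x) = x ∧ a (pD n x) = q
  l5 : ∀ r ∈ used, (∃ x ∈ S, x.1 = 0 ∧ r = pL x) ∨ (∃ x ∈ S, (x.1, x.2 + 1) ∉ S ∧ r = pU n x) ∨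
    (∃ x ∈ S, (x.1 + 1, x.2) ∉ S ∧ r = pR n x) ∨ (∃ x ∈ S, x.2 = 0 ∧ r = pD n x)

theorem q_ne_zero : q ≠ 0 := by
  intro h
  have := q_sq
  rw [h] at this
  norm_num at this

theorem one_sub_q_ne_one : (1 : ℂ) - q ≠ 1 := by
  intro h
  apply q_ne_zero
  linear_combination -h

variable {n : ℕ} {S : Finset Vtx} {used : Finset ℕ} {ep : ℕ → Vtx} {a : ℕ → ℂ}

theorem Legs.epS (h : Legs n S used ep a) : ∀ p ∈ used, ep p ∈ S := by
  intro p hp
  rcases h.l5 p hp with ⟨x, hx, h1, rfl⟩ | ⟨x, hx, h1, rfl⟩ | ⟨x, hx, h1, rfl⟩ | ⟨x, hx, h1, rfl⟩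
  · rw [(h.l1 x hx h1).2.1]; exact hx
  · rw [(h.l2 x hx h1).2.1]; exact hx
  · rw [(h.l3 x hx h1).2.1]; exact hx
  · rw [(h.l4 x hx h1).2.1]; exact hx

/-- Edge set after adding a vertex with two neighbours. -/
theorem ES_insert_interior (h : Legs n S used ep a) {i j : ℤ} (hv : ((i, j) : Vtx) ∉ S)
    (hi : 0 < i) (hj : 0 < j) (hu : ((i - 1, j) : Vtx) ∈ S) (hw : ((i, j - 1) : Vtx) ∈ S) :
    ES (insert (i, j) S) = insert (i - 1, j, true) (insert (i, j - 1, false) (ES S)) := by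
  ext ⟨x, y, b⟩
  rw [mem_ES, Finset.mem_insert, Finset.mem_insert, Finset.mem_insert, Finset.mem_insert, mem_ES]
  cases b
  · simp only [src_mk, tgt_false, Prod.mk.injEq, Bool.false_eq_true, and_false, false_or, and_true]
    constructor
    · rintro ⟨h1 | h1, h2 | h2⟩
      · omega
      · exfalso
        obtain ⟨rfl, rfl⟩ := h1
        exact hv (h.dc _ h2 (x, y) hi.le hj.le (by simp) (by simp))
      · left; omega
      · right; exact ⟨h1, h2⟩
    · rintro (⟨h1, h2⟩ | ⟨h1, h2⟩)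
      · subst h1; subst h2
        exact ⟨Or.inr hw, Or.inl ⟨rfl, by omega⟩⟩
      · exact ⟨Or.inr h1, Or.inr h2⟩
  · simp only [src_mk, tgt_true, Prod.mk.injEq, Bool.true_eq_false, and_false, false_or, and_true]
    constructor
    · rintro ⟨h1 | h1, h2 | h2⟩
      · omega
      · exfalso
        obtain ⟨rfl, rfl⟩ := h1
        exact hv (h.dc _ h2 (x, y) hi.le hj.le (by simp) (by simp))
      · left; omega
      · right; exact ⟨h1, h2⟩
    · rintro (⟨h1, h2⟩ | ⟨h1, h2⟩)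
      · subst h1; subst h2
        exact ⟨Or.inr hu, Or.inl ⟨by omega, rfl⟩⟩
      · exact ⟨Or.inr h1, Or.inr h2⟩

theorem ES_insert_bottom (h : Legs n S used ep a) {i : ℤ} (hv : ((i, 0) : Vtx) ∉ S)
    (hi : 0 < i) (hu : ((i - 1, 0) : Vtx) ∈ S) :
    ES (insert (i, 0) S) = insert (i - 1, 0, true) (ES S) := by
  ext ⟨x, y, b⟩
  rw [mem_ES, Finset.mem_insert, Finset.mem_insert, Finset.mem_insert, mem_ES]
  cases b
  · simp only [src_mk, tgt_false, Prod.mk.injEq, Bool.false_eq_true, and_false, false_or]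
    constructor
    · rintro ⟨h1 | h1, h2 | h2⟩
      · omega
      · exfalso
        obtain ⟨rfl, rfl⟩ := h1
        exact hv (h.dc _ h2 (x, 0) hi.le le_rfl (by simp) (by simp))
      · exfalso
        have := (h.bd _ h1).2.1
        simp only at this
        omega
      · exact ⟨h1, h2⟩
    · rintro ⟨h1, h2⟩
      exact ⟨Or.inr h1, Or.inr h2⟩
  · simp only [src_mk, tgt_true, Prod.mk.injEq, and_true]
    constructor
    · rintro ⟨h1 | h1, h2 | h2⟩
      · omega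
      · exfalso
        obtain ⟨rfl, rfl⟩ := h1
        exact hv (h.dc _ h2 (x, 0) hi.le le_rfl (by simp) (by simp))
      · left; omega
      · right; exact ⟨h1, h2⟩
    · rintro (⟨h1, h2⟩ | ⟨h1, h2⟩)
      · subst h1; subst h2
        exact ⟨Or.inr hu, Or.inl ⟨by omega, rfl⟩⟩
      · exact ⟨Or.inr h1, Or.inr h2⟩

theorem ES_insert_left (h : Legs n S used ep a) {j : ℤ} (hv : ((0, j) : Vtx) ∉ S)
    (hj : 0 < j) (hw : ((0, j - 1) : Vtx) ∈ S) :
    ES (insert (0, j) S) = insert (0, j - 1, false) (ES S) := by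
  ext ⟨x, y, b⟩
  rw [mem_ES, Finset.mem_insert, Finset.mem_insert, Finset.mem_insert, mem_ES]
  cases b
  · simp only [src_mk, tgt_false, Prod.mk.injEq, and_true]
    constructor
    · rintro ⟨h1 | h1, h2 | h2⟩
      · omega
      · exfalso
        obtain ⟨rfl, rfl⟩ := h1
        exact hv (h.dc _ h2 (0, y) le_rfl hj.le (by simp) (by simp))
      · left; omega
      · right; exact ⟨h1, h2⟩
    · rintro (⟨h1, h2⟩ | ⟨h1, h2⟩)
      · subst h1; subst h2
        exact ⟨Or.inr hw, Or.inl ⟨rfl, by omega⟩⟩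
      · exact ⟨Or.inr h1, Or.inr h2⟩
  · simp only [src_mk, tgt_true, Prod.mk.injEq, Bool.true_eq_false, and_false, false_or]
    constructor
    · rintro ⟨h1 | h1, h2 | h2⟩
      · omega
      · exfalso
        obtain ⟨rfl, rfl⟩ := h1
        exact hv (h.dc _ h2 (0, y) le_rfl hj.le (by simp) (by simp))
      · exfalso
        have := (h.bd _ h1).1
        simp only at this
        omega
      · exact ⟨h1, h2⟩
    · rintro ⟨h1, h2⟩
      exact ⟨Or.inr h1, Or.inr h2⟩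

end H973
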